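import Mathlib

/-! A divisor bound: `τ(n)^k ≤ C_k n`. -/

namespace Pool.Helper30.Hall

open Finset

/-- `(a+1)^k ≤ C * 2^a` for a constant `C = C(k)`. -/
theorem exists_pow_le_two_pow (k : ℕ) : ∃ C : ℕ, 1 ≤ C ∧ ∀ a : ℕ, (a + 1) ^ k ≤ C * 2 ^ a := by
  induction k with
  | zero => exact ⟨1, le_refl _, fun a => by simpa using Nat.one_le_two_pow⟩
  | succ k ih =>
    -- use `(a+1)^(k+1)` versus halves: `a + 1 ≤ 2 (⌊a/2⌋+1)`
    clear ih
    have h := tendsto_pow_const_div_const_pow_of_one_lt (k + 1) (r := (2 : ℝ)) (by norm_num)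
    have h2 := h.bddAbove_range
    obtain ⟨M, hM⟩ := h2
    refine ⟨⌈2 * M⌉₊ + 1, by omega, fun a => ?_⟩
    have h3 : (((a + 1 : ℕ) : ℝ) ^ (k + 1) / 2 ^ (a + 1)) ≤ M := hM ⟨a + 1, rfl⟩
    rw [div_le_iff₀ (by positivity)] at h3
    have h4 : (2 * M) ≤ ((⌈2 * M⌉₊ : ℕ) : ℝ) := Nat.le_ceil _
    have h5 : (((a + 1) ^ (k + 1) : ℕ) : ℝ) ≤ (((⌈2 * M⌉₊ + 1) * 2 ^ a : ℕ) : ℝ) := by
      push_cast
      push_cast at h3
      have h6 : M * 2 ^ (a + 1) = (2 * M) * 2 ^ a := by ring
      rw [h6] at h3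
      have h7 : (2 * M) * (2 : ℝ) ^ a ≤ ((⌈2 * M⌉₊ : ℕ) : ℝ) * 2 ^ a := by gcongr
      have h8 : (0 : ℝ) ≤ 2 ^ a := by positivity
      nlinarith
    exact_mod_cast h5

theorem card_divisors_pow_le (k : ℕ) : ∃ C : ℕ, 1 ≤ C ∧ ∀ n : ℕ, n ≠ 0 →
    n.divisors.card ^ k ≤ C * n := by
  obtain ⟨C, hC1, hC⟩ := exists_pow_le_two_pow k
  refine ⟨C ^ (2 ^ k), Nat.one_le_pow _ _ hC1, fun n hn => ?_⟩
  rw [Nat.card_divisors hn, ← Finset.prod_pow]
  have hn2 : ∏ p ∈ n.primeFactors, p ^ (n.factorization p) = n := (Nat.prod_primeFactors_pow_factorization hn).symm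
  have key : ∀ p ∈ n.primeFactors, (n.factorization p + 1) ^ k ≤
      (if p < 2 ^ k then C else 1) * p ^ (n.factorization p) := by
    intro p hp
    have hp2 : 2 ≤ p := (Nat.prime_of_mem_primeFactors hp).two_le
    split_ifs with h
    · refine (hC _).trans ?_
      gcongr
    · push Not at h
      rw [one_mul]
      calc (n.factorization p + 1) ^ k ≤ (2 ^ (n.factorization p)) ^ k := by
            gcongr
            exact Nat.lt_two_pow_self
        _ = (2 ^ k) ^ (n.factorization p) := by rw [← pow_mul, ← pow_mul, mul_comm]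
        _ ≤ p ^ (n.factorization p) := by gcongr
  calc ∏ p ∈ n.primeFactors, (n.factorization p + 1) ^ k
      ≤ ∏ p ∈ n.primeFactors, ((if p < 2 ^ k then C else 1) * p ^ (n.factorization p)) :=
        Finset.prod_le_prod' key
    _ = (∏ p ∈ n.primeFactors, (if p < 2 ^ k then C else 1)) * n := by
        rw [Finset.prod_mul_distrib, hn2]
    _ ≤ C ^ (2 ^ k) * n := by
        gcongr
        rw [Finset.prod_ite]
        simp only [Finset.prod_const, one_pow, mul_one]
        apply Nat.pow_le_pow_right hC1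
        calc (n.primeFactors.filter (fun p => p < 2 ^ k)).card ≤ (Finset.range (2 ^ k)).card := by
              apply Finset.card_le_card
              intro p hp
              simp only [Finset.mem_filter] at hp
              exact Finset.mem_range.2 hp.2
          _ = 2 ^ k := Finset.card_range _

end Pool.Helper30.Hall
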