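import Mathlib

/-! Siegel's lemma for a finite set of rows with a nonzero rational relation. -/

namespace Pool.Helper30.Hall

open Finset

attribute [local instance] Matrix.seminormedAddCommGroup

theorem siegel_rows {β : Type} [Fintype β] [DecidableEq β]
    (R : Finset (β → ℤ)) (X : ℕ) (hX : 1 ≤ X) (hR : ∀ r ∈ R, ∀ j, |r j| ≤ X)
    (c : β → ℚ) (hc : c ≠ 0) (hcR : ∀ r ∈ R, ∑ j, (r j : ℚ) * c j = 0) :
    ∃ t : β → ℤ, t ≠ 0 ∧ (∀ r ∈ R, ∑ j, r j * t j = 0) ∧
      ∀ j, |t j| ≤ ((Fintype.card β * X : ℕ) : ℤ) ^ (Fintype.card β) := by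
  classical
  obtain ⟨j0, hj0⟩ : ∃ j, c j ≠ 0 := by
    by_contra h
    push Not at h
    exact hc (funext h)
  have hN : 1 ≤ Fintype.card β := Fintype.card_pos_iff.2 ⟨j0⟩
  have hNX : 1 ≤ Fintype.card β * X := Nat.one_le_iff_ne_zero.2 (by positivity)
  let cast : (β → ℤ) → (β → ℚ) := fun r j => (r j : ℚ)
  let s : Set (β → ℚ) := cast '' (R : Set (β → ℤ))
  obtain ⟨B, hBs, hBspan, hBli⟩ := exists_linearIndependent ℚ s
  have hsfin : s.Finite := R.finite_toSet.image _
  have hBfin : B.Finite := hsfin.subset hBs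
  have : Fintype B := hBfin.fintype
  -- the functional given by `c`
  let φ : (β → ℚ) →ₗ[ℚ] ℚ := ∑ j, c j • LinearMap.proj j
  have hφ : ∀ x, φ x = ∑ j, x j * c j := by
    intro x
    simp only [φ, LinearMap.sum_apply, LinearMap.smul_apply, LinearMap.proj_apply, smul_eq_mul]
    exact Finset.sum_congr rfl (fun j _ => mul_comm _ _)
  have hspan : Submodule.span ℚ B ≤ LinearMap.ker φ := by
    rw [Submodule.span_le]
    intro x hx
    obtain ⟨r, hr, rfl⟩ := hBs hx
    simp only [SetLike.mem_coe, LinearMap.mem_ker, hφ]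
    exact hcR r hr
  have hlt : Fintype.card B < Fintype.card β := by
    have h1 : Module.finrank ℚ (Submodule.span ℚ B) = Fintype.card B := by
      have := finrank_span_eq_card (R := ℚ) (b := (Subtype.val : B → (β → ℚ))) hBli
      rwa [Subtype.range_coe] at this
    rw [← h1, ← Module.finrank_fintype_fun_eq_card ℚ (η := β)]
    apply Submodule.finrank_lt
    intro htop
    rw [htop] at hspan
    have h2 : (Pi.single j0 (1 : ℚ) : β → ℚ) ∈ LinearMap.ker φ := hspan trivial
    rw [LinearMap.mem_ker, hφ] at h2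
    simp only [Pi.single_apply, ite_mul, one_mul, zero_mul, Finset.sum_ite_eq', Finset.mem_univ,
      if_true] at h2
    exact hj0 h2
  -- any integral vector orthogonal to `B` is orthogonal to `R`
  have horth : ∀ t : β → ℤ, (∀ x ∈ B, ∑ j, x j * (t j : ℚ) = 0) → ∀ r ∈ R, ∑ j, r j * t j = 0 := by
    intro t ht r hr
    let ψ : (β → ℚ) →ₗ[ℚ] ℚ := ∑ j, (t j : ℚ) • LinearMap.proj j
    have hψ : ∀ x, ψ x = ∑ j, x j * (t j : ℚ) := by
      intro x
      simp only [ψ, LinearMap.sum_apply, LinearMap.smul_apply, LinearMap.proj_apply, smul_eq_mul]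
      exact Finset.sum_congr rfl (fun j _ => mul_comm _ _)
    have h1 : Submodule.span ℚ B ≤ LinearMap.ker ψ := by
      rw [Submodule.span_le]
      intro x hx
      simp only [SetLike.mem_coe, LinearMap.mem_ker, hψ]
      exact ht x hx
    have h2 : cast r ∈ Submodule.span ℚ B := by
      rw [hBspan]
      exact Submodule.subset_span ⟨r, hr, rfl⟩
    have h3 := h1 h2
    rw [LinearMap.mem_ker, hψ] at h3
    have h4 : ((∑ j, r j * t j : ℤ) : ℚ) = 0 := by
      push_cast
      exact h3
    exact_mod_cast h4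
  by_cases hB0 : Fintype.card B = 0
  · refine ⟨fun _ => 1, ?_, ?_, ?_⟩
    · intro h
      have := congrFun h j0
      simp at this
    · apply horth
      intro x hx
      have hpos : 0 < Fintype.card B := Fintype.card_pos_iff.2 ⟨⟨x, hx⟩⟩
      omega
    · intro j
      simp only [abs_one]
      exact_mod_cast Nat.one_le_pow _ _ hNX
  · -- choose integral rows
    have hch : ∀ x : B, ∃ r ∈ R, cast r = x.1 := by
      intro x
      obtain ⟨r, hr, hrx⟩ := hBs x.2
      exact ⟨r, hr, hrx⟩
    choose rr hrr hcast using hch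
    let A : Matrix B β ℤ := Matrix.of fun x j => rr x j
    obtain ⟨t, ht0, hAt, htn⟩ := Int.Matrix.exists_ne_zero_int_vec_norm_le A hlt
      (Nat.pos_of_ne_zero hB0)
    refine ⟨t, ht0, ?_, ?_⟩
    · apply horth
      intro x hx
      have h1 := congrFun hAt ⟨x, hx⟩
      simp only [Matrix.mulVec, dotProduct, A, Matrix.of_apply, Pi.zero_apply] at h1
      have h2 : ∀ j, x j = (rr ⟨x, hx⟩ j : ℚ) := by
        intro j
        have := congrFun (hcast ⟨x, hx⟩) j
        exact this.symm
      simp only [h2]
      exact_mod_cast h1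
    · intro j
      have hA : ‖A‖ ≤ X := by
        rw [Matrix.norm_le_iff (by positivity)]
        intro x j
        rw [Int.norm_eq_abs]
        have := hR _ (hrr x) j
        simp only [A, Matrix.of_apply]
        exact_mod_cast this
      have hmax : max 1 ‖A‖ ≤ X := max_le (by exact_mod_cast hX) hA
      have h1 : ‖t‖ ≤ ((Fintype.card β * X : ℕ) : ℝ) ^ (Fintype.card β) := by
        refine htn.trans ?_
        have hbase : (Fintype.card β : ℝ) * max 1 ‖A‖ ≤ ((Fintype.card β * X : ℕ) : ℝ) := by
          push_cast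
          gcongr
        have hexp : (Fintype.card B : ℝ) / ((Fintype.card β : ℝ) - Fintype.card B) ≤
            (Fintype.card β : ℝ) := by
          have hlt' : (Fintype.card B : ℝ) + 1 ≤ Fintype.card β := by exact_mod_cast hlt
          have hpos : (1 : ℝ) ≤ (Fintype.card β : ℝ) - Fintype.card B := by linarith
          rw [div_le_iff₀ (by linarith)]
          have : (0 : ℝ) ≤ Fintype.card B := by positivity
          nlinarith
        have hexp0 : 0 ≤ (Fintype.card B : ℝ) / ((Fintype.card β : ℝ) - Fintype.card B) := by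
          have hlt' : (Fintype.card B : ℝ) + 1 ≤ Fintype.card β := by exact_mod_cast hlt
          apply div_nonneg (by positivity)
          linarith
        calc ((Fintype.card β : ℝ) * max 1 ‖A‖) ^
              ((Fintype.card B : ℝ) / ((Fintype.card β : ℝ) - Fintype.card B))
            ≤ ((Fintype.card β * X : ℕ) : ℝ) ^
              ((Fintype.card B : ℝ) / ((Fintype.card β : ℝ) - Fintype.card B)) :=
              Real.rpow_le_rpow (by positivity) hbase hexp0
          _ ≤ ((Fintype.card β * X : ℕ) : ℝ) ^ ((Fintype.card β : ℕ) : ℝ) :=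
              Real.rpow_le_rpow_of_exponent_le (by exact_mod_cast hNX) hexp
          _ = _ := Real.rpow_natCast _ _
      have h2 : ‖t j‖ ≤ ((Fintype.card β * X : ℕ) : ℝ) ^ (Fintype.card β) :=
        (norm_le_pi_norm t j).trans h1
      rw [Int.norm_eq_abs] at h2
      exact_mod_cast h2

end Pool.Helper30.Hall
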