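import Mathlib
import Pool.Agent.Helper30.Hall.Div
import Pool.Agent.Helper30.Hall.Siegel

/-! The degenerate arcs: if `p(e) u_e = q(e) v_e` for all `e ∈ S`, then `S` is small. -/

namespace Pool.Helper30.Hall

open Finset Polynomial

/-- The auxiliary polynomial `F_X(Q(X), P(X))`. -/
noncomputable def MM (a b c : ℤ) (P Q : ℤ[X]) : ℤ[X] :=
  C a * Q ^ 3 + C b * Q ^ 2 * P + C c * Q * P ^ 2 + X * P ^ 3

theorem MM_eval (a b c : ℤ) (P Q : ℤ[X]) (e : ℤ) :
    (MM a b c P Q).eval e =
      a * (Q.eval e) ^ 3 + b * (Q.eval e) ^ 2 * (P.eval e) + c * (Q.eval e) * (P.eval e) ^ 2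
        + e * (P.eval e) ^ 3 := by
  simp [MM]

theorem MM_natDegree {a b c : ℤ} (ha : a ≠ 0) {P Q : ℤ[X]} (hP : P ≠ 0) {j : ℕ}
    (hPj : P.natDegree ≤ j) (hQj : Q.natDegree ≤ j) :
    1 ≤ (MM a b c P Q).natDegree ∧ (MM a b c P Q).natDegree ≤ 3 * j + 1 := by
  have hXP : (X * P ^ 3 : ℤ[X]).natDegree = 3 * P.natDegree + 1 := by
    rw [natDegree_mul X_ne_zero (pow_ne_zero _ hP), natDegree_X, natDegree_pow]; ring
  have h1 : (C a * Q ^ 3 : ℤ[X]).natDegree ≤ 3 * Q.natDegree :=
    (natDegree_C_mul_le _ _).trans natDegree_pow_le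
  have h2 : (C b * Q ^ 2 * P : ℤ[X]).natDegree ≤ 2 * Q.natDegree + P.natDegree := by
    refine natDegree_mul_le.trans ?_
    have := (natDegree_C_mul_le b (Q ^ 2)).trans (natDegree_pow_le (p := Q) (n := 2))
    omega
  have h3 : (C c * Q * P ^ 2 : ℤ[X]).natDegree ≤ Q.natDegree + 2 * P.natDegree := by
    refine natDegree_mul_le.trans ?_
    have := natDegree_C_mul_le c Q
    have := natDegree_pow_le (p := P) (n := 2)
    omega
  rcases le_or_gt Q.natDegree P.natDegree with hle | hlt
  · -- the last term dominates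
    have h4 : (C a * Q ^ 3 + C b * Q ^ 2 * P + C c * Q * P ^ 2 : ℤ[X]).natDegree ≤
        3 * P.natDegree := by
      refine (natDegree_add_le _ _).trans (max_le ((natDegree_add_le _ _).trans (max_le ?_ ?_)) ?_)
      · omega
      · omega
      · omega
    have h5 : (MM a b c P Q).natDegree = 3 * P.natDegree + 1 := by
      rw [MM, natDegree_add_eq_right_of_natDegree_lt (by rw [hXP]; omega), hXP]
    rw [h5]
    omega
  · have hQ : Q ≠ 0 := by
      rintro rfl
      simp at hlt
    have h1' : (C a * Q ^ 3 : ℤ[X]).natDegree = 3 * Q.natDegree := by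
      rw [natDegree_C_mul ha, natDegree_pow]
    have h5 : (MM a b c P Q).natDegree = 3 * Q.natDegree := by
      have e1 : (C a * Q ^ 3 + C b * Q ^ 2 * P : ℤ[X]).natDegree = 3 * Q.natDegree := by
        rw [natDegree_add_eq_left_of_natDegree_lt (by rw [h1']; omega), h1']
      have e2 : (C a * Q ^ 3 + C b * Q ^ 2 * P + C c * Q * P ^ 2 : ℤ[X]).natDegree
          = 3 * Q.natDegree := by
        rw [natDegree_add_eq_left_of_natDegree_lt (by rw [e1]; omega), e1]
      rw [MM, natDegree_add_eq_left_of_natDegree_lt (by rw [e2, hXP]; omega), e2]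
    rw [h5]
    omega

/-- number of points where `M` takes a given value -/
theorem card_eval_eq_le (S : Finset ℤ) (M : ℤ[X]) (hM : 1 ≤ M.natDegree) (g : ℤ) :
    (S.filter (fun e => M.eval e = g)).card ≤ M.natDegree := by
  have hne : M - C g ≠ 0 := by
    intro h
    have : M.natDegree = 0 := by
      rw [sub_eq_zero.1 h, natDegree_C]
    omega
  have hdeg : (M - C g).natDegree = M.natDegree := natDegree_sub_C
  calc (S.filter (fun e => M.eval e = g)).card ≤ (M - C g).roots.toFinset.card := by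
        apply Finset.card_le_card
        intro e he
        rw [Finset.mem_filter] at he
        rw [Multiset.mem_toFinset, mem_roots hne, IsRoot.def, eval_sub, eval_C, he.2, sub_self]
    _ ≤ Multiset.card (M - C g).roots := Multiset.toFinset_card_le _
    _ ≤ (M - C g).natDegree := card_roots' _
    _ = M.natDegree := hdeg

/-- number of zeros in a finite set -/
theorem card_eval_zero_le (S : Finset ℤ) (M : ℚ[X]) (hM : M ≠ 0) :
    (S.filter (fun e : ℤ => M.eval (e : ℚ) = 0)).card ≤ M.natDegree := by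
  calc (S.filter (fun e : ℤ => M.eval (e : ℚ) = 0)).card
      = ((S.filter (fun e : ℤ => M.eval (e : ℚ) = 0)).image (fun e : ℤ => (e : ℚ))).card := by
        rw [Finset.card_image_of_injective _ Int.cast_injective]
    _ ≤ M.roots.toFinset.card := by
        apply Finset.card_le_card
        intro e he
        rw [Finset.mem_image] at he
        obtain ⟨e', he', rfl⟩ := he
        rw [Finset.mem_filter] at he'
        rw [Multiset.mem_toFinset, mem_roots hM, IsRoot.def]
        exact he'.2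
    _ ≤ Multiset.card M.roots := Multiset.toFinset_card_le _
    _ ≤ M.natDegree := card_roots' _

/-- The point data. -/
def IsPt (Y : ℕ) (a b c e u v : ℤ) : Prop :=
  |e| ≤ Y ∧ |u| ≤ Y ∧ |v| ≤ Y ∧ v ≠ 0 ∧
    a * u ^ 3 + b * u ^ 2 * v + c * u * v ^ 2 + e * v ^ 3 = 1

theorem IsPt.coprime {Y : ℕ} {a b c e u v : ℤ} (h : IsPt Y a b c e u v) : IsCoprime u v := by
  refine ⟨a * u ^ 2 + b * u * v + c * v ^ 2, e * v ^ 2, ?_⟩
  have := h.2.2.2.2
  linear_combination this

/-- coprime case -/
theorem coprime_case (j : ℕ) (H : ℕ) (hH : 1 ≤ H) (Y : ℕ) (a b c : ℤ) (ha : a ≠ 0)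
    (S : Finset ℤ) (U V : ℤ → ℤ) (hS : ∀ e ∈ S, IsPt Y a b c e (U e) (V e))
    (P Q : ℤ[X]) (hP : P ≠ 0) (hPj : P.natDegree ≤ j) (hQj : Q.natDegree ≤ j)
    (hPH : ∀ i, |P.coeff i| ≤ H) (hQH : ∀ i, |Q.coeff i| ≤ H)
    (hrel : ∀ e ∈ S, P.eval e * U e = Q.eval e * V e)
    (hcop : IsCoprime (P.map (Int.castRingHom ℚ)) (Q.map (Int.castRingHom ℚ))) :
    ∃ R : ℕ, R ≠ 0 ∧ R ≤ (2 * j + 1).factorial * H ^ (2 * j + 1) ∧
      S.card ≤ (3 * j + 1) * (2 * R.divisors.card) := by
  classical
  set m := P.natDegree with hm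
  set n := Q.natDegree with hn
  have hinj : Function.Injective (Int.castRingHom ℚ) := Int.cast_injective
  -- the resultant
  set r : ℤ := resultant P Q m (n + 1) with hr
  have hr0 : r ≠ 0 := by
    intro h0
    have h1 : r = P.coeff m ^ 1 * resultant P Q m n := by
      rw [hr, resultant_add_right_deg _ _ _ _ 1 hn.ge]
    have h2 : resultant P Q m n = 0 := by
      rw [h0, pow_one] at h1
      rcases mul_eq_zero.1 h1.symm with h | h
      · exact absurd (leadingCoeff_eq_zero.1 h) hP
      · exact h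
    have h3 : resultant (P.map (Int.castRingHom ℚ)) (Q.map (Int.castRingHom ℚ)) = 0 := by
      rw [resultant_map_map, natDegree_map_eq_of_injective hinj, natDegree_map_eq_of_injective hinj,
        ← hm, ← hn, h2, map_zero]
    rw [resultant_eq_zero_iff] at h3
    exact h3.2 hcop
  have hrle : |r| ≤ (2 * j + 1).factorial * (H : ℤ) ^ (2 * j + 1) := by
    have hent : ∀ i k, |sylvester P Q m (n + 1) i k| ≤ (H : ℤ) := by
      intro i k
      unfold sylvester
      induction k using Fin.addCases with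
      | left k =>
        simp only [Matrix.of_apply, Fin.addCases_left]
        split_ifs
        · exact hQH _
        · simp
      | right k =>
        simp only [Matrix.of_apply, Fin.addCases_right]
        split_ifs
        · exact hPH _
        · simp
    have h1 := Matrix.det_le (A := sylvester P Q m (n + 1)) (abv := AbsoluteValue.abs) (x := (H : ℤ))
      hent
    have h2 : |r| ≤ (Fintype.card (Fin (m + (n + 1)))).factorial • (H : ℤ) ^
        (Fintype.card (Fin (m + (n + 1)))) := h1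
    rw [Fintype.card_fin, nsmul_eq_mul] at h2
    refine h2.trans ?_
    have h3 : (m + (n + 1)).factorial ≤ (2 * j + 1).factorial := Nat.factorial_le (by omega)
    have h4 : (H : ℤ) ^ (m + (n + 1)) ≤ (H : ℤ) ^ (2 * j + 1) :=
      pow_le_pow_right₀ (by exact_mod_cast hH) (by omega)
    have h5 : (((m + (n + 1)).factorial : ℕ) : ℤ) ≤ ((2 * j + 1).factorial : ℕ) := by
      exact_mod_cast h3
    gcongr
  obtain ⟨A, B, -, -, hAB⟩ := exists_mul_add_mul_eq_C_resultant (m := m) (n := n + 1) P Q hm.ge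
    (by omega) (Or.inr (Nat.succ_ne_zero _))
  -- the multipliers
  have hg : ∀ e ∈ S, ∃ g : ℤ, P.eval e = g * V e ∧ Q.eval e = g * U e := by
    intro e he
    have hpt := hS e he
    have hcop' : IsCoprime (V e) (U e) := hpt.coprime.symm
    have h1 : V e ∣ P.eval e * U e := ⟨Q.eval e, by rw [hrel e he]; ring⟩
    obtain ⟨g, hg⟩ := hcop'.dvd_of_dvd_mul_right h1
    refine ⟨g, by rw [hg]; ring, ?_⟩
    have hV : V e ≠ 0 := hpt.2.2.2.1
    have h2 := hrel e he
    rw [hg] at h2
    apply mul_right_cancel₀ hV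
    linarith
  choose! G hG1 hG2 using hg
  have hGr : ∀ e ∈ S, G e ∣ r := by
    intro e he
    have h1 := congrArg (fun p => p.eval e) hAB
    simp only [eval_add, eval_mul, eval_C] at h1
    rw [hG1 e he, hG2 e he] at h1
    rw [← hr] at h1
    exact ⟨V e * A.eval e + U e * B.eval e, by rw [← h1]; ring⟩
  have hM : ∀ e ∈ S, (MM a b c P Q).eval e = (G e) ^ 3 := by
    intro e he
    rw [MM_eval, hG1 e he, hG2 e he]
    have := (hS e he).2.2.2.2
    linear_combination (G e) ^ 3 * this
  obtain ⟨hd1, hd2⟩ := MM_natDegree (b := b) (c := c) ha hP hPj hQj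
  refine ⟨r.natAbs, Int.natAbs_ne_zero.2 hr0, ?_, ?_⟩
  · have : ((r.natAbs : ℕ) : ℤ) = |r| := Int.natCast_natAbs r
    have h := this.le.trans hrle
    exact_mod_cast h
  · let T : Finset ℤ := (r.natAbs.divisors.image (fun d : ℕ => (d : ℤ))) ∪
      (r.natAbs.divisors.image (fun d : ℕ => -(d : ℤ)))
    have hT : T.card ≤ 2 * r.natAbs.divisors.card := by
      calc T.card ≤ _ + _ := Finset.card_union_le _ _
        _ ≤ r.natAbs.divisors.card + r.natAbs.divisors.card :=
            Nat.add_le_add Finset.card_image_le Finset.card_image_le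
        _ = _ := by ring
    have hmaps : ∀ e ∈ S, G e ∈ T := by
      intro e he
      have h1 : (G e).natAbs ∈ r.natAbs.divisors := by
        rw [Nat.mem_divisors]
        exact ⟨Int.natAbs_dvd_natAbs.2 (hGr e he), Int.natAbs_ne_zero.2 hr0⟩
      rw [Finset.mem_union, Finset.mem_image, Finset.mem_image]
      rcases Int.natAbs_eq (G e) with h | h
      · left; exact ⟨_, h1, h.symm⟩
      · right; exact ⟨_, h1, h.symm⟩
    have hfib : ∀ g ∈ T, (S.filter (fun e => G e = g)).card ≤ 3 * j + 1 := by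
      intro g _
      calc (S.filter (fun e => G e = g)).card
          ≤ (S.filter (fun e => (MM a b c P Q).eval e = g ^ 3)).card := by
            apply Finset.card_le_card
            intro e he
            rw [Finset.mem_filter] at he ⊢
            exact ⟨he.1, by rw [hM e he.1, he.2]⟩
        _ ≤ (MM a b c P Q).natDegree := card_eval_eq_le _ _ hd1 _
        _ ≤ 3 * j + 1 := hd2
    have := Finset.card_le_mul_card_image_of_maps_to hmaps (3 * j + 1) hfib
    exact this.trans (Nat.mul_le_mul_left _ hT)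

/-- from a rational relation to an integral one of bounded height -/
theorem siegel_poly (j : ℕ) (Y : ℕ) (hY : 1 ≤ Y) (a b c : ℤ)
    (S : Finset ℤ) (U V : ℤ → ℤ) (hS : ∀ e ∈ S, IsPt Y a b c e (U e) (V e))
    (p q : ℚ[X]) (hpq : ¬(p = 0 ∧ q = 0)) (hp : p.natDegree ≤ j) (hq : q.natDegree ≤ j)
    (hrel : ∀ e ∈ S, p.eval (e : ℚ) * U e = q.eval (e : ℚ) * V e) :
    ∃ P Q : ℤ[X], ¬(P = 0 ∧ Q = 0) ∧ P.natDegree ≤ j ∧ Q.natDegree ≤ j ∧
      (∀ i, |P.coeff i| ≤ (((2 * (j + 1)) * Y ^ (j + 1)) ^ (2 * (j + 1)) : ℕ)) ∧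
      (∀ i, |Q.coeff i| ≤ (((2 * (j + 1)) * Y ^ (j + 1)) ^ (2 * (j + 1)) : ℕ)) ∧
      (∀ e ∈ S, P.eval e * U e = Q.eval e * V e) := by
  classical
  let β := Fin (j + 1) ⊕ Fin (j + 1)
  let row : ℤ → (β → ℤ) := fun e => Sum.elim (fun i => e ^ (i : ℕ) * U e) (fun i => -(e ^ (i : ℕ) * V e))
  have hcard : Fintype.card β = 2 * (j + 1) := by
    simp only [β, Fintype.card_sum, Fintype.card_fin]; ring
  have hY1 : (1 : ℤ) ≤ Y := by exact_mod_cast hY
  have hentry : ∀ r ∈ S.image row, ∀ k, |r k| ≤ ((Y ^ (j + 1) : ℕ) : ℤ) := by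
    intro r hr k
    rw [Finset.mem_image] at hr
    obtain ⟨e, he, rfl⟩ := hr
    obtain ⟨he1, hu, hv, -, -⟩ := hS e he
    have hpow : ∀ i : Fin (j + 1), |e| ^ (i : ℕ) ≤ (Y : ℤ) ^ j := by
      intro i
      calc |e| ^ (i : ℕ) ≤ (Y : ℤ) ^ (i : ℕ) := pow_le_pow_left₀ (abs_nonneg _) he1 _
        _ ≤ (Y : ℤ) ^ j := pow_le_pow_right₀ hY1 (by omega)
    push_cast
    rcases k with k | k
    · simp only [row, Sum.elim_inl, abs_mul, abs_pow, pow_succ]
      exact mul_le_mul (hpow k) hu (abs_nonneg _) (by positivity)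
    · simp only [row, Sum.elim_inr, abs_neg, abs_mul, abs_pow, pow_succ]
      exact mul_le_mul (hpow k) hv (abs_nonneg _) (by positivity)
  let cc : β → ℚ := Sum.elim (fun i => p.coeff i) (fun i => q.coeff i)
  have hcc : cc ≠ 0 := by
    intro h
    apply hpq
    constructor
    · ext i
      by_cases hi : i < j + 1
      · have := congrFun h (Sum.inl ⟨i, hi⟩)
        simpa [cc] using this
      · rw [coeff_eq_zero_of_natDegree_lt (by omega), coeff_zero]
    · ext i
      by_cases hi : i < j + 1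
      · have := congrFun h (Sum.inr ⟨i, hi⟩)
        simpa [cc] using this
      · rw [coeff_eq_zero_of_natDegree_lt (by omega), coeff_zero]
  have hccR : ∀ r ∈ S.image row, ∑ k, (r k : ℚ) * cc k = 0 := by
    intro r hr
    rw [Finset.mem_image] at hr
    obtain ⟨e, he, rfl⟩ := hr
    have h1 := hrel e he
    rw [eval_eq_sum_range' (Nat.lt_succ_of_le hp), eval_eq_sum_range' (Nat.lt_succ_of_le hq),
      ← Fin.sum_univ_eq_sum_range (fun i => p.coeff i * (e : ℚ) ^ i),
      ← Fin.sum_univ_eq_sum_range (fun i => q.coeff i * (e : ℚ) ^ i)] at h1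
    simp only [row, cc, β, Fintype.sum_sum_type, Sum.elim_inl, Sum.elim_inr]
    push_cast
    rw [Finset.sum_mul, Finset.sum_mul] at h1
    have h2 : (∑ x : Fin (j + 1), (e : ℚ) ^ (x : ℕ) * (U e : ℚ) * p.coeff x) =
        ∑ x : Fin (j + 1), p.coeff x * (e : ℚ) ^ (x : ℕ) * (U e : ℚ) :=
      Finset.sum_congr rfl (fun x _ => by ring)
    have h3 : (∑ x : Fin (j + 1), -((e : ℚ) ^ (x : ℕ) * (V e : ℚ)) * q.coeff x) =
        - ∑ x : Fin (j + 1), q.coeff x * (e : ℚ) ^ (x : ℕ) * (V e : ℚ) := by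
      rw [← Finset.sum_neg_distrib]
      exact Finset.sum_congr rfl (fun x _ => by ring)
    rw [h2, h3]
    simp only [Nat.succ_eq_add_one] at h1
    linarith
  obtain ⟨t, ht0, htR, htb⟩ := siegel_rows (S.image row) (Y ^ (j + 1)) (Nat.one_le_pow _ _ hY)
    hentry cc hcc hccR
  rw [hcard] at htb
  let P : ℤ[X] := ∑ i : Fin (j + 1), C (t (Sum.inl i)) * X ^ (i : ℕ)
  let Q : ℤ[X] := ∑ i : Fin (j + 1), C (t (Sum.inr i)) * X ^ (i : ℕ)
  have hcoef : ∀ (f : Fin (j + 1) → ℤ) (i : ℕ), (∑ k : Fin (j + 1), C (f k) * X ^ (k : ℕ) : ℤ[X]).coeff i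
      = if h : i < j + 1 then f ⟨i, h⟩ else 0 := by
    intro f i
    rw [finsetSum_coeff]
    simp only [coeff_C_mul, coeff_X_pow]
    split_ifs with h
    · rw [Finset.sum_eq_single ⟨i, h⟩]
      · simp
      · intro k _ hk
        rw [if_neg, mul_zero]
        intro h2
        apply hk
        ext
        exact h2.symm
      · intro h2; exact absurd (Finset.mem_univ _) h2
    · apply Finset.sum_eq_zero
      intro k _
      rw [if_neg, mul_zero]
      intro h2
      apply h
      rw [h2]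
      exact k.2
  have hdeg : ∀ (f : Fin (j + 1) → ℤ), (∑ k : Fin (j + 1), C (f k) * X ^ (k : ℕ) : ℤ[X]).natDegree ≤ j := by
    intro f
    apply natDegree_sum_le_of_forall_le
    intro k _
    exact (natDegree_C_mul_X_pow_le _ _).trans (by omega)
  have hbd : ∀ (k : β), |t k| ≤ (((2 * (j + 1)) * Y ^ (j + 1)) ^ (2 * (j + 1)) : ℕ) := by
    intro k
    have := htb k
    push_cast at this ⊢
    exact this
  refine ⟨P, Q, ?_, hdeg _, hdeg _, ?_, ?_, ?_⟩
  · rintro ⟨hP, hQ⟩
    apply ht0
    funext k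
    rcases k with k | k
    · have h := congrArg (fun p => p.coeff (k : ℕ)) hP
      simp only [P, hcoef, coeff_zero] at h
      rw [dif_pos k.2] at h
      exact h
    · have h := congrArg (fun p => p.coeff (k : ℕ)) hQ
      simp only [Q, hcoef, coeff_zero] at h
      rw [dif_pos k.2] at h
      exact h
  · intro i
    simp only [P, hcoef]
    split_ifs
    · exact hbd _
    · simp only [abs_zero]; positivity
  · intro i
    simp only [Q, hcoef]
    split_ifs
    · exact hbd _
    · simp only [abs_zero]; positivity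
  · intro e he
    have h1 := htR (row e) (Finset.mem_image_of_mem _ he)
    simp only [row, β, Fintype.sum_sum_type, Sum.elim_inl, Sum.elim_inr] at h1
    simp only [P, Q, eval_finsetSum, eval_mul, eval_C, eval_pow, eval_X]
    rw [Finset.sum_mul, Finset.sum_mul]
    have h2 : (∑ x : Fin (j + 1), e ^ (x : ℕ) * U e * t (Sum.inl x)) =
        ∑ x : Fin (j + 1), t (Sum.inl x) * e ^ (x : ℕ) * U e :=
      Finset.sum_congr rfl (fun x _ => by ring)
    have h3 : (∑ x : Fin (j + 1), -(e ^ (x : ℕ) * V e) * t (Sum.inr x)) =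
        - ∑ x : Fin (j + 1), t (Sum.inr x) * e ^ (x : ℕ) * V e := by
      rw [← Finset.sum_neg_distrib]
      exact Finset.sum_congr rfl (fun x _ => by ring)
    rw [h2, h3] at h1
    linarith


/-- The statement of the degenerate bound. -/
def Deg (j c0 E : ℕ) : Prop := ∀ (Y : ℕ), 1 ≤ Y → ∀ (a b c : ℤ), a ≠ 0 →
    ∀ (S : Finset ℤ) (U V : ℤ → ℤ), (∀ e ∈ S, IsPt Y a b c e (U e) (V e)) →
    (∃ p q : ℚ[X], ¬(p = 0 ∧ q = 0) ∧ p.natDegree ≤ j ∧ q.natDegree ≤ j ∧
      ∀ e ∈ S, p.eval (e : ℚ) * U e = q.eval (e : ℚ) * V e) →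
    ∃ R : ℕ, R ≠ 0 ∧ R ≤ c0 * Y ^ E ∧ S.card ≤ c0 * R.divisors.card + c0

theorem degenerate_step (j c1 E1 : ℕ) (h : j = 0 ∨ ∃ i, j = i + 1 ∧ Deg i c1 E1) :
    ∃ c0 E : ℕ, Deg j c0 E := by
  classical
  have hinj : Function.Injective (Int.castRingHom ℚ) := Int.cast_injective
  set K : ℕ := (2 * j + 1).factorial * ((2 * (j + 1)) ^ (2 * (j + 1))) ^ (2 * j + 1) with hK
  set E0 : ℕ := ((j + 1) * (2 * (j + 1))) * (2 * j + 1) with hE0
  refine ⟨K + 2 * (3 * j + 1) + c1 + j, E0 + E1, ?_⟩
  rintro Y hY a b c ha S U V hS ⟨p, q, hpq, hp, hq, hrel⟩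
  obtain ⟨P, Q, hPQ, hPj, hQj, hPH, hQH, hrel'⟩ := siegel_poly j Y hY a b c S U V hS p q hpq hp hq hrel
  have hYE : 1 ≤ Y ^ (E0 + E1) := Nat.one_le_pow _ _ hY
  by_cases hP : P = 0
  · -- `Q` vanishes on `S`
    have hQ : Q ≠ 0 := fun h => hPQ ⟨hP, h⟩
    have hQ' : Q.map (Int.castRingHom ℚ) ≠ 0 := (Polynomial.map_ne_zero_iff hinj).2 hQ
    have hS0 : S.card ≤ j := by
      calc S.card ≤ (S.filter (fun e : ℤ => (Q.map (Int.castRingHom ℚ)).eval (e : ℚ) = 0)).card := by
            apply Finset.card_le_card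
            intro e he
            rw [Finset.mem_filter]
            refine ⟨he, ?_⟩
            have h1 := hrel' e he
            rw [hP, eval_zero, zero_mul] at h1
            have h2 : Q.eval e = 0 := by
              rcases mul_eq_zero.1 h1.symm with h | h
              · exact h
              · exact absurd h (hS e he).2.2.2.1
            have h3 : (Q.map (Int.castRingHom ℚ)).eval ((Int.castRingHom ℚ) e) = (Int.castRingHom ℚ) (Q.eval e) :=
              eval_map_apply _ _
            rw [h2, map_zero] at h3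
            exact h3
        _ ≤ (Q.map (Int.castRingHom ℚ)).natDegree := card_eval_zero_le _ _ hQ'
        _ ≤ j := (natDegree_map_le).trans hQj
    refine ⟨1, one_ne_zero, ?_, ?_⟩
    · have : 1 ≤ K + 2 * (3 * j + 1) + c1 + j := by omega
      exact Nat.one_le_iff_ne_zero.2 (Nat.mul_ne_zero (by omega) (by omega))
    · simp only [Nat.divisors_one, Finset.card_singleton, mul_one]
      omega
  by_cases hcop : IsCoprime (P.map (Int.castRingHom ℚ)) (Q.map (Int.castRingHom ℚ))
  · obtain ⟨R, hR0, hR, hSR⟩ := coprime_case j _ (Nat.one_le_pow _ _ (by positivity)) Y a b c ha S U V hS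
      P Q hP hPj hQj hPH hQH hrel' hcop
    refine ⟨R, hR0, hR.trans ?_, hSR.trans ?_⟩
    · have e1 : ((2 * (j + 1) * Y ^ (j + 1)) ^ (2 * (j + 1))) ^ (2 * j + 1) =
        ((2 * (j + 1)) ^ (2 * (j + 1))) ^ (2 * j + 1) * Y ^ E0 := by
        rw [mul_pow, mul_pow, ← pow_mul Y, ← pow_mul Y]
      rw [e1, ← mul_assoc, ← hK]
      have h1 : Y ^ E0 ≤ Y ^ (E0 + E1) := Nat.pow_le_pow_right hY (by omega)
      exact Nat.mul_le_mul (by omega) h1
    · calc (3 * j + 1) * (2 * R.divisors.card) = (2 * (3 * j + 1)) * R.divisors.card := by ring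
        _ ≤ (K + 2 * (3 * j + 1) + c1 + j) * R.divisors.card := Nat.mul_le_mul_right _ (by omega)
        _ ≤ _ := Nat.le_add_right _ _
  · -- a common factor
    set P' := P.map (Int.castRingHom ℚ) with hP'
    set Q' := Q.map (Int.castRingHom ℚ) with hQ'
    have hP'0 : P' ≠ 0 := (Polynomial.map_ne_zero_iff hinj).2 hP
    set g := EuclideanDomain.gcd P' Q' with hg
    obtain ⟨p1, hp1⟩ : g ∣ P' := EuclideanDomain.gcd_dvd_left _ _
    obtain ⟨q1, hq1⟩ : g ∣ Q' := EuclideanDomain.gcd_dvd_right _ _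
    have hg0 : g ≠ 0 := by
      intro h0
      rw [h0, zero_mul] at hp1
      exact hP'0 hp1
    have hp10 : p1 ≠ 0 := by
      rintro rfl
      rw [mul_zero] at hp1
      exact hP'0 hp1
    have hgdeg : 1 ≤ g.natDegree := by
      by_contra hlt
      have h0 : g.natDegree = 0 := by omega
      apply hcop
      rw [← EuclideanDomain.gcd_isUnit_iff, ← hg, eq_C_of_natDegree_eq_zero h0, isUnit_C,
        isUnit_iff_ne_zero]
      intro h1
      apply hg0
      rw [eq_C_of_natDegree_eq_zero h0, h1, C_0]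
    have hP'j : P'.natDegree ≤ j := natDegree_map_le.trans hPj
    have hQ'j : Q'.natDegree ≤ j := natDegree_map_le.trans hQj
    have hd1 : P'.natDegree = g.natDegree + p1.natDegree := by
      rw [hp1, natDegree_mul hg0 hp10]
    have hd2 : q1.natDegree + 1 ≤ j ∨ q1 = 0 := by
      by_cases hq10 : q1 = 0
      · right; exact hq10
      · left
        have : Q'.natDegree = g.natDegree + q1.natDegree := by
          rw [hq1, natDegree_mul hg0 hq10]
        omega
    rcases h with hj0 | ⟨i, hji, hi⟩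
    · omega
    · have hrelQ : ∀ e ∈ S, P'.eval (e : ℚ) * U e = Q'.eval (e : ℚ) * V e := by
        intro e he
        have h1 := hrel' e he
        have h2 : P'.eval ((Int.castRingHom ℚ) e) = (Int.castRingHom ℚ) (P.eval e) := eval_map_apply _ _
        have h3 : Q'.eval ((Int.castRingHom ℚ) e) = (Int.castRingHom ℚ) (Q.eval e) := eval_map_apply _ _
        simp only [eq_intCast] at h2 h3
        rw [h2, h3]
        exact_mod_cast h1
      let S' := S.filter (fun e : ℤ => ¬ g.eval (e : ℚ) = 0)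
      obtain ⟨R, hR0, hR, hSR⟩ := hi Y hY a b c ha S' U V
        (fun e he => hS e (Finset.mem_filter.1 he).1)
        ⟨p1, q1, fun h => hp10 h.1, by omega, by
          rcases hd2 with h | h
          · omega
          · rw [h]; simp, by
          intro e he
          have h1 := hrelQ e (Finset.mem_filter.1 he).1
          have h2 := (Finset.mem_filter.1 he).2
          rw [hp1, hq1, eval_mul, eval_mul] at h1
          apply mul_left_cancel₀ h2
          linarith⟩
      refine ⟨R, hR0, hR.trans ?_, ?_⟩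
      · have h1 : Y ^ E1 ≤ Y ^ (E0 + E1) := Nat.pow_le_pow_right hY (by omega)
        exact Nat.mul_le_mul (by omega) h1
      · have h1 : (S.filter (fun e : ℤ => g.eval (e : ℚ) = 0)).card ≤ j := by
          refine (card_eval_zero_le S g hg0).trans ?_
          omega
        have h2 := Finset.card_filter_add_card_filter_not (s := S) (fun e : ℤ => g.eval (e : ℚ) = 0)
        calc S.card = (S.filter (fun e : ℤ => g.eval (e : ℚ) = 0)).card + S'.card := h2.symm
          _ ≤ j + (c1 * R.divisors.card + c1) := Nat.add_le_add h1 hSR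
          _ ≤ _ := by
              have : c1 * R.divisors.card ≤ (K + 2 * (3 * j + 1) + c1 + j) * R.divisors.card :=
                Nat.mul_le_mul_right _ (by omega)
              omega

/-- The degenerate arcs. -/
theorem degenerate (j : ℕ) : ∃ c0 E : ℕ, Deg j c0 E := by
  induction j with
  | zero => exact degenerate_step 0 0 0 (Or.inl rfl)
  | succ j ih =>
    obtain ⟨c1, E1, h⟩ := ih
    exact degenerate_step (j + 1) c1 E1 (Or.inr ⟨j, rfl, h⟩)

end Pool.Helper30.Hall
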