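import Mathlib

/-! The determinant estimate. -/

namespace Pool.Helper30.Hall

open Finset

theorem two_mul_sum_sub (m : ℕ) : 2 * ∑ k ∈ range m, (m - k) = m * (m + 1) := by
  induction m with
  | zero => simp
  | succ m ih =>
    rw [Finset.sum_range_succ']
    have h : ∀ k, m + 1 - (k + 1) = m - k := fun k => by omega
    simp only [h]
    rw [mul_add, ih]
    simp only [Nat.sub_zero]
    ring

theorem two_mul_sum_sub' (n r : ℕ) : 2 * ∑ k ∈ range (n + r), (n + r - (k + n)) = r * (r + 1) := by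
  have h : ∀ k, n + r - (k + n) = r - k := fun k => by omega
  simp only [h]
  rw [add_comm n r, Finset.sum_range_add, mul_add, two_mul_sum_sub]
  have : ∑ x ∈ range n, (r - (r + x)) = 0 := Finset.sum_eq_zero (fun x _ => by omega)
  rw [this]; ring

/-- Total weight of `2n` distinct monomials, where `(k,l)` has weight `k + n l`. -/
theorem weight_bound (n : ℕ) {ι : Type*} [Fintype ι] [DecidableEq ι]
    (hι : Fintype.card ι = 2 * n) (k : ι → ℕ × ℕ) (hk : Function.Injective k) :
    7 * n ^ 2 ≤ 4 * (∑ i, ((k i).1 + n * (k i).2)) + 4 * n := by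
  classical
  set m := (3 * n) / 2 with hm
  have hnm : n ≤ m := by omega
  have hm2 : m ≤ 2 * n := by omega
  obtain ⟨r, hr⟩ : ∃ r, m = n + r := ⟨m - n, by omega⟩
  set f : ℕ × ℕ → ℕ := fun x => m - (x.1 + n * x.2) with hf
  have h1 : 2 * n * m ≤ (∑ i, ((k i).1 + n * (k i).2)) + ∑ i, f (k i) := by
    rw [← Finset.sum_add_distrib]
    calc 2 * n * m = ∑ i : ι, m := by simp [hι]
      _ ≤ _ := Finset.sum_le_sum (fun i _ => by simp only [hf]; omega)
  have h2 : ∑ i, f (k i) ≤ ∑ x ∈ range m ×ˢ range 2, f x := by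
    calc ∑ i, f (k i) = ∑ x ∈ Finset.univ.image k, f x := by
          rw [Finset.sum_image (fun a _ b _ h => hk h)]
      _ ≤ ∑ x ∈ (Finset.univ.image k) ∪ (range m ×ˢ range 2), f x :=
          Finset.sum_le_sum_of_subset Finset.subset_union_left
      _ = ∑ x ∈ range m ×ˢ range 2, f x := by
          symm
          apply Finset.sum_subset Finset.subset_union_right
          intro x _ hx
          simp only [Finset.mem_product, Finset.mem_range, not_and_or, not_lt] at hx
          simp only [hf]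
          rcases hx with hx | hx
          · omega
          · have : n * 2 ≤ n * x.2 := Nat.mul_le_mul_left _ hx
            omega
  have h3 : 2 * ∑ x ∈ range m ×ˢ range 2, f x = m * (m + 1) + r * (r + 1) := by
    rw [Finset.sum_product_right]
    rw [Finset.sum_range_succ, Finset.sum_range_one, mul_add]
    simp only [hf, mul_zero, add_zero, mul_one]
    rw [two_mul_sum_sub]
    congr 1
    rw [hr]
    exact two_mul_sum_sub' n r
  have h4 : 4 * (2 * n * m) ≤ 4 * (∑ i, ((k i).1 + n * (k i).2)) + 2 * (m * (m + 1) + r * (r + 1)) := by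
    omega
  rcases Nat.even_or_odd' n with ⟨q, hq | hq⟩
  · have hmq : m = 3 * q := by omega
    have hrq : r = q := by omega
    rw [hmq, hrq, hq] at h4
    rw [hq]
    nlinarith
  · have hmq : m = 3 * q + 1 := by omega
    have hrq : r = q := by omega
    rw [hmq, hrq, hq] at h4
    rw [hq]
    nlinarith

theorem det_expand_bound {ι : Type*} [Fintype ι] [DecidableEq ι] (Mon : Finset (ℕ × ℕ))
    (C : ℕ × ℕ → ι → ℝ) (K : ℝ) (hK : 0 ≤ K) (hC : ∀ m ∈ Mon, ∀ j, |C m j| ≤ K) (x z : ι → ℝ) (lam : ℝ)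
    (hlam0 : 0 ≤ lam) (hlam1 : lam ≤ 1) (n W : ℕ) (hx : ∀ i, |x i| ≤ lam)
    (hz : ∀ i, |z i| ≤ lam ^ n)
    (hW : ∀ k : ι → ℕ × ℕ, Function.Injective k → W ≤ ∑ i, ((k i).1 + n * (k i).2)) :
    |(Matrix.of fun i j => ∑ m ∈ Mon, C m j * (x i ^ m.1 * z i ^ m.2)).det| ≤
      (Mon.card) ^ (Fintype.card ι) * ((Fintype.card ι).factorial * K ^ (Fintype.card ι)) * lam ^ W := by
  classical
  set D := (Matrix.detRowAlternating (R := ℝ) (n := ι)) with hD
  have h0 : (Matrix.of fun i j => ∑ m ∈ Mon, C m j * (x i ^ m.1 * z i ^ m.2)).det =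
      D (fun i => ∑ m ∈ Mon, (x i ^ m.1 * z i ^ m.2) • C m) := by
    change D _ = D _
    congr 1
    ext i j
    simp only [Matrix.of_apply, Finset.sum_apply, Pi.smul_apply, smul_eq_mul]
    exact Finset.sum_congr rfl (fun m _ => mul_comm _ _)
  have h1 : D (fun i => ∑ m ∈ Mon, (x i ^ m.1 * z i ^ m.2) • C m) =
      ∑ r ∈ Fintype.piFinset (fun _ : ι => Mon),
        (∏ i, (x i ^ (r i).1 * z i ^ (r i).2)) * D (fun i => C (r i)) := by
    have := D.toMultilinearMap.map_sum_finset (fun i (m : ℕ × ℕ) => (x i ^ m.1 * z i ^ m.2) • C m)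
      (fun _ => Mon)
    rw [AlternatingMap.coe_multilinearMap] at this
    rw [this]
    apply Finset.sum_congr rfl
    intro r _
    have h2 := D.toMultilinearMap.map_smul_univ (fun i => x i ^ (r i).1 * z i ^ (r i).2)
      (fun i => C (r i))
    rw [AlternatingMap.coe_multilinearMap] at h2
    rw [h2, smul_eq_mul]
  rw [h0, h1]
  have hterm : ∀ r ∈ Fintype.piFinset (fun _ : ι => Mon),
      |(∏ i, (x i ^ (r i).1 * z i ^ (r i).2)) * D (fun i => C (r i))| ≤
        ((Fintype.card ι).factorial * K ^ (Fintype.card ι)) * lam ^ W := by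
    intro r hr
    rw [Fintype.mem_piFinset] at hr
    by_cases hinj : Function.Injective r
    · rw [abs_mul, Finset.abs_prod, mul_comm]
      have h2 : |D (fun i => C (r i))| ≤ ((Fintype.card ι).factorial * K ^ (Fintype.card ι)) := by
        have := Matrix.det_le (A := (Matrix.of fun i j => C (r i) j)) (abv := AbsoluteValue.abs)
          (x := K) (fun i j => hC _ (hr i) j)
        rw [nsmul_eq_mul] at this
        exact this
      have h3 : ∏ i, |x i ^ (r i).1 * z i ^ (r i).2| ≤ lam ^ W := by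
        calc ∏ i, |x i ^ (r i).1 * z i ^ (r i).2| ≤ ∏ i, lam ^ ((r i).1 + n * (r i).2) := by
              apply Finset.prod_le_prod
              · intro i _; exact abs_nonneg _
              · intro i _
                rw [abs_mul, abs_pow, abs_pow, pow_add, pow_mul]
                have := pow_le_pow_left₀ (abs_nonneg _) (hx i) (r i).1
                have := pow_le_pow_left₀ (abs_nonneg _) (hz i) (r i).2
                gcongr
          _ = lam ^ (∑ i, ((r i).1 + n * (r i).2)) := by rw [Finset.prod_pow_eq_pow_sum]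
          _ ≤ lam ^ W := pow_le_pow_of_le_one hlam0 hlam1 (hW r hinj)
      have h4 : 0 ≤ ∏ i, |x i ^ (r i).1 * z i ^ (r i).2| :=
        Finset.prod_nonneg (fun i _ => abs_nonneg _)
      gcongr
    · have h2 : D (fun i => C (r i)) = 0 := by
        apply D.map_eq_zero_of_not_injective
        intro h
        apply hinj
        intro i j hij
        exact h (by simp only [hij])
      rw [h2, mul_zero, abs_zero]
      positivity
  calc |∑ r ∈ Fintype.piFinset (fun _ : ι => Mon),
        (∏ i, (x i ^ (r i).1 * z i ^ (r i).2)) * D (fun i => C (r i))|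
      ≤ ∑ r ∈ Fintype.piFinset (fun _ : ι => Mon),
        |(∏ i, (x i ^ (r i).1 * z i ^ (r i).2)) * D (fun i => C (r i))| :=
        Finset.abs_sum_le_sum_abs _ _
    _ ≤ ∑ r ∈ Fintype.piFinset (fun _ : ι => Mon),
        ((Fintype.card ι).factorial * K ^ (Fintype.card ι)) * lam ^ W := Finset.sum_le_sum hterm
    _ = _ := by
        rw [Finset.sum_const, Fintype.card_piFinset, Finset.prod_const, Finset.card_univ,
          nsmul_eq_mul]
        push_cast
        ring

/-- `f` is a polynomial in two variables with coefficients of total mass `≤ K` and degrees `< N`. -/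
def Rep (f : ℝ → ℝ → ℝ) (K : ℝ) (N : ℕ) : Prop :=
  ∃ c : ℕ × ℕ → ℝ, (∑ m ∈ range N ×ˢ range N, |c m|) ≤ K ∧
    ∀ h z, f h z = ∑ m ∈ range N ×ˢ range N, c m * (h ^ m.1 * z ^ m.2)

theorem Rep.mono {f : ℝ → ℝ → ℝ} {K K' : ℝ} {N N' : ℕ} (hf : Rep f K N) (hK : K ≤ K')
    (hN : N ≤ N') : Rep f K' N' := by
  obtain ⟨c, hc, hfc⟩ := hf
  have hsub : range N ×ˢ range N ⊆ range N' ×ˢ range N' :=
    Finset.product_subset_product (Finset.range_mono hN) (Finset.range_mono hN)
  refine ⟨fun m => if m ∈ range N ×ˢ range N then c m else 0, ?_, fun h z => ?_⟩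
  · refine le_trans (le_of_eq ?_) (hc.trans hK)
    rw [← Finset.sum_subset hsub]
    · exact Finset.sum_congr rfl (fun m hm => by simp only [if_pos hm])
    · intro m _ hm
      simp only [if_neg hm, abs_zero]
  · rw [hfc, ← Finset.sum_subset hsub]
    · exact Finset.sum_congr rfl (fun m hm => by simp only [if_pos hm])
    · intro m _ hm
      simp only [if_neg hm, zero_mul]

theorem Rep.mul {f g : ℝ → ℝ → ℝ} {K K' : ℝ} {N N' : ℕ} (hf : Rep f K N) (hg : Rep g K' N')
    : Rep (fun h z => f h z * g h z) (K * K') (N + N') := by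
  obtain ⟨c, hc, hfc⟩ := hf
  obtain ⟨d, hd, hgd⟩ := hg
  have hK' : 0 ≤ ∑ m ∈ range N' ×ˢ range N', |d m| := Finset.sum_nonneg (fun _ _ => abs_nonneg _)
  have hK : 0 ≤ ∑ m ∈ range N ×ˢ range N, |c m| := Finset.sum_nonneg (fun _ _ => abs_nonneg _)
  set S := (range N ×ˢ range N) ×ˢ (range N' ×ˢ range N') with hS
  set T := range (N + N') ×ˢ range (N + N') with hT
  set φ : (ℕ × ℕ) × (ℕ × ℕ) → ℕ × ℕ := fun p => p.1 + p.2 with hφ
  have hmaps : ∀ p ∈ S, φ p ∈ T := by
    intro p hp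
    simp only [hS, Finset.mem_product, Finset.mem_range] at hp
    simp only [hT, hφ, Finset.mem_product, Finset.mem_range, Prod.fst_add, Prod.snd_add]
    omega
  refine ⟨fun x => ∑ p ∈ S with φ p = x, c p.1 * d p.2, ?_, fun h z => ?_⟩
  · calc ∑ x ∈ T, |∑ p ∈ S with φ p = x, c p.1 * d p.2|
        ≤ ∑ x ∈ T, ∑ p ∈ S with φ p = x, |c p.1 * d p.2| :=
          Finset.sum_le_sum (fun x _ => Finset.abs_sum_le_sum_abs _ _)
      _ = ∑ p ∈ S, |c p.1 * d p.2| := Finset.sum_fiberwise_of_maps_to hmaps _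
      _ = (∑ m ∈ range N ×ˢ range N, |c m|) * (∑ m ∈ range N' ×ˢ range N', |d m|) := by
          rw [hS, Finset.sum_product, Finset.sum_mul_sum]
          simp only [abs_mul]
      _ ≤ K * K' := mul_le_mul hc hd hK' (hK.trans hc)
  · simp only [hfc, hgd]
    rw [Finset.sum_mul_sum, ← Finset.sum_product', ← hS]
    calc ∑ p ∈ S, c p.1 * (h ^ p.1.1 * z ^ p.1.2) * (d p.2 * (h ^ p.2.1 * z ^ p.2.2))
        = ∑ p ∈ S, c p.1 * d p.2 * (h ^ (φ p).1 * z ^ (φ p).2) := by
          apply Finset.sum_congr rfl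
          intro p _
          simp only [hφ, Prod.fst_add, Prod.snd_add, pow_add]
          ring
      _ = ∑ x ∈ T, ∑ p ∈ S with φ p = x, c p.1 * d p.2 * (h ^ (φ p).1 * z ^ (φ p).2) :=
          (Finset.sum_fiberwise_of_maps_to hmaps _).symm
      _ = _ := by
          apply Finset.sum_congr rfl
          intro x _
          rw [Finset.sum_mul]
          apply Finset.sum_congr rfl
          intro p hp
          rw [(Finset.mem_filter.1 hp).2]

theorem Rep.one : Rep (fun _ _ => 1) 1 1 := by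
  refine ⟨fun _ => 1, ?_, fun h z => ?_⟩ <;> simp

theorem Rep.pow {f : ℝ → ℝ → ℝ} {K : ℝ} {N : ℕ} (hf : Rep f K N) (i : ℕ) :
    Rep (fun h z => f h z ^ i) (K ^ i) (N * i + 1) := by
  induction i with
  | zero => simpa using Rep.one
  | succ i ih =>
    have := ih.mul hf
    simp only [← pow_succ] at this
    exact this.mono le_rfl (by ring_nf; omega)

theorem rep_e (g0 g1 g2 g3 : ℝ) (h0 : |g0| ≤ 6) (h1 : |g1| ≤ 6) (h2 : |g2| ≤ 6) (h3 : |g3| ≤ 6) :
    Rep (fun h z => z - g0 - g1 * h - g2 * h ^ 2 - g3 * h ^ 3) 25 4 := by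
  refine ⟨fun m => if m = (0, 1) then 1 else if m = (0, 0) then -g0 else if m = (1, 0) then -g1
    else if m = (2, 0) then -g2 else if m = (3, 0) then -g3 else 0, ?_, fun h z => ?_⟩
  · simp [Finset.sum_product, Finset.sum_range_succ]
    linarith
  · simp [Finset.sum_product, Finset.sum_range_succ]
    ring

theorem rep_theta (x0 : ℝ) (h0 : |x0| ≤ 1) : Rep (fun h _ => x0 + h) 2 2 := by
  refine ⟨fun m => if m = (0, 0) then x0 else if m = (1, 0) then 1 else 0, ?_, fun h z => ?_⟩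
  · simp [Finset.sum_product, Finset.sum_range_succ]
    linarith
  · simp [Finset.sum_product, Finset.sum_range_succ]

/-- The normalised determinant estimate. -/
theorem det_norm_bound (n : ℕ) : ∃ K : ℝ, 0 ≤ K ∧ ∀ (W : ℕ), 4 * W + 4 * n ≤ 7 * n ^ 2 + 3 →
    ∀ (x0 g0 g1 g2 g3 : ℝ), |x0| ≤ 1 → |g0| ≤ 6 → |g1| ≤ 6 → |g2| ≤ 6 → |g3| ≤ 6 →
    ∀ (lam : ℝ), 0 ≤ lam → lam ≤ 1 → ∀ (x z : Fin n ⊕ Fin n → ℝ), (∀ i, |x i| ≤ lam) →
    (∀ i, |z i| ≤ lam ^ n) →
    |(Matrix.of fun (i : Fin n ⊕ Fin n) (j : Fin n ⊕ Fin n) => Sum.elim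
      (fun k : Fin n => (z i - g0 - g1 * x i - g2 * x i ^ 2 - g3 * x i ^ 3) ^ (k : ℕ))
      (fun k : Fin n => (z i - g0 - g1 * x i - g2 * x i ^ 2 - g3 * x i ^ 3) ^ (k : ℕ) * (x0 + x i)) j).det|
      ≤ K * lam ^ W := by
  classical
  set N := 4 * n + 4 with hN
  set K0 : ℝ := 25 ^ n * 2 with hK0
  refine ⟨((range N ×ˢ range N).card : ℝ) ^ (Fintype.card (Fin n ⊕ Fin n)) *
    ((Fintype.card (Fin n ⊕ Fin n)).factorial * K0 ^ (Fintype.card (Fin n ⊕ Fin n))), by positivity, ?_⟩
  intro W hW x0 g0 g1 g2 g3 hx0 h0 h1 h2 h3 lam hl0 hl1 x z hx hz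
  have hrep : ∀ j : Fin n ⊕ Fin n, Rep (fun h w => Sum.elim
      (fun k : Fin n => (w - g0 - g1 * h - g2 * h ^ 2 - g3 * h ^ 3) ^ (k : ℕ))
      (fun k : Fin n => (w - g0 - g1 * h - g2 * h ^ 2 - g3 * h ^ 3) ^ (k : ℕ) * (x0 + h)) j) K0 N := by
    intro j
    have hpow : ∀ k : Fin n, (25 : ℝ) ^ (k : ℕ) ≤ 25 ^ n := fun k =>
      pow_le_pow_right₀ (by norm_num) k.2.le
    rcases j with k | k
    · simp only [Sum.elim_inl]
      refine ((rep_e g0 g1 g2 g3 h0 h1 h2 h3).pow k).mono ?_ ?_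
      · have := hpow k
        have h25 : (0 : ℝ) ≤ 25 ^ n := by positivity
        rw [hK0]; linarith
      · have := k.2; omega
    · simp only [Sum.elim_inr]
      refine (((rep_e g0 g1 g2 g3 h0 h1 h2 h3).pow k).mul (rep_theta x0 hx0)).mono ?_ ?_
      · rw [hK0]
        have := hpow k
        gcongr
      · have := k.2; omega
  choose c hc hfc using hrep
  have hmat : (Matrix.of fun (i : Fin n ⊕ Fin n) (j : Fin n ⊕ Fin n) => Sum.elim
      (fun k : Fin n => (z i - g0 - g1 * x i - g2 * x i ^ 2 - g3 * x i ^ 3) ^ (k : ℕ))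
      (fun k : Fin n => (z i - g0 - g1 * x i - g2 * x i ^ 2 - g3 * x i ^ 3) ^ (k : ℕ) * (x0 + x i)) j) =
      (Matrix.of fun i j => ∑ m ∈ range N ×ˢ range N, (fun m j => c j m) m j * (x i ^ m.1 * z i ^ m.2)) := by
    ext i j
    simp only [Matrix.of_apply]
    exact hfc j (x i) (z i)
  rw [hmat]
  apply det_expand_bound (range N ×ˢ range N) (fun m j => c j m) K0 (by positivity) ?_ x z lam hl0 hl1 n W hx hz
  · intro k hk
    have := weight_bound n (by simp [two_mul]) k hk
    omega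
  · intro m hm j
    exact (Finset.single_le_sum (f := fun m => |c j m|) (fun _ _ => abs_nonneg _) hm).trans (hc j)

end Pool.Helper30.Hall
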