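import Mathlib

/-! From vanishing minors to a polynomial relation. -/

namespace Pool.Helper30.Hall

open Finset Polynomial

/-- The interpolation matrix. -/
def intMat (n : ℕ) (U V : ℤ → ℤ) (f : Fin n ⊕ Fin n → ℤ) : Matrix (Fin n ⊕ Fin n) (Fin n ⊕ Fin n) ℤ :=
  Matrix.of fun i j => Sum.elim (fun k : Fin n => (f i) ^ (k : ℕ) * V (f i))
    (fun k : Fin n => (f i) ^ (k : ℕ) * U (f i)) j

theorem kernel_of_minors (n : ℕ) (hn : 1 ≤ n) (S : Finset ℤ) (U V : ℤ → ℤ)
    (h : ∀ f : Fin n ⊕ Fin n → ℤ, (∀ i, f i ∈ S) → (intMat n U V f).det = 0) :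
    ∃ p q : ℚ[X], ¬(p = 0 ∧ q = 0) ∧ p.natDegree ≤ n - 1 ∧ q.natDegree ≤ n - 1 ∧
      ∀ e ∈ S, p.eval (e : ℚ) * U e = q.eval (e : ℚ) * V e := by
  classical
  let ι := Fin n ⊕ Fin n
  let row : ℤ → (ι → ℚ) := fun e => Sum.elim (fun k => (e : ℚ) ^ (k : ℕ) * V e)
    (fun k => (e : ℚ) ^ (k : ℕ) * U e)
  let s : Set (ι → ℚ) := row '' (S : Set ℤ)
  have hne : Submodule.span ℚ s ≠ ⊤ := by
    intro htop
    obtain ⟨B, hBs, hBspan, hBli⟩ := exists_linearIndependent ℚ s
    have hBfin : B.Finite := (S.finite_toSet.image _).subset hBs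
    have : Fintype B := hBfin.fintype
    have hcard : Fintype.card B = Fintype.card ι := by
      have h1 : Module.finrank ℚ (Submodule.span ℚ B) = Fintype.card B := by
        have := finrank_span_eq_card (R := ℚ) (b := (Subtype.val : B → (ι → ℚ))) hBli
        rwa [Subtype.range_coe] at this
      rw [← h1, hBspan, htop, finrank_top, Module.finrank_fintype_fun_eq_card]
    obtain ⟨eqv⟩ : Nonempty (ι ≃ B) := ⟨(Fintype.equivOfCardEq hcard).symm⟩
    have hch : ∀ x : B, ∃ e ∈ S, row e = x.1 := by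
      intro x
      obtain ⟨e, he, hex⟩ := hBs x.2
      exact ⟨e, he, hex⟩
    choose g hgS hgrow using hch
    let f : ι → ℤ := fun i => g (eqv i)
    have hdet := h f (fun i => hgS _)
    let A : Matrix ι ι ℚ := Matrix.of fun i => row (f i)
    have hA : A = (intMat n U V f).map (Int.castRingHom ℚ) := by
      ext i j
      rcases j with j | j <;> simp [A, row, intMat]
    have hAdet : A.det = 0 := by
      rw [hA, ← RingHom.mapMatrix_apply, ← RingHom.map_det, hdet, map_zero]
    have hli : LinearIndependent ℚ A.row := by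
      have h1 : LinearIndependent ℚ (fun i : ι => ((eqv i : B) : ι → ℚ)) :=
        hBli.comp eqv eqv.injective
      have h2 : A.row = fun i : ι => ((eqv i : B) : ι → ℚ) := by
        funext i
        change row (f i) = _
        exact hgrow _
      rw [h2]
      exact h1
    rw [Matrix.linearIndependent_rows_iff_isUnit, Matrix.isUnit_iff_isUnit_det, hAdet] at hli
    exact not_isUnit_zero hli
  obtain ⟨φ, hφ0, hφ⟩ := Submodule.exists_le_ker_of_lt_top _ (lt_top_iff_ne_top.2 hne)
  let c : ι → ℚ := fun j => φ (Pi.single j 1)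
  have hφc : ∀ x, φ x = ∑ j, x j * c j := by
    intro x
    rw [LinearMap.pi_apply_eq_sum_univ φ x]
    simp only [smul_eq_mul, c]
    apply Finset.sum_congr rfl
    intro j _
    congr 2
    funext k
    simp [Pi.single_apply, eq_comm]
  have hc : c ≠ 0 := by
    intro h0
    apply hφ0
    ext j
    have := congrFun h0 j
    simpa [c] using this
  have hcR : ∀ e ∈ S, ∑ j, row e j * c j = 0 := by
    intro e he
    rw [← hφc]
    have : row e ∈ Submodule.span ℚ s := Submodule.subset_span ⟨e, he, rfl⟩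
    exact hφ this
  let poly : (Fin n → ℚ) → ℚ[X] := fun f => ∑ k : Fin n, C (f k) * X ^ (k : ℕ)
  have hcoef : ∀ (f : Fin n → ℚ) (i : Fin n), (poly f).coeff (i : ℕ) = f i := by
    intro f i
    simp only [poly, finsetSum_coeff, coeff_C_mul, coeff_X_pow]
    rw [Finset.sum_eq_single i]
    · simp
    · intro k _ hk
      rw [if_neg, mul_zero]
      intro h2
      apply hk
      ext
      exact h2.symm
    · intro h2; exact absurd (Finset.mem_univ _) h2
  have hdeg : ∀ (f : Fin n → ℚ), (poly f).natDegree ≤ n - 1 := by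
    intro f
    apply natDegree_sum_le_of_forall_le
    intro k _
    exact (natDegree_C_mul_X_pow_le _ _).trans (by omega)
  have heval : ∀ (f : Fin n → ℚ) (x : ℚ), (poly f).eval x = ∑ k : Fin n, f k * x ^ (k : ℕ) := by
    intro f x
    simp only [poly, eval_finsetSum, eval_mul, eval_C, eval_pow, eval_X]
  refine ⟨poly (fun k => c (Sum.inr k)), -poly (fun k => c (Sum.inl k)), ?_, hdeg _, ?_, ?_⟩
  · rintro ⟨h1, h2⟩
    apply hc
    funext j
    rcases j with j | j
    · have := hcoef (fun k => c (Sum.inl k)) j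
      rw [neg_eq_zero.1 h2, coeff_zero] at this
      exact this.symm
    · have := hcoef (fun k => c (Sum.inr k)) j
      rw [h1, coeff_zero] at this
      exact this.symm
  · rw [natDegree_neg]; exact hdeg _
  · intro e he
    have h1 := hcR e he
    simp only [row, ι, Fintype.sum_sum_type, Sum.elim_inl, Sum.elim_inr] at h1
    rw [eval_neg, heval, heval, neg_mul, Finset.sum_mul, Finset.sum_mul]
    have h2 : (∑ x : Fin n, (e : ℚ) ^ (x : ℕ) * (V e : ℚ) * c (Sum.inl x)) =
        ∑ x : Fin n, c (Sum.inl x) * (e : ℚ) ^ (x : ℕ) * (V e : ℚ) :=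
      Finset.sum_congr rfl (fun x _ => by ring)
    have h3 : (∑ x : Fin n, (e : ℚ) ^ (x : ℕ) * (U e : ℚ) * c (Sum.inr x)) =
        ∑ x : Fin n, c (Sum.inr x) * (e : ℚ) ^ (x : ℕ) * (U e : ℚ) :=
      Finset.sum_congr rfl (fun x _ => by ring)
    rw [h2, h3] at h1
    linarith

end Pool.Helper30.Hall
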