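import Mathlib
import Pool.Agent.Helper30.Hall.Degen
import Pool.Agent.Helper30.Hall.Det
import Pool.Agent.Helper30.Hall.Kernel

/-! Points in a short arc. -/

namespace Pool.Helper30.Hall

open Finset Polynomial

/-- factorisation of the real determinant -/
theorem intMat_det_real (n : ℕ) (U V : ℤ → ℤ) (f : Fin n ⊕ Fin n → ℤ) (B : ℝ) (hB : B ≠ 0)
    (N : Matrix (Fin n ⊕ Fin n) (Fin n ⊕ Fin n) ℝ)
    (hN : ∀ i j, N i j = Sum.elim (fun k : Fin n => ((f i : ℝ) / B) ^ (k : ℕ))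
      (fun k : Fin n => ((f i : ℝ) / B) ^ (k : ℕ) * ((U (f i) : ℝ) / V (f i))) j)
    (hV : ∀ i, V (f i) ≠ 0) :
    (((intMat n U V f).det : ℤ) : ℝ) = (∏ i, (V (f i) : ℝ)) * (N.det * B ^ (n * (n - 1))) := by
  have h1 : (((intMat n U V f).det : ℤ) : ℝ) = ((intMat n U V f).map (Int.castRingHom ℝ)).det := by
    rw [← RingHom.mapMatrix_apply, ← RingHom.map_det]; rfl
  let w : Fin n ⊕ Fin n → ℝ := Sum.elim (fun k => B ^ (k : ℕ)) (fun k => B ^ (k : ℕ))
  have h2 : ((intMat n U V f).map (Int.castRingHom ℝ)) =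
      Matrix.of fun i j => (V (f i) : ℝ) * (Matrix.of (fun i j => w j * N i j)) i j := by
    ext i j
    have hVi : (V (f i) : ℝ) ≠ 0 := by exact_mod_cast hV i
    rcases j with j | j
    · simp only [intMat, Matrix.map_apply, Matrix.of_apply, Sum.elim_inl, map_mul, map_pow,
        eq_intCast, hN, w, div_pow]
      field_simp
    · simp only [intMat, Matrix.map_apply, Matrix.of_apply, Sum.elim_inr, map_mul, map_pow,
        eq_intCast, hN, w, div_pow]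
      field_simp
  have h3 : ∏ j, w j = B ^ (n * (n - 1)) := by
    simp only [w, Fintype.prod_sum_type, Sum.elim_inl, Sum.elim_inr]
    rw [Finset.prod_pow_eq_pow_sum, ← pow_add, ← two_mul, Fin.sum_univ_eq_sum_range (fun i => i) n,
      mul_comm, Finset.sum_range_id_mul_two]
  rw [h1, h2, Matrix.det_mul_column, Matrix.det_mul_row, h3]
  ring

/-- Arcs: all minors vanish. -/
theorem minors_vanish (n : ℕ) (hn : 1 ≤ n) : ∃ t0 : ℝ, 1 ≤ t0 ∧ ∀ t : ℝ, t0 ≤ t →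
    ∀ a b c : ℤ, |(a : ℝ)| ≤ t ^ 750 → |(b : ℝ)| ≤ t ^ 750 → |(c : ℝ)| ≤ t ^ 750 →
    ∀ (S : Finset ℤ) (U V : ℤ → ℤ), (∀ e ∈ S, t ^ (250 * (n - 1)) ≤ |(V e : ℝ)| ∧
      |(V e : ℝ)| ≤ t ^ (250 * n + 15) ∧
      a * (U e) ^ 3 + b * (U e) ^ 2 * V e + c * U e * (V e) ^ 2 + e * (V e) ^ 3 = 1) →
    ∀ x0 : ℝ, |x0| ≤ 1 → (∀ e ∈ S, |(U e : ℝ) / V e - x0| ≤ 2 / t ^ 716) →
    ∀ f : Fin n ⊕ Fin n → ℤ, (∀ i, f i ∈ S) → (intMat n U V f).det = 0 := by
  obtain ⟨K, hK0, hK⟩ := det_norm_bound n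
  set W := (7 * n ^ 2 + 3 - 4 * n) / 4 with hW
  have hn2 : n ≤ n ^ 2 := by nlinarith
  have hW1 : 4 * W + 4 * n ≤ 7 * n ^ 2 + 3 := by omega
  have hW2 : 7 * n ^ 2 ≤ 4 * W + 4 * n := by omega
  refine ⟨K * 2 ^ W + 2, by nlinarith [mul_nonneg hK0 (pow_nonneg (zero_le_two (α := ℝ)) W)], ?_⟩
  intro t ht a b c ha hb hc S U V hS x0 hx0 harc f hf
  have hKW : 0 ≤ K * 2 ^ W := by positivity
  have ht1 : (2 : ℝ) ≤ t := by linarith
  have ht0 : (0 : ℝ) < t := by linarith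
  set B : ℝ := t ^ 750 with hB
  have hB0 : 0 < B := by positivity
  have hV1 : ∀ i, (1 : ℝ) ≤ |(V (f i) : ℝ)| := by
    intro i
    have h1 := (hS _ (hf i)).1
    have h2 : (1 : ℝ) ≤ t ^ (250 * (n - 1)) := one_le_pow₀ (by linarith)
    linarith
  have hVne : ∀ i, V (f i) ≠ 0 := by
    intro i h0
    have := hV1 i
    rw [h0] at this
    norm_num at this
  -- normalised data
  set x : Fin n ⊕ Fin n → ℝ := fun i => (U (f i) : ℝ) / V (f i) - x0 with hx
  set z : Fin n ⊕ Fin n → ℝ := fun i => 1 / ((V (f i) : ℝ) ^ 3 * B) with hz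
  set g0 : ℝ := (a * x0 ^ 3 + b * x0 ^ 2 + c * x0) / B with hg0
  set g1 : ℝ := (3 * a * x0 ^ 2 + 2 * b * x0 + c) / B with hg1
  set g2 : ℝ := (3 * a * x0 + b) / B with hg2
  set g3 : ℝ := a / B with hg3
  set lam : ℝ := 2 / t ^ 716 with hlam
  have hlam0 : 0 ≤ lam := by positivity
  have hlam1 : lam ≤ 1 := by
    rw [hlam, div_le_one (by positivity)]
    calc (2 : ℝ) ≤ t := ht1
      _ = t ^ 1 := (pow_one t).symm
      _ ≤ t ^ 716 := pow_le_pow_right₀ (by linarith) (by norm_num)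
  have hx02 : |x0| ^ 2 ≤ 1 := pow_le_one₀ (abs_nonneg _) hx0
  have hx03 : |x0| ^ 3 ≤ 1 := pow_le_one₀ (abs_nonneg _) hx0
  have hG0 : |g0| ≤ 6 := by
    rw [hg0, abs_div, abs_of_pos hB0, div_le_iff₀ hB0]
    calc |(a : ℝ) * x0 ^ 3 + b * x0 ^ 2 + c * x0| ≤ |(a : ℝ) * x0 ^ 3| + |b * x0 ^ 2| + |c * x0| :=
          abs_add_three _ _ _
      _ = |(a : ℝ)| * |x0| ^ 3 + |(b : ℝ)| * |x0| ^ 2 + |(c : ℝ)| * |x0| := by
          simp only [abs_mul, abs_pow]
      _ ≤ B * 1 + B * 1 + B * 1 := by gcongr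
      _ ≤ 6 * B := by linarith
  have hG1 : |g1| ≤ 6 := by
    rw [hg1, abs_div, abs_of_pos hB0, div_le_iff₀ hB0]
    calc |3 * (a : ℝ) * x0 ^ 2 + 2 * b * x0 + c| ≤ |3 * (a : ℝ) * x0 ^ 2| + |2 * b * x0| + |(c : ℝ)| :=
          abs_add_three _ _ _
      _ = 3 * |(a : ℝ)| * |x0| ^ 2 + 2 * |(b : ℝ)| * |x0| + |(c : ℝ)| := by
          simp only [abs_mul, abs_pow]; norm_num
      _ ≤ 3 * B * 1 + 2 * B * 1 + B := by gcongr
      _ ≤ 6 * B := by linarith
  have hG2 : |g2| ≤ 6 := by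
    rw [hg2, abs_div, abs_of_pos hB0, div_le_iff₀ hB0]
    calc |3 * (a : ℝ) * x0 + b| ≤ |3 * (a : ℝ) * x0| + |(b : ℝ)| := abs_add_le _ _
      _ = 3 * |(a : ℝ)| * |x0| + |(b : ℝ)| := by
          simp only [abs_mul]; norm_num
      _ ≤ 3 * B * 1 + B := by gcongr
      _ ≤ 6 * B := by linarith
  have hG3 : |g3| ≤ 6 := by
    rw [hg3, abs_div, abs_of_pos hB0, div_le_iff₀ hB0]
    linarith
  have hxl : ∀ i, |x i| ≤ lam := fun i => harc _ (hf i)
  have hzl : ∀ i, |z i| ≤ lam ^ n := by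
    intro i
    have h1 := (hS _ (hf i)).1
    rw [hz]
    simp only
    rw [abs_div, abs_one, abs_mul, abs_pow, abs_of_pos hB0, hlam, div_pow]
    have h2 : t ^ (716 * n) ≤ |(V (f i) : ℝ)| ^ 3 * B := by
      calc t ^ (716 * n) ≤ t ^ (250 * (n - 1) * 3 + 750) :=
            pow_le_pow_right₀ (by linarith) (by omega)
        _ = (t ^ (250 * (n - 1))) ^ 3 * B := by rw [pow_add, pow_mul _ _ 3, hB]
        _ ≤ |(V (f i) : ℝ)| ^ 3 * B := by gcongr
    rw [← pow_mul]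
    have h3 : (1 : ℝ) ≤ 2 ^ n := one_le_pow₀ (by norm_num)
    exact div_le_div₀ (by positivity) h3 (by positivity) h2
  have hdet := hK W hW1 x0 g0 g1 g2 g3 hx0 hG0 hG1 hG2 hG3 lam hlam0 hlam1 x z hxl hzl
  set N : Matrix (Fin n ⊕ Fin n) (Fin n ⊕ Fin n) ℝ := Matrix.of fun (i : Fin n ⊕ Fin n) (j : Fin n ⊕ Fin n) => Sum.elim
      (fun k : Fin n => (z i - g0 - g1 * x i - g2 * x i ^ 2 - g3 * x i ^ 3) ^ (k : ℕ))
      (fun k : Fin n => (z i - g0 - g1 * x i - g2 * x i ^ 2 - g3 * x i ^ 3) ^ (k : ℕ) * (x0 + x i)) j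
    with hN
  have hNij : ∀ i j, N i j = Sum.elim (fun k : Fin n => ((f i : ℝ) / B) ^ (k : ℕ))
      (fun k : Fin n => ((f i : ℝ) / B) ^ (k : ℕ) * ((U (f i) : ℝ) / V (f i))) j := by
    intro i j
    have hVi : (V (f i) : ℝ) ≠ 0 := by exact_mod_cast hVne i
    have hrel : (a : ℝ) * (U (f i)) ^ 3 + b * (U (f i)) ^ 2 * V (f i) + c * U (f i) * (V (f i)) ^ 2 +
        (f i) * (V (f i)) ^ 3 = 1 := by exact_mod_cast (hS _ (hf i)).2.2
    have h1 : z i - g0 - g1 * x i - g2 * x i ^ 2 - g3 * x i ^ 3 = (f i : ℝ) / B := by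
      have h2 : (f i : ℝ) = 1 / (V (f i) : ℝ) ^ 3 - (a * ((U (f i) : ℝ) / V (f i)) ^ 3 +
          b * ((U (f i) : ℝ) / V (f i)) ^ 2 + c * ((U (f i) : ℝ) / V (f i))) := by
        field_simp
        linear_combination hrel
      have h3 : (U (f i) : ℝ) / V (f i) = x0 + x i := by rw [hx]; ring
      rw [h2, h3]
      simp only [hz, hg0, hg1, hg2, hg3]
      field_simp
      ring
    have h4 : x0 + x i = (U (f i) : ℝ) / V (f i) := by rw [hx]; ring
    rw [hN]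
    simp only [Matrix.of_apply, h1, h4]
  have hreal := intMat_det_real n U V f B hB0.ne' N hNij hVne
  have hlt : |(((intMat n U V f).det : ℤ) : ℝ)| < 1 := by
    rw [hreal, abs_mul, Finset.abs_prod, abs_mul, abs_pow, abs_of_pos hB0]
    have hprod : ∏ i, |(V (f i) : ℝ)| ≤ t ^ ((250 * n + 15) * (2 * n)) := by
      calc ∏ i, |(V (f i) : ℝ)| ≤ ∏ i : Fin n ⊕ Fin n, t ^ (250 * n + 15) :=
            Finset.prod_le_prod (fun i _ => abs_nonneg _) (fun i _ => (hS _ (hf i)).2.1)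
        _ = t ^ ((250 * n + 15) * (2 * n)) := by
            rw [Finset.prod_const, ← pow_mul, Finset.card_univ, Fintype.card_sum, Fintype.card_fin,
              two_mul]
    have hlamW : lam ^ W = 2 ^ W / t ^ (716 * W) := by
      rw [hlam, div_pow, ← pow_mul]
    have hexp : (250 * n + 15) * (2 * n) + 750 * (n * (n - 1)) + 1 ≤ 716 * W := by
      have e1 : n * (n - 1) + n = n ^ 2 := by
        obtain ⟨k, rfl⟩ : ∃ k, n = k + 1 := ⟨n - 1, by omega⟩
        simp only [Nat.add_sub_cancel]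
        ring
      have e2 : (250 * n + 15) * (2 * n) = 500 * n ^ 2 + 30 * n := by ring
      rw [e2]
      omega
    calc (∏ i, |(V (f i) : ℝ)|) * (|N.det| * B ^ (n * (n - 1)))
        ≤ t ^ ((250 * n + 15) * (2 * n)) * ((K * lam ^ W) * B ^ (n * (n - 1))) := by gcongr
      _ = K * 2 ^ W * (t ^ ((250 * n + 15) * (2 * n)) * t ^ (750 * (n * (n - 1)))) / t ^ (716 * W) := by
          rw [hlamW, hB, ← pow_mul t 750]
          ring
      _ = K * 2 ^ W * t ^ ((250 * n + 15) * (2 * n) + 750 * (n * (n - 1))) / t ^ (716 * W) := by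
          rw [pow_add]
      _ < 1 := by
          rw [div_lt_one (by positivity)]
          calc K * 2 ^ W * t ^ ((250 * n + 15) * (2 * n) + 750 * (n * (n - 1)))
              < t * t ^ ((250 * n + 15) * (2 * n) + 750 * (n * (n - 1))) := by
                apply mul_lt_mul_of_pos_right _ (by positivity)
                linarith
            _ = t ^ ((250 * n + 15) * (2 * n) + 750 * (n * (n - 1)) + 1) := by
                rw [pow_succ']
            _ ≤ t ^ (716 * W) := pow_le_pow_right₀ (by linarith) hexp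
  have : |(intMat n U V f).det| < 1 := by exact_mod_cast hlt
  exact Int.abs_lt_one_iff.1 this

end Pool.Helper30.Hall
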