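import Mathlib

/-! Reduced bases via the fundamental domain of `SL(2,ℤ)`. -/

namespace Pool.Helper30.Hall

open scoped Modular MatrixGroups

open UpperHalfPlane ModularGroup

theorem exists_reduced_basis (S V : ℝ) (hV : 0 < V) :
    ∃ α β γ δ : ℤ, α * δ - β * γ = 1 ∧ ∃ q1 q2 : ℝ, 0 < q1 ∧ 0 ≤ q2 ∧ q1 ^ 4 ≤ 4 / 3 ∧
      q1 ^ 2 * q2 ^ 2 ≤ 4 / 3 ∧
      |(δ : ℝ) + S * γ| ≤ q1 / V ∧ |(γ : ℝ)| ≤ V * q1 ∧
      |(β : ℝ) + S * α| ≤ q2 / V ∧ |(α : ℝ)| ≤ V * q2 := by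
  have hz : 0 < (⟨S, 1 / V ^ 2⟩ : ℂ).im := by
    simp only
    positivity
  let z : ℍ := ⟨⟨S, 1 / V ^ 2⟩, hz⟩
  obtain ⟨g, hg⟩ := exists_smul_mem_fd z
  obtain ⟨hg1, hg2⟩ := hg
  set α := g 0 0 with hα
  set β := g 0 1 with hβ
  set γ := g 1 0 with hγ
  set δ := g 1 1 with hδ
  have hdet : α * δ - β * γ = 1 := by
    have := g.det_coe
    rw [Matrix.det_fin_two] at this
    exact this
  have happly := coe_specialLinearGroup_apply g z
  have him := ModularGroup.im_smul_eq_div_normSq g z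
  rw [ModularGroup.denom_apply] at him
  -- the two norms
  set D1 : ℝ := (δ + S * γ) ^ 2 + (γ / V ^ 2) ^ 2 with hD1
  set D2 : ℝ := (β + S * α) ^ 2 + (α / V ^ 2) ^ 2 with hD2
  have hn1 : Complex.normSq ((γ : ℂ) * (z : ℂ) + (δ : ℂ)) = D1 := by
    rw [Complex.normSq_apply]
    simp [z, hD1]
    ring
  have hn2 : Complex.normSq ((α : ℂ) * (z : ℂ) + (β : ℂ)) = D2 := by
    rw [Complex.normSq_apply]
    simp [z, hD2]
    ring
  have hD1pos : 0 < D1 := by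
    have hne : ¬ (γ = 0 ∧ δ = 0) := by
      rintro ⟨h1, h2⟩
      rw [h1, h2] at hdet
      simp at hdet
    rw [hD1]
    by_cases hγ0 : γ = 0
    · have hδ0 : δ ≠ 0 := fun h => hne ⟨hγ0, h⟩
      have : (δ : ℝ) ≠ 0 := by exact_mod_cast hδ0
      rw [hγ0]
      simp only [Int.cast_zero, mul_zero, add_zero, zero_div]
      positivity
    · have : (γ : ℝ) ≠ 0 := by exact_mod_cast hγ0
      positivity
  have hgz : Complex.normSq ((g • z : ℍ) : ℂ) = D2 / D1 := by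
    rw [happly, Complex.normSq_div]
    rw [← hn2, ← hn1]
    rfl
  have him' : (g • z).im = (1 / V ^ 2) / D1 := by
    rw [him]
    congr 1
  have hnsq : Complex.normSq ((g • z : ℍ) : ℂ) = (g • z).re ^ 2 + (g • z).im ^ 2 := by
    rw [Complex.normSq_apply]
    simp only [UpperHalfPlane.coe_re, UpperHalfPlane.coe_im]
    ring
  have hre : (g • z).re ^ 2 ≤ 1 / 4 := by
    have h1 := abs_le.1 hg2
    nlinarith
  set q1 : ℝ := V * Real.sqrt D1 with hq1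
  set q2 : ℝ := V * Real.sqrt D2 with hq2
  have hD2nn : 0 ≤ D2 := by positivity
  have hq1sq : q1 ^ 2 = V ^ 2 * D1 := by rw [hq1, mul_pow, Real.sq_sqrt hD1pos.le]
  have hq2sq : q2 ^ 2 = V ^ 2 * D2 := by rw [hq2, mul_pow, Real.sq_sqrt hD2nn]
  have hq1pos : 0 < q1 := by positivity
  have him2 : (g • z).im = 1 / q1 ^ 2 := by
    rw [him', hq1sq]
    field_simp
  have hratio : D2 / D1 = q2 ^ 2 / q1 ^ 2 := by
    rw [hq1sq, hq2sq]
    field_simp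
  rw [hgz, hratio] at hnsq
  have hge1 : 1 ≤ q2 ^ 2 / q1 ^ 2 := by
    rw [← hratio, ← hgz]
    exact hg1
  have hq14 : q1 ^ 4 ≤ 4 / 3 := by
    rw [him2] at hnsq
    have h1 : 3 / 4 ≤ (1 / q1 ^ 2) ^ 2 := by linarith
    have h2 : (1 / q1 ^ 2) ^ 2 = 1 / q1 ^ 4 := by
      rw [div_pow, one_pow, ← pow_mul]
    rw [h2, le_div_iff₀ (by positivity)] at h1
    linarith
  have hprod : q1 ^ 2 * q2 ^ 2 ≤ 4 / 3 := by
    rw [him2] at hnsq
    have h3 : q1 ^ 2 * q2 ^ 2 = q1 ^ 4 * (q2 ^ 2 / q1 ^ 2) := by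
      field_simp
    rw [h3, hnsq]
    have h4 : q1 ^ 4 * ((g • z).re ^ 2 + (1 / q1 ^ 2) ^ 2) = q1 ^ 4 * (g • z).re ^ 2 + 1 := by
      field_simp
    rw [h4]
    have h5 : 0 ≤ q1 ^ 4 := by positivity
    nlinarith
  refine ⟨α, β, γ, δ, hdet, q1, q2, hq1pos, by positivity, hq14, hprod, ?_, ?_, ?_, ?_⟩
  · rw [hq1, mul_div_cancel_left₀ _ hV.ne']
    apply Real.abs_le_sqrt
    rw [hD1]
    have : 0 ≤ ((γ : ℝ) / V ^ 2) ^ 2 := by positivity
    linarith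
  · have h1 : |(γ : ℝ) / V ^ 2| ≤ Real.sqrt D1 := by
      apply Real.abs_le_sqrt
      rw [hD1]
      have : 0 ≤ ((δ : ℝ) + S * γ) ^ 2 := by positivity
      linarith
    rw [abs_div, abs_of_pos (by positivity : (0 : ℝ) < V ^ 2), div_le_iff₀ (by positivity)] at h1
    calc |(γ : ℝ)| ≤ Real.sqrt D1 * V ^ 2 := h1
      _ = V * q1 := by rw [hq1]; ring
  · rw [hq2, mul_div_cancel_left₀ _ hV.ne']
    apply Real.abs_le_sqrt
    rw [hD2]
    have : 0 ≤ ((α : ℝ) / V ^ 2) ^ 2 := by positivity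
    linarith
  · have h1 : |(α : ℝ) / V ^ 2| ≤ Real.sqrt D2 := by
      apply Real.abs_le_sqrt
      rw [hD2]
      have : 0 ≤ ((β : ℝ) + S * α) ^ 2 := by positivity
      linarith
    rw [abs_div, abs_of_pos (by positivity : (0 : ℝ) < V ^ 2), div_le_iff₀ (by positivity)] at h1
    calc |(α : ℝ)| ≤ Real.sqrt D2 * V ^ 2 := h1
      _ = V * q2 := by rw [hq2]; ring

end Pool.Helper30.Hall
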