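import Mathlib
import Pool.Agent.Helper30.Hall.Arc

/-! The core lemma: for fixed `a, b, c` few `e` have a solution of size about `B^(n/3)`. -/

namespace Pool.Helper30.Hall

open Finset Polynomial

/-- the points of an arc number at most `t`. -/
theorem arc_card (n : ℕ) (hn : 1 ≤ n) : ∃ t0 : ℝ, 1 ≤ t0 ∧ ∀ t : ℝ, t0 ≤ t →
    ∀ a b c : ℤ, a ≠ 0 → |(a : ℝ)| ≤ t ^ 750 → |(b : ℝ)| ≤ t ^ 750 → |(c : ℝ)| ≤ t ^ 750 →
    ∀ (S : Finset ℤ) (U V : ℤ → ℤ), (∀ e ∈ S, |(U e : ℝ)| ≤ |(V e : ℝ)| ∧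
      t ^ (250 * (n - 1)) ≤ |(V e : ℝ)| ∧ |(V e : ℝ)| ≤ t ^ (250 * n + 15) ∧
      a * (U e) ^ 3 + b * (U e) ^ 2 * V e + c * U e * (V e) ^ 2 + e * (V e) ^ 3 = 1) →
    ∀ x0 : ℝ, |x0| ≤ 1 → (∀ e ∈ S, |(U e : ℝ) / V e - x0| ≤ 2 / t ^ 716) →
    (S.card : ℝ) ≤ t := by
  obtain ⟨t1, ht1, hmin⟩ := minors_vanish n hn
  obtain ⟨c0, E, hdeg⟩ := degenerate (n - 1)
  set w := 250 * n + 766 with hw
  set k := w * E + 1 with hk
  obtain ⟨Ck, hCk1, hCk⟩ := card_divisors_pow_le k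
  have hpos : (0 : ℝ) ≤ Ck * c0 * (2 * c0) ^ k := by positivity
  refine ⟨t1 + 6 + 2 * c0 + Ck * c0 * (2 * c0) ^ k + 1, by
    have : (0 : ℝ) ≤ 2 * c0 := by positivity
    linarith, ?_⟩
  intro t ht a b c ha0 ha hb hc S U V hS x0 hx0 harc
  have h2c0 : (0 : ℝ) ≤ 2 * c0 := by positivity
  have htt1 : t1 ≤ t := by linarith
  have ht6 : (6 : ℝ) ≤ t := by linarith
  have htc0 : 2 * (c0 : ℝ) ≤ t := by linarith
  have htC : (Ck * c0 * (2 * c0) ^ k : ℝ) < t := by linarith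
  have ht0 : (0 : ℝ) < t := by linarith
  have ht1' : (1 : ℝ) ≤ t := by linarith
  have hkern := kernel_of_minors n hn S U V
    (hmin t htt1 a b c ha hb hc S U V (fun e he => ⟨(hS e he).2.1, (hS e he).2.2⟩) x0 hx0 harc)
  set B : ℝ := t ^ 750 with hB
  have hB0 : 0 < B := by positivity
  have hV1 : ∀ e ∈ S, (1 : ℝ) ≤ |(V e : ℝ)| := by
    intro e he
    have h1 := (hS e he).2.1
    have h2 : (1 : ℝ) ≤ t ^ (250 * (n - 1)) := one_le_pow₀ ht1'
    linarith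
  -- bound for `e`
  have heB : ∀ e ∈ S, |(e : ℝ)| ≤ 4 * B := by
    intro e he
    have hv := hV1 e he
    have hu := (hS e he).1
    have hrel : (a : ℝ) * (U e) ^ 3 + b * (U e) ^ 2 * V e + c * U e * (V e) ^ 2 +
        e * (V e) ^ 3 = 1 := by exact_mod_cast (hS e he).2.2.2
    have hv3 : (1 : ℝ) ≤ |(V e : ℝ)| ^ 3 := one_le_pow₀ hv
    have h1 : |(e : ℝ)| * |(V e : ℝ)| ^ 3 ≤ 4 * B * |(V e : ℝ)| ^ 3 := by
      have h2 : (e : ℝ) * (V e) ^ 3 = 1 - (a * (U e) ^ 3 + b * (U e) ^ 2 * V e + c * U e * (V e) ^ 2) := by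
        linarith
      calc |(e : ℝ)| * |(V e : ℝ)| ^ 3 = |(e : ℝ) * (V e) ^ 3| := by rw [abs_mul, abs_pow]
        _ = |1 - ((a : ℝ) * (U e) ^ 3 + b * (U e) ^ 2 * V e + c * U e * (V e) ^ 2)| := by rw [h2]
        _ ≤ |(1 : ℝ)| + |(a : ℝ) * (U e) ^ 3 + b * (U e) ^ 2 * V e + c * U e * (V e) ^ 2| := abs_sub _ _
        _ ≤ 1 + (|(a : ℝ) * (U e) ^ 3| + |(b : ℝ) * (U e) ^ 2 * V e| + |(c : ℝ) * U e * (V e) ^ 2|) := by
            rw [abs_one]
            have := abs_add_three ((a : ℝ) * (U e) ^ 3) (b * (U e) ^ 2 * V e) (c * U e * (V e) ^ 2)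
            linarith
        _ = 1 + (|(a : ℝ)| * |(U e : ℝ)| ^ 3 + |(b : ℝ)| * |(U e : ℝ)| ^ 2 * |(V e : ℝ)| +
            |(c : ℝ)| * |(U e : ℝ)| * |(V e : ℝ)| ^ 2) := by simp only [abs_mul, abs_pow]
        _ ≤ 1 + (B * |(V e : ℝ)| ^ 3 + B * |(V e : ℝ)| ^ 2 * |(V e : ℝ)| + B * |(V e : ℝ)| * |(V e : ℝ)| ^ 2) := by
            gcongr
        _ ≤ 4 * B * |(V e : ℝ)| ^ 3 := by
            have hB1 : 1 ≤ B := by rw [hB]; exact one_le_pow₀ ht1'
            have h9 : 1 ≤ B * |(V e : ℝ)| ^ 3 := one_le_mul_of_one_le_of_one_le hB1 hv3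
            have h10 : 1 + (B * |(V e : ℝ)| ^ 3 + B * |(V e : ℝ)| ^ 2 * |(V e : ℝ)| +
              B * |(V e : ℝ)| * |(V e : ℝ)| ^ 2) = 1 + 3 * (B * |(V e : ℝ)| ^ 3) := by ring
            rw [h10]
            linarith
    exact le_of_mul_le_mul_right h1 (lt_of_lt_of_le one_pos hv3)
  -- the common bound
  set Y : ℕ := ⌈4 * B + t ^ (250 * n + 15)⌉₊ with hY
  have hYreal : 4 * B + t ^ (250 * n + 15) ≤ (Y : ℝ) := Nat.le_ceil _
  have hp15 : (1 : ℝ) ≤ t ^ (250 * n + 15) := one_le_pow₀ ht1'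
  have hY1 : 1 ≤ Y := by
    have : (1 : ℝ) ≤ Y := by linarith
    exact_mod_cast this
  have hYle : (Y : ℝ) ≤ t ^ w := by
    have h1 : (Y : ℝ) < 4 * B + t ^ (250 * n + 15) + 1 := Nat.ceil_lt_add_one (by positivity)
    have h2 : B ≤ t ^ (250 * n + 765) := pow_le_pow_right₀ ht1' (by omega)
    have h3 : t ^ (250 * n + 15) ≤ t ^ (250 * n + 765) := pow_le_pow_right₀ ht1' (by omega)
    have h4 : (1 : ℝ) ≤ t ^ (250 * n + 765) := one_le_pow₀ ht1'
    calc (Y : ℝ) ≤ 6 * t ^ (250 * n + 765) := by linarith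
      _ ≤ t * t ^ (250 * n + 765) := by gcongr
      _ = t ^ w := by rw [← pow_succ', hw]
  have hpts : ∀ e ∈ S, IsPt Y a b c e (U e) (V e) := by
    intro e he
    obtain ⟨hu, hv1, hv2, hrel⟩ := hS e he
    have he4 := heB e he
    have hvne : V e ≠ 0 := by
      intro h0
      have := hV1 e he
      rw [h0] at this
      norm_num at this
    have hpos15 : (0 : ℝ) < t ^ (250 * n + 15) := by positivity
    have e1 : |(e : ℝ)| ≤ Y := by linarith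
    have e2 : |(U e : ℝ)| ≤ Y := by linarith
    have e3 : |(V e : ℝ)| ≤ Y := by linarith
    exact ⟨by exact_mod_cast e1, by exact_mod_cast e2, by exact_mod_cast e3, hvne, hrel⟩
  obtain ⟨R, hR0, hR, hSR⟩ := hdeg Y hY1 a b c ha0 S U V hpts hkern
  have hRreal : (R : ℝ) ≤ c0 * t ^ (w * E) := by
    calc (R : ℝ) ≤ ((c0 * Y ^ E : ℕ) : ℝ) := by exact_mod_cast hR
      _ = c0 * (Y : ℝ) ^ E := by push_cast; ring
      _ ≤ c0 * (t ^ w) ^ E := by gcongr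
      _ = c0 * t ^ (w * E) := by rw [pow_mul]
  set τ : ℝ := (R.divisors.card : ℝ) with hτ
  have hτ0 : 0 ≤ τ := by positivity
  have hτk : τ ^ k ≤ Ck * (c0 * t ^ (w * E)) := by
    calc τ ^ k ≤ Ck * (R : ℝ) := by rw [hτ]; exact_mod_cast hCk R hR0
      _ ≤ Ck * (c0 * t ^ (w * E)) := by gcongr
  have hSreal : (S.card : ℝ) ≤ c0 * τ + c0 := by rw [hτ]; exact_mod_cast hSR
  by_contra hcon
  push Not at hcon
  -- then `τ` is large
  have h1 : t ≤ 2 * c0 * τ := by linarith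
  have h2 : t ^ k ≤ (2 * c0) ^ k * (Ck * (c0 * t ^ (w * E))) := by
    calc t ^ k ≤ (2 * c0 * τ) ^ k := by gcongr
      _ = (2 * c0) ^ k * τ ^ k := by rw [mul_pow]
      _ ≤ _ := by gcongr
  have h3 : t ^ k = t * t ^ (w * E) := by rw [hk, pow_succ']
  have h4 : 0 < t ^ (w * E) := by positivity
  have h5 : t * t ^ (w * E) ≤ (Ck * c0 * (2 * c0) ^ k) * t ^ (w * E) := by
    rw [← h3]
    calc t ^ k ≤ _ := h2
      _ = _ := by ring
  have h6 := le_of_mul_le_mul_right h5 h4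
  linarith

/-- The core lemma. -/
theorem core (n : ℕ) (hn : 1 ≤ n) : ∃ t0 : ℝ, 1 ≤ t0 ∧ ∀ t : ℝ, t0 ≤ t →
    ∀ a b c : ℤ, a ≠ 0 → |(a : ℝ)| ≤ t ^ 750 → |(b : ℝ)| ≤ t ^ 750 → |(c : ℝ)| ≤ t ^ 750 →
    ∀ (S : Finset ℤ), (∀ e ∈ S, ∃ u v : ℤ, |(u : ℝ)| ≤ |(v : ℝ)| ∧
      t ^ (250 * (n - 1)) ≤ |(v : ℝ)| ∧ |(v : ℝ)| ≤ t ^ (250 * n + 15) ∧
      a * u ^ 3 + b * u ^ 2 * v + c * u * v ^ 2 + e * v ^ 3 = 1) →
    (S.card : ℝ) ≤ 3 * t ^ 717 := by
  classical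
  obtain ⟨t1, ht1, harc⟩ := arc_card n hn
  refine ⟨t1 + 2, by linarith, ?_⟩
  intro t ht a b c ha0 ha hb hc S hS
  have ht2 : (2 : ℝ) ≤ t := by linarith
  have ht0 : (0 : ℝ) < t := by linarith
  choose! U V hUV using hS
  set M : ℕ := ⌈t ^ 716⌉₊ with hM
  have hMr : t ^ 716 ≤ (M : ℝ) := Nat.le_ceil _
  have hM2 : (M : ℝ) < t ^ 716 + 1 := Nat.ceil_lt_add_one (by positivity)
  have hpow : (0 : ℝ) < t ^ 716 := by positivity
  have hM0 : (0 : ℝ) < M := by linarith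
  have hM1 : (1 : ℝ) ≤ t ^ 716 := one_le_pow₀ (by linarith)
  -- index of the arc
  set θ : ℤ → ℝ := fun e => (U e : ℝ) / V e with hθ
  set r : ℤ → ℕ := fun e => ⌊(θ e + 1) / 2 * M⌋₊ with hr
  have hθ1 : ∀ e ∈ S, |θ e| ≤ 1 := by
    intro e he
    rw [hθ]
    simp only
    rw [abs_div]
    exact div_le_one_of_le₀ (hUV e he).1 (abs_nonneg _)
  have hrle : ∀ e ∈ S, r e ∈ range (M + 1) := by
    intro e he
    rw [Finset.mem_range, Nat.lt_succ_iff]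
    have h1 := (abs_le.1 (hθ1 e he)).2
    calc r e ≤ ⌊(M : ℝ)⌋₊ := by
          apply Nat.floor_le_floor
          have : (θ e + 1) / 2 ≤ 1 := by linarith
          nlinarith
      _ = M := Nat.floor_natCast _
  have hfib : ∀ i ∈ range (M + 1), ((S.filter (fun e => r e = i)).card : ℝ) ≤ t := by
    intro i hi
    rw [Finset.mem_range, Nat.lt_succ_iff] at hi
    have hiM : (i : ℝ) ≤ M := by exact_mod_cast hi
    apply harc t (by linarith) a b c ha0 ha hb hc (S.filter (fun e => r e = i)) U V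
      (fun e he => hUV e (Finset.mem_filter.1 he).1) (-1 + 2 * i / M)
    · rw [abs_le]
      constructor
      · have : 0 ≤ 2 * (i : ℝ) / M := by positivity
        linarith
      · have : 2 * (i : ℝ) / M ≤ 2 := by
          rw [div_le_iff₀ hM0]; linarith
        linarith
    · intro e he
      rw [Finset.mem_filter] at he
      have h1 := abs_le.1 (hθ1 e he.1)
      have h0 : 0 ≤ (θ e + 1) / 2 * M := by
        have : 0 ≤ (θ e + 1) / 2 := by linarith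
        positivity
      have h2 : (i : ℝ) ≤ (θ e + 1) / 2 * M := by
        rw [← he.2]
        exact Nat.floor_le h0
      have h3 : (θ e + 1) / 2 * M < i + 1 := by
        have := Nat.lt_floor_add_one ((θ e + 1) / 2 * M)
        rw [← he.2]
        exact this
      have h4 : θ e - (-1 + 2 * i / M) = 2 * ((θ e + 1) / 2 * M - i) / M := by
        field_simp
        ring
      change |θ e - (-1 + 2 * i / M)| ≤ 2 / t ^ 716
      rw [h4, abs_div, abs_of_pos hM0, abs_of_nonneg (by linarith)]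
      exact div_le_div₀ (by norm_num) (by linarith) hpow hMr
  have hcard : S.card = ∑ i ∈ range (M + 1), (S.filter (fun e => r e = i)).card :=
    Finset.card_eq_sum_card_fiberwise hrle
  calc (S.card : ℝ) = ∑ i ∈ range (M + 1), ((S.filter (fun e => r e = i)).card : ℝ) := by
        rw [hcard]; push_cast; rfl
    _ ≤ ∑ i ∈ range (M + 1), t := Finset.sum_le_sum hfib
    _ = (M + 1) * t := by simp
    _ ≤ (3 * t ^ 716) * t := by
        gcongr
        linarith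
    _ = 3 * t ^ 717 := by ring

end Pool.Helper30.Hall
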