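import Mathlib
import Pool.Agent.Helper30.Hall.Basis

/-! The binary cubic form attached to an integral point. -/

namespace Pool.Helper30.Hall

/-- coefficients of `f(δX - βY, -γX + αY)`, `f(N,v) = N³ - 3xNv² + 2yv³`. -/
def cA (x y γ δ : ℤ) : ℤ := δ ^ 3 - 3 * x * δ * γ ^ 2 - 2 * y * γ ^ 3
def cB (x y α β γ δ : ℤ) : ℤ :=
  -3 * δ ^ 2 * β + 3 * x * (2 * α * γ * δ + β * γ ^ 2) + 6 * y * γ ^ 2 * α
def cC (x y α β γ δ : ℤ) : ℤ :=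
  3 * δ * β ^ 2 - 3 * x * (δ * α ^ 2 + 2 * α * β * γ) - 6 * y * γ * α ^ 2
def cE (x y α β : ℤ) : ℤ := -β ^ 3 + 3 * x * β * α ^ 2 + 2 * y * α ^ 3

theorem form_val (x y α β γ δ : ℤ) (h : α * δ - β * γ = 1) :
    cA x y γ δ * α ^ 3 + cB x y α β γ δ * α ^ 2 * γ + cC x y α β γ δ * α * γ ^ 2 +
      cE x y α β * γ ^ 3 = 1 := by
  have : cA x y γ δ * α ^ 3 + cB x y α β γ δ * α ^ 2 * γ + cC x y α β γ δ * α * γ ^ 2 +
      cE x y α β * γ ^ 3 = (α * δ - β * γ) ^ 3 := by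
    unfold cA cB cC cE; ring
  rw [this, h, one_pow]

/-- the discriminant -/
def disc (a b c e : ℤ) : ℤ :=
  b ^ 2 * c ^ 2 - 4 * a * c ^ 3 - 4 * b ^ 3 * e - 27 * a ^ 2 * e ^ 2 + 18 * a * b * c * e

theorem form_disc (x y α β γ δ : ℤ) (h : α * δ - β * γ = 1) :
    disc (cA x y γ δ) (cB x y α β γ δ) (cC x y α β γ δ) (cE x y α β) = 108 * (x ^ 3 - y ^ 2) := by
  have : disc (cA x y γ δ) (cB x y α β γ δ) (cC x y α β γ δ) (cE x y α β) =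
      (α * δ - β * γ) ^ 6 * (108 * (x ^ 3 - y ^ 2)) := by
    unfold disc cA cB cC cE; ring
  rw [this, h, one_pow, one_mul]

/-- translation -/
theorem cB_shift (x y α β γ δ k : ℤ) :
    cB x y (α - k * γ) (β - k * δ) γ δ = cB x y α β γ δ + 3 * cA x y γ δ * k := by
  unfold cA cB; ring

/-- Coefficient bounds. -/
theorem coeff_bounds (x y α β γ δ : ℤ) (S η A V q1 q2 : ℝ) (hS : 0 ≤ S) (hx : (x : ℝ) = S ^ 2)
    (hy : (y : ℝ) = S ^ 3 + η) (hA : 1 ≤ A) (hV : 1 ≤ V) (hSV : S = A * V)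
    (hη : |η| * V ^ 3 ≤ A) (hq1 : 0 ≤ q1) (hq2 : 0 ≤ q2)
    (h1 : |(δ : ℝ) + S * γ| ≤ q1 / V) (h2 : |(γ : ℝ)| ≤ V * q1)
    (h3 : |(β : ℝ) + S * α| ≤ q2 / V) (h4 : |(α : ℝ)| ≤ V * q2) :
    |(cA x y γ δ : ℝ)| ≤ 6 * A * q1 ^ 3 ∧
    |(cB x y α β γ δ : ℝ)| ≤ 18 * A * (q1 ^ 2 * q2) ∧
    |(cC x y α β γ δ : ℝ)| ≤ 18 * A * (q1 * q2 ^ 2) ∧
    |(cE x y α β : ℝ)| ≤ 6 * A * q2 ^ 3 := by
  have hV0 : 0 < V := by linarith
  have hA0 : 0 < A := by linarith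
  -- the basic sizes
  set L1 : ℝ := δ + S * γ with hL1
  set L2 : ℝ := -(β + S * α) with hL2
  set v1 : ℝ := -(γ : ℝ) with hv1
  set v2 : ℝ := (α : ℝ) with hv2
  have b1 : |L1| ≤ q1 / V := h1
  have b2 : |v1| ≤ V * q1 := by rw [hv1, abs_neg]; exact h2
  have b3 : |L2| ≤ q2 / V := by rw [hL2, abs_neg]; exact h3
  have b4 : |v2| ≤ V * q2 := h4
  have eA : (cA x y γ δ : ℝ) = L1 ^ 3 + 3 * S * L1 ^ 2 * v1 + 2 * η * v1 ^ 3 := by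
    unfold cA; push_cast; rw [hx, hy, hL1, hv1]; ring
  have eB : (cB x y α β γ δ : ℝ) = 3 * L1 ^ 2 * L2 + 3 * S * (L1 ^ 2 * v2 + 2 * L1 * L2 * v1) +
      6 * η * v1 ^ 2 * v2 := by
    unfold cB; push_cast; rw [hx, hy, hL1, hv1, hL2, hv2]; ring
  have eC : (cC x y α β γ δ : ℝ) = 3 * L1 * L2 ^ 2 + 3 * S * (2 * L1 * L2 * v2 + L2 ^ 2 * v1) +
      6 * η * v1 * v2 ^ 2 := by
    unfold cC; push_cast; rw [hx, hy, hL1, hv1, hL2, hv2]; ring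
  have eE : (cE x y α β : ℝ) = L2 ^ 3 + 3 * S * L2 ^ 2 * v2 + 2 * η * v2 ^ 3 := by
    unfold cE; push_cast; rw [hx, hy, hL2, hv2]; ring
  -- trilinear bounds
  have hVinv : 1 / V ^ 3 ≤ A := by
    have : 1 / V ^ 3 ≤ 1 := by
      rw [div_le_one (by positivity)]
      exact one_le_pow₀ hV
    linarith
  -- |L L L| ≤ A q q q
  have tLLL : ∀ (p q r P Q R : ℝ), 0 ≤ P → 0 ≤ Q → 0 ≤ R → |p| ≤ P / V → |q| ≤ Q / V → |r| ≤ R / V →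
      |p * q * r| ≤ A * (P * Q * R) := by
    intro p q r P Q R hP hQ hR hp hq hr
    calc |p * q * r| = |p| * |q| * |r| := by rw [abs_mul, abs_mul]
      _ ≤ (P / V) * (Q / V) * (R / V) := by gcongr
      _ = (1 / V ^ 3) * (P * Q * R) := by field_simp
      _ ≤ A * (P * Q * R) := by gcongr
  have tSLLv : ∀ (p q r P Q R : ℝ), 0 ≤ P → 0 ≤ Q → 0 ≤ R → |p| ≤ P / V → |q| ≤ Q / V → |r| ≤ V * R →
      |S * (p * q * r)| ≤ A * (P * Q * R) := by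
    intro p q r P Q R hP hQ hR hp hq hr
    calc |S * (p * q * r)| = S * (|p| * |q| * |r|) := by
          rw [abs_mul, abs_mul, abs_mul, abs_of_nonneg hS]
      _ ≤ S * ((P / V) * (Q / V) * (V * R)) := by gcongr
      _ = A * (P * Q * R) := by rw [hSV]; field_simp
  have tvvv : ∀ (p q r P Q R : ℝ), 0 ≤ P → 0 ≤ Q → 0 ≤ R → |p| ≤ V * P → |q| ≤ V * Q → |r| ≤ V * R →
      |η * (p * q * r)| ≤ A * (P * Q * R) := by
    intro p q r P Q R hP hQ hR hp hq hr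
    calc |η * (p * q * r)| = |η| * (|p| * |q| * |r|) := by
          rw [abs_mul, abs_mul, abs_mul]
      _ ≤ |η| * ((V * P) * (V * Q) * (V * R)) := by gcongr
      _ = (|η| * V ^ 3) * (P * Q * R) := by ring
      _ ≤ A * (P * Q * R) := by gcongr
  refine ⟨?_, ?_, ?_, ?_⟩
  · have i1 := tLLL L1 L1 L1 q1 q1 q1 hq1 hq1 hq1 b1 b1 b1
    have i2 := tSLLv L1 L1 v1 q1 q1 q1 hq1 hq1 hq1 b1 b1 b2
    have i3 := tvvv v1 v1 v1 q1 q1 q1 hq1 hq1 hq1 b2 b2 b2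
    have e : (cA x y γ δ : ℝ) = L1 * L1 * L1 + 3 * (S * (L1 * L1 * v1)) + 2 * (η * (v1 * v1 * v1)) := by
      rw [eA]; ring
    rw [e]
    rw [abs_le] at i1 i2 i3 ⊢
    have e3 : q1 * q1 * q1 = q1 ^ 3 := by ring
    rw [e3] at i1 i2 i3
    constructor <;> linarith [i1.1, i1.2, i2.1, i2.2, i3.1, i3.2]
  · have i1 := tLLL L1 L1 L2 q1 q1 q2 hq1 hq1 hq2 b1 b1 b3
    have i2 := tSLLv L1 L1 v2 q1 q1 q2 hq1 hq1 hq2 b1 b1 b4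
    have i3 := tSLLv L1 L2 v1 q1 q2 q1 hq1 hq2 hq1 b1 b3 b2
    have i4 := tvvv v1 v1 v2 q1 q1 q2 hq1 hq1 hq2 b2 b2 b4
    have e : (cB x y α β γ δ : ℝ) = 3 * (L1 * L1 * L2) + 3 * (S * (L1 * L1 * v2)) +
        6 * (S * (L1 * L2 * v1)) + 6 * (η * (v1 * v1 * v2)) := by
      rw [eB]; ring
    rw [e]
    rw [abs_le] at i1 i2 i3 i4 ⊢
    have e3 : q1 * q1 * q2 = q1 ^ 2 * q2 := by ring
    have e4 : q1 * q2 * q1 = q1 ^ 2 * q2 := by ring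
    rw [e3] at i1 i2 i4
    rw [e4] at i3
    constructor <;> linarith [i1.1, i1.2, i2.1, i2.2, i3.1, i3.2, i4.1, i4.2]
  · have i1 := tLLL L1 L2 L2 q1 q2 q2 hq1 hq2 hq2 b1 b3 b3
    have i2 := tSLLv L1 L2 v2 q1 q2 q2 hq1 hq2 hq2 b1 b3 b4
    have i3 := tSLLv L2 L2 v1 q2 q2 q1 hq2 hq2 hq1 b3 b3 b2
    have i4 := tvvv v1 v2 v2 q1 q2 q2 hq1 hq2 hq2 b2 b4 b4
    have e : (cC x y α β γ δ : ℝ) = 3 * (L1 * L2 * L2) + 6 * (S * (L1 * L2 * v2)) +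
        3 * (S * (L2 * L2 * v1)) + 6 * (η * (v1 * v2 * v2)) := by
      rw [eC]; ring
    rw [e]
    rw [abs_le] at i1 i2 i3 i4 ⊢
    have e3 : q1 * q2 * q2 = q1 * q2 ^ 2 := by ring
    have e4 : q2 * q2 * q1 = q1 * q2 ^ 2 := by ring
    rw [e3] at i1 i2 i4
    rw [e4] at i3
    constructor <;> linarith [i1.1, i1.2, i2.1, i2.2, i3.1, i3.2, i4.1, i4.2]
  · have i1 := tLLL L2 L2 L2 q2 q2 q2 hq2 hq2 hq2 b3 b3 b3
    have i2 := tSLLv L2 L2 v2 q2 q2 q2 hq2 hq2 hq2 b3 b3 b4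
    have i3 := tvvv v2 v2 v2 q2 q2 q2 hq2 hq2 hq2 b4 b4 b4
    have e : (cE x y α β : ℝ) = L2 * L2 * L2 + 3 * (S * (L2 * L2 * v2)) + 2 * (η * (v2 * v2 * v2)) := by
      rw [eE]; ring
    rw [e]
    rw [abs_le] at i1 i2 i3 ⊢
    have e3 : q2 * q2 * q2 = q2 ^ 3 := by ring
    rw [e3] at i1 i2 i3
    constructor <;> linarith [i1.1, i1.2, i2.1, i2.2, i3.1, i3.2]

end Pool.Helper30.Hall
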