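import Mathlib
import Pool.Agent.Helper30.Hall.Form

/-! From an integral point to one of three kinds of data. -/

namespace Pool.Helper30.Hall

/-- a form in the box, with a representation of one by a large vector -/
def P1 (t : ℝ) (n : ℕ) (d : ℤ) : Prop :=
  ∃ a b c e u v : ℤ, a ≠ 0 ∧ |(a : ℝ)| ≤ t ^ 750 ∧ |(b : ℝ)| ≤ t ^ 750 ∧ |(c : ℝ)| ≤ t ^ 750 ∧
    |(u : ℝ)| ≤ |(v : ℝ)| ∧ t ^ (250 * (n - 1)) ≤ |(v : ℝ)| ∧ |(v : ℝ)| ≤ t ^ (250 * n + 15) ∧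
    a * u ^ 3 + b * u ^ 2 * v + c * u * v ^ 2 + e * v ^ 3 = 1 ∧ disc a b c e = -108 * d

/-- reducible case -/
def P0 (t : ℝ) (d : ℤ) : Prop :=
  ∃ x N : ℤ, t ^ 2968 ≤ (x : ℝ) ∧ 4 * d = (N ^ 2 - x) ^ 2 * (N ^ 2 - 4 * x)

/-- the cuspidal region -/
def Region (Z : ℝ) (F : ℤ × ℤ × ℤ × ℤ) : Prop :=
  F.1 ≠ 0 ∧ |(F.1 : ℝ)| * |(F.2.2.2 : ℝ)| ≤ Z ∧ |(F.2.1 : ℝ)| * |(F.2.2.1 : ℝ)| ≤ Z ∧
    |(F.1 : ℝ)| ≤ Z ∧ |(F.2.1 : ℝ)| ≤ Z ∧ |(F.2.2.1 : ℝ)| ≤ Z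

/-- many forms in the cusp -/
def P2 (t : ℝ) (d : ℤ) : Prop :=
  ∃ F : ℕ → ℤ × ℤ × ℤ × ℤ, (∀ k < ⌊t ^ 4⌋₊, Region (4000 * t ^ 1486) (F k) ∧
      disc (F k).1 (F k).2.1 (F k).2.2.1 (F k).2.2.2 = -108 * d) ∧
    ∀ k < ⌊t ^ 4⌋₊, ∀ k' < ⌊t ^ 4⌋₊, F k = F k' → k = k'

theorem disc_symm (a b c e : ℤ) : disc e c b a = disc a b c e := by unfold disc; ring

theorem case1 (C : ℕ) (t : ℝ) (ht : 144 ≤ t) (x y d α β γ δ : ℤ) (hxy : y ^ 2 = x ^ 3 + d)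
    (S η V q1 q2 : ℝ) (hS0 : 0 ≤ S) (hxS : (x : ℝ) = S ^ 2) (hyη : (y : ℝ) = S ^ 3 + η)
    (hSV : S = t ^ 743 * V) (hV1 : t ^ 741 ≤ V) (hηA : |η| * V ^ 3 ≤ t ^ 743)
    (hx2 : S ≤ t ^ (1486 * C)) (hdet : α * δ - β * γ = 1) (hq1 : 0 < q1) (hq2 : 0 ≤ q2)
    (hq1le : q1 ≤ 2) (hq12 : q1 * q2 ≤ 6 / 5)
    (hδ : |(δ : ℝ) + S * γ| ≤ q1 / V) (hγ : |(γ : ℝ)| ≤ V * q1)
    (hβ : |(β : ℝ) + S * α| ≤ q2 / V) (hα : |(α : ℝ)| ≤ V * q2)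
    (hcase : 1 ≤ q1 * t ^ 2) : ∃ n, 1 ≤ n ∧ n ≤ 6 * C + 1 ∧ P1 t n d := by
  have ht0 : (0 : ℝ) < t := by linarith
  have ht1 : (1 : ℝ) ≤ t := by linarith
  set A : ℝ := t ^ 743 with hA
  have hA1 : 1 ≤ A := one_le_pow₀ ht1
  have hA0 : 0 < A := by linarith
  have hVone : 1 ≤ V := le_trans (one_le_pow₀ ht1) hV1
  have hV0 : 0 < V := by linarith
  have hval := form_val x y α β γ δ hdet
  have hdisc := form_disc x y α β γ δ hdet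
  have hdisc' : disc (cA x y γ δ) (cB x y α β γ δ) (cC x y α β γ δ) (cE x y α β) = -108 * d := by
    rw [hdisc]; linear_combination (-108) * hxy
  have hq2le : q2 ≤ 2 * t ^ 2 := by
    calc q2 = 1 * q2 := (one_mul _).symm
      _ ≤ (q1 * t ^ 2) * q2 := by gcongr
      _ = (q1 * q2) * t ^ 2 := by ring
      _ ≤ (6 / 5) * t ^ 2 := by gcongr
      _ ≤ 2 * t ^ 2 := by nlinarith [sq_nonneg t]
  obtain ⟨ba, bb, bc, be⟩ := coeff_bounds x y α β γ δ S η A V q1 q2 hS0 hxS hyη hA1 hVone hSV hηA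
    hq1.le hq2 hδ hγ hβ hα
  have htop : 144 * (A * t ^ 6) ≤ t ^ 750 := by
    calc 144 * (A * t ^ 6) ≤ t * (A * t ^ 6) := by gcongr
      _ = t ^ 750 := by rw [hA]; ring
  have ht2 : 1 ≤ t ^ 2 := one_le_pow₀ ht1
  have ht26 : t ^ 2 ≤ t ^ 6 := pow_le_pow_right₀ ht1 (by norm_num)
  have ht46 : t ^ 4 ≤ t ^ 6 := pow_le_pow_right₀ ht1 (by norm_num)
  have ht6 : 1 ≤ t ^ 6 := one_le_pow₀ ht1
  have ba' : |(cA x y γ δ : ℝ)| ≤ t ^ 750 := by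
    calc |(cA x y γ δ : ℝ)| ≤ 6 * A * q1 ^ 3 := ba
      _ ≤ 6 * A * 2 ^ 3 := by gcongr
      _ = 48 * (A * 1) := by ring
      _ ≤ 144 * (A * t ^ 6) := by gcongr; norm_num
      _ ≤ _ := htop
  have bb' : |(cB x y α β γ δ : ℝ)| ≤ t ^ 750 := by
    calc |(cB x y α β γ δ : ℝ)| ≤ 18 * A * (q1 ^ 2 * q2) := bb
      _ ≤ 18 * A * (2 ^ 2 * (2 * t ^ 2)) := by gcongr
      _ = 144 * (A * t ^ 2) := by ring
      _ ≤ 144 * (A * t ^ 6) := by gcongr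
      _ ≤ _ := htop
  have bc' : |(cC x y α β γ δ : ℝ)| ≤ t ^ 750 := by
    calc |(cC x y α β γ δ : ℝ)| ≤ 18 * A * (q1 * q2 ^ 2) := bc
      _ ≤ 18 * A * (2 * (2 * t ^ 2) ^ 2) := by gcongr
      _ = 144 * (A * t ^ 4) := by ring
      _ ≤ 144 * (A * t ^ 6) := by gcongr
      _ ≤ _ := htop
  have be' : |(cE x y α β : ℝ)| ≤ t ^ 750 := by
    calc |(cE x y α β : ℝ)| ≤ 6 * A * q2 ^ 3 := be
      _ ≤ 6 * A * (2 * t ^ 2) ^ 3 := by gcongr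
      _ = 48 * (A * t ^ 6) := by ring
      _ ≤ 144 * (A * t ^ 6) := by gcongr; norm_num
      _ ≤ _ := htop
  have hγ' : |(γ : ℝ)| ≤ 2 * V * t ^ 2 := by
    calc |(γ : ℝ)| ≤ V * q1 := hγ
      _ ≤ V * 2 := by gcongr
      _ = 2 * V * 1 := by ring
      _ ≤ 2 * V * t ^ 2 := by gcongr
  have hα' : |(α : ℝ)| ≤ 2 * V * t ^ 2 := by
    calc |(α : ℝ)| ≤ V * q2 := hα
      _ ≤ V * (2 * t ^ 2) := by gcongr
      _ = 2 * V * t ^ 2 := by ring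
  -- lower bound for the larger of the two
  have hmax : V / (4 * t ^ 2) ≤ max |(α : ℝ)| |(γ : ℝ)| := by
    have h1 : (α : ℝ) * (δ + S * γ) - γ * (β + S * α) = 1 := by
      have : (α : ℝ) * δ - β * γ = 1 := by exact_mod_cast hdet
      linear_combination this
    have h2 : (1 : ℝ) ≤ |(α : ℝ)| * (q1 / V) + |(γ : ℝ)| * (q2 / V) := by
      calc (1 : ℝ) = |(α : ℝ) * (δ + S * γ) - γ * (β + S * α)| := by rw [h1, abs_one]
        _ ≤ |(α : ℝ) * (δ + S * γ)| + |γ * (β + S * α)| := abs_sub _ _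
        _ = |(α : ℝ)| * |(δ : ℝ) + S * γ| + |(γ : ℝ)| * |(β : ℝ) + S * α| := by
            rw [abs_mul, abs_mul]
        _ ≤ _ := by gcongr
    rw [div_le_iff₀ (by positivity)]
    have h3 : V ≤ |(α : ℝ)| * q1 + |(γ : ℝ)| * q2 := by
      have h4 : |(α : ℝ)| * (q1 / V) + |(γ : ℝ)| * (q2 / V) =
          (|(α : ℝ)| * q1 + |(γ : ℝ)| * q2) / V := by ring
      rw [h4, le_div_iff₀ hV0] at h2
      linarith
    calc V ≤ |(α : ℝ)| * q1 + |(γ : ℝ)| * q2 := h3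
      _ ≤ max |(α : ℝ)| |(γ : ℝ)| * (2 * t ^ 2) + max |(α : ℝ)| |(γ : ℝ)| * (2 * t ^ 2) := by
          have hm0 : 0 ≤ max |(α : ℝ)| |(γ : ℝ)| := le_trans (abs_nonneg _) (le_max_left _ _)
          have e1 : q1 ≤ 2 * t ^ 2 := by linarith
          have m1 : |(α : ℝ)| ≤ max |(α : ℝ)| |(γ : ℝ)| := le_max_left _ _
          have m2 : |(γ : ℝ)| ≤ max |(α : ℝ)| |(γ : ℝ)| := le_max_right _ _
          gcongr
      _ = max |(α : ℝ)| |(γ : ℝ)| * (4 * t ^ 2) := by ring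
  -- the scale `n`
  have ht3V : t ^ 3 ≤ V := le_trans (pow_le_pow_right₀ ht1 (by norm_num)) hV1
  have hbig4 : t ≤ V / (4 * t ^ 2) * 4 := by
    rw [div_mul_eq_mul_div, le_div_iff₀ (by positivity)]
    nlinarith
  have hbig : 36 ≤ V / (4 * t ^ 2) := by linarith
  have hbase : 1 < t ^ 250 := one_lt_pow₀ (by linarith) (by norm_num)
  obtain ⟨n', hn1, hn2⟩ := exists_nat_pow_near (by linarith : 1 ≤ V / (4 * t ^ 2)) hbase
  have hn'C : n' ≤ 6 * C := by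
    have h1 : (t ^ 250) ^ n' ≤ V := by
      refine hn1.trans ?_
      apply div_le_self hV0.le
      nlinarith
    have h2 : V ≤ S := by
      rw [hSV]
      nlinarith
    have h4 : t ^ (250 * n') ≤ t ^ (1486 * C) := by
      rw [pow_mul]
      linarith
    have h5 : 250 * n' ≤ 1486 * C := (pow_le_pow_iff_right₀ (by linarith)).1 h4
    omega
  have hlow : t ^ (250 * (n' + 1 - 1)) ≤ max |(α : ℝ)| |(γ : ℝ)| := by
    rw [Nat.add_sub_cancel, pow_mul]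
    exact hn1.trans hmax
  have hup : 2 * V * t ^ 2 ≤ t ^ (250 * (n' + 1) + 15) := by
    have h1 : V < (t ^ 250) ^ (n' + 1) * (4 * t ^ 2) := by
      rwa [div_lt_iff₀ (by positivity)] at hn2
    calc 2 * V * t ^ 2 ≤ 2 * ((t ^ 250) ^ (n' + 1) * (4 * t ^ 2)) * t ^ 2 := by gcongr
      _ = 8 * (t ^ 4 * (t ^ 250) ^ (n' + 1)) := by ring
      _ ≤ t * (t ^ 4 * (t ^ 250) ^ (n' + 1)) := by gcongr; linarith
      _ = t ^ (250 * (n' + 1) + 5) := by rw [← pow_mul]; ring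
      _ ≤ t ^ (250 * (n' + 1) + 15) := pow_le_pow_right₀ ht1 (by omega)
  have hmax2 : 2 ≤ max |(α : ℝ)| |(γ : ℝ)| := by linarith
  refine ⟨n' + 1, by omega, by omega, ?_⟩
  rcases le_total |(α : ℝ)| |(γ : ℝ)| with hle | hle
  · rw [max_eq_right hle] at hlow hmax2
    refine ⟨cA x y γ δ, cB x y α β γ δ, cC x y α β γ δ, cE x y α β, α, γ, ?_, ba', bb', bc', hle,
      hlow, hγ'.trans hup, hval, hdisc'⟩
    intro h0
    rw [h0] at hval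
    have h1 : γ ∣ 1 := ⟨cB x y α β γ δ * α ^ 2 + cC x y α β γ δ * α * γ + cE x y α β * γ ^ 2, by
      linear_combination -hval⟩
    have h2 := Int.natAbs_dvd_natAbs.2 h1
    have h3 : |γ| = 1 := by
      rw [Int.natAbs_one, Nat.dvd_one] at h2
      rw [Int.abs_eq_natAbs, h2]; rfl
    have h4 : |(γ : ℝ)| = 1 := by exact_mod_cast h3
    linarith
  · rw [max_eq_left hle] at hlow hmax2
    refine ⟨cE x y α β, cC x y α β γ δ, cB x y α β γ δ, cA x y γ δ, γ, α, ?_, be', bc', bb', hle,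
      hlow, hα'.trans hup, by linear_combination hval, by rw [disc_symm]; exact hdisc'⟩
    intro h0
    rw [h0] at hval
    have h1 : α ∣ 1 := ⟨cA x y γ δ * α ^ 2 + cB x y α β γ δ * α * γ + cC x y α β γ δ * γ ^ 2, by
      linear_combination -hval⟩
    have h2 := Int.natAbs_dvd_natAbs.2 h1
    have h3 : |α| = 1 := by
      rw [Int.natAbs_one, Nat.dvd_one] at h2
      rw [Int.abs_eq_natAbs, h2]; rfl
    have h4 : |(α : ℝ)| = 1 := by exact_mod_cast h3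
    linarith

end Pool.Helper30.Hall
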