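import Mathlib
import Pool.Agent.Helper30.Hall.Point

/-! Counting the discriminants of type `P2`. -/

namespace Pool.Helper30.Hall

open Finset

theorem mem_Icc_of_abs_le {z : ℤ} {Z : ℝ} (h : |(z : ℝ)| ≤ Z) :
    z ∈ Finset.Icc (-((⌊Z⌋₊ : ℕ) : ℤ)) (⌊Z⌋₊ : ℕ) := by
  rw [Finset.mem_Icc, ← abs_le]
  have h1 : (z.natAbs : ℝ) ≤ Z := by
    rw [Nat.cast_natAbs]; exact_mod_cast h
  have h2 : z.natAbs ≤ ⌊Z⌋₊ := Nat.le_floor h1
  rw [Int.abs_eq_natAbs]
  exact_mod_cast h2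

theorem card_Icc_floor {Z : ℝ} (hZ : 0 ≤ Z) :
    ((Finset.Icc (-((⌊Z⌋₊ : ℕ) : ℤ)) (⌊Z⌋₊ : ℕ)).card : ℝ) ≤ 2 * Z + 1 := by
  rw [Int.card_Icc]
  have : (((⌊Z⌋₊ : ℕ) : ℤ) + 1 - -((⌊Z⌋₊ : ℕ) : ℤ)).toNat = 2 * ⌊Z⌋₊ + 1 := by omega
  rw [this]
  push_cast
  have := Nat.floor_le hZ
  linarith

/-- pairs with bounded product -/
theorem pairs_count (Z : ℝ) (hZ : 1 ≤ Z) (P : Finset (ℤ × ℤ))
    (hP : ∀ p ∈ P, p.1 ≠ 0 ∧ |(p.1 : ℝ)| * |(p.2 : ℝ)| ≤ Z ∧ |(p.1 : ℝ)| ≤ Z) :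
    (P.card : ℝ) ≤ 6 * Z * (1 + Real.log Z) := by
  classical
  set N := ⌊Z⌋₊ with hN
  have hNZ : (N : ℝ) ≤ Z := Nat.floor_le (by linarith)
  have hN1 : 1 ≤ N := by
    rw [hN]; exact Nat.one_le_floor_iff Z |>.2 hZ
  have hmaps : ∀ p ∈ P, p.1.natAbs ∈ Finset.Icc 1 N := by
    intro p hp
    obtain ⟨h1, _, h3⟩ := hP p hp
    rw [Finset.mem_Icc]
    refine ⟨Nat.one_le_iff_ne_zero.2 (Int.natAbs_ne_zero.2 h1), ?_⟩
    apply Nat.le_floor
    rw [Nat.cast_natAbs]; exact_mod_cast h3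
  have hfib : ∀ m ∈ Finset.Icc 1 N, ((P.filter (fun p => p.1.natAbs = m)).card : ℝ) ≤
      2 * (2 * (Z / m) + 1) := by
    intro m hm
    rw [Finset.mem_Icc] at hm
    have hm0 : (0 : ℝ) < m := by exact_mod_cast hm.1
    have hsub : P.filter (fun p => p.1.natAbs = m) ⊆ ({(m : ℤ), -(m : ℤ)} : Finset ℤ) ×ˢ
        Finset.Icc (-((⌊Z / m⌋₊ : ℕ) : ℤ)) (⌊Z / m⌋₊ : ℕ) := by
      intro p hp
      rw [Finset.mem_filter] at hp
      obtain ⟨hp1, hp2⟩ := hp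
      rw [Finset.mem_product]
      constructor
      · rw [Finset.mem_insert, Finset.mem_singleton]
        rcases Int.natAbs_eq p.1 with h | h
        · left; rw [h, hp2]
        · right; rw [h, hp2]
      · apply mem_Icc_of_abs_le
        rw [le_div_iff₀ hm0]
        have h1 := (hP p hp1).2.1
        have h2 : |(p.1 : ℝ)| = m := by
          rw [← hp2, Nat.cast_natAbs]; push_cast; rfl
        rw [h2] at h1
        linarith
    have h1 := Finset.card_le_card hsub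
    rw [Finset.card_product] at h1
    have h2 : (({(m : ℤ), -(m : ℤ)} : Finset ℤ).card : ℝ) ≤ 2 := by
      exact_mod_cast Finset.card_le_two
    calc ((P.filter (fun p => p.1.natAbs = m)).card : ℝ)
        ≤ (({(m : ℤ), -(m : ℤ)} : Finset ℤ).card : ℝ) *
          ((Finset.Icc (-((⌊Z / m⌋₊ : ℕ) : ℤ)) (⌊Z / m⌋₊ : ℕ)).card : ℝ) := by exact_mod_cast h1
      _ ≤ 2 * (2 * (Z / m) + 1) := by
          have := card_Icc_floor (Z := Z / m) (by positivity)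
          gcongr
  have hcard : P.card = ∑ m ∈ Finset.Icc 1 N, (P.filter (fun p => p.1.natAbs = m)).card :=
    Finset.card_eq_sum_card_fiberwise hmaps
  have hharm : (∑ m ∈ Finset.Icc 1 N, ((m : ℝ))⁻¹) ≤ 1 + Real.log Z := by
    have h1 : ((harmonic N : ℚ) : ℝ) ≤ 1 + Real.log N := harmonic_le_one_add_log N
    have h2 : ((harmonic N : ℚ) : ℝ) = ∑ m ∈ Finset.Icc 1 N, ((m : ℝ))⁻¹ := by
      rw [harmonic_eq_sum_Icc]; push_cast; rfl
    rw [← h2]
    refine h1.trans ?_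
    have : Real.log N ≤ Real.log Z := Real.log_le_log (by exact_mod_cast hN1) hNZ
    linarith
  have hlog : 0 ≤ Real.log Z := Real.log_nonneg hZ
  calc (P.card : ℝ) = ∑ m ∈ Finset.Icc 1 N, ((P.filter (fun p => p.1.natAbs = m)).card : ℝ) := by
        rw [hcard]; push_cast; rfl
    _ ≤ ∑ m ∈ Finset.Icc 1 N, 2 * (2 * (Z / m) + 1) := Finset.sum_le_sum hfib
    _ = 4 * Z * (∑ m ∈ Finset.Icc 1 N, ((m : ℝ))⁻¹) + 2 * N := by
        rw [Finset.mul_sum, ← Finset.mul_sum, Finset.sum_add_distrib, ← Finset.mul_sum]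
        simp only [div_eq_mul_inv, ← Finset.mul_sum]
        simp only [Finset.sum_const, Nat.card_Icc, nsmul_eq_mul, mul_one]
        rw [Nat.add_sub_cancel]
        ring
    _ ≤ 4 * Z * (1 + Real.log Z) + 2 * Z := by gcongr
    _ ≤ 6 * Z * (1 + Real.log Z) := by nlinarith

/-- pairs with bounded product, first coordinate possibly zero -/
theorem pairs_count' (Z : ℝ) (hZ : 1 ≤ Z) (P : Finset (ℤ × ℤ))
    (hP : ∀ p ∈ P, |(p.1 : ℝ)| * |(p.2 : ℝ)| ≤ Z ∧ |(p.1 : ℝ)| ≤ Z ∧ |(p.2 : ℝ)| ≤ Z) :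
    (P.card : ℝ) ≤ 9 * Z * (1 + Real.log Z) := by
  classical
  have h1 : ((P.filter (fun p => p.1 = 0)).card : ℝ) ≤ 3 * Z := by
    have hsub : P.filter (fun p => p.1 = 0) ⊆ ({0} : Finset ℤ) ×ˢ
        Finset.Icc (-((⌊Z⌋₊ : ℕ) : ℤ)) (⌊Z⌋₊ : ℕ) := by
      intro p hp
      rw [Finset.mem_filter] at hp
      rw [Finset.mem_product, Finset.mem_singleton]
      exact ⟨hp.2, mem_Icc_of_abs_le (hP p hp.1).2.2⟩
    have h2 := Finset.card_le_card hsub
    rw [Finset.card_product, Finset.card_singleton, one_mul] at h2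
    calc ((P.filter (fun p => p.1 = 0)).card : ℝ)
        ≤ ((Finset.Icc (-((⌊Z⌋₊ : ℕ) : ℤ)) (⌊Z⌋₊ : ℕ)).card : ℝ) := by exact_mod_cast h2
      _ ≤ 2 * Z + 1 := card_Icc_floor (by linarith)
      _ ≤ 3 * Z := by linarith
  have h2 : ((P.filter (fun p => ¬ p.1 = 0)).card : ℝ) ≤ 6 * Z * (1 + Real.log Z) := by
    apply pairs_count Z hZ
    intro p hp
    rw [Finset.mem_filter] at hp
    exact ⟨hp.2, (hP p hp.1).1, (hP p hp.1).2.1⟩
  have h3 := Finset.card_filter_add_card_filter_not (s := P) (fun p => p.1 = 0)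
  have h4 : (P.card : ℝ) = ((P.filter (fun p => p.1 = 0)).card : ℝ) +
      ((P.filter (fun p => ¬ p.1 = 0)).card : ℝ) := by exact_mod_cast h3.symm
  have hlog : 0 ≤ Real.log Z := Real.log_nonneg hZ
  rw [h4]
  nlinarith

theorem region_count (Z : ℝ) (hZ : 1 ≤ Z) (P : Finset (ℤ × ℤ × ℤ × ℤ)) (hP : ∀ F ∈ P, Region Z F) :
    (P.card : ℝ) ≤ 54 * Z ^ 2 * (1 + Real.log Z) ^ 2 := by
  classical
  let φ : ℤ × ℤ × ℤ × ℤ → (ℤ × ℤ) × (ℤ × ℤ) := fun F => ((F.1, F.2.2.2), (F.2.1, F.2.2.1))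
  have hφ : Function.Injective φ := by
    rintro ⟨a, b, c, e⟩ ⟨a', b', c', e'⟩ h
    simp only [φ, Prod.mk.injEq] at h
    obtain ⟨⟨h1, h2⟩, h3, h4⟩ := h
    rw [h1, h2, h3, h4]
  set P1 := P.image (fun F => (φ F).1) with hP1
  set P2 := P.image (fun F => (φ F).2) with hP2
  have hsub : P.image φ ⊆ P1 ×ˢ P2 := by
    intro q hq
    rw [Finset.mem_image] at hq
    obtain ⟨F, hF, rfl⟩ := hq
    rw [Finset.mem_product]
    exact ⟨Finset.mem_image_of_mem _ hF, Finset.mem_image_of_mem _ hF⟩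
  have h1 : P.card ≤ P1.card * P2.card := by
    rw [← Finset.card_image_of_injective P hφ, ← Finset.card_product]
    exact Finset.card_le_card hsub
  have h2 : (P1.card : ℝ) ≤ 6 * Z * (1 + Real.log Z) := by
    apply pairs_count Z hZ
    intro p hp
    rw [hP1, Finset.mem_image] at hp
    obtain ⟨F, hF, rfl⟩ := hp
    obtain ⟨r1, r2, r3, r4, r5, r6⟩ := hP F hF
    exact ⟨r1, r2, r4⟩
  have h3 : (P2.card : ℝ) ≤ 9 * Z * (1 + Real.log Z) := by
    apply pairs_count' Z hZ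
    intro p hp
    rw [hP2, Finset.mem_image] at hp
    obtain ⟨F, hF, rfl⟩ := hp
    obtain ⟨r1, r2, r3, r4, r5, r6⟩ := hP F hF
    exact ⟨r3, r5, r6⟩
  have hlog : 0 ≤ Real.log Z := Real.log_nonneg hZ
  calc (P.card : ℝ) ≤ P1.card * P2.card := by exact_mod_cast h1
    _ ≤ (6 * Z * (1 + Real.log Z)) * (9 * Z * (1 + Real.log Z)) := by gcongr
    _ = _ := by ring

theorem count2 : ∃ K : ℝ, 0 ≤ K ∧ ∀ t : ℝ, 2 ≤ t → ∀ E : Finset ℤ, (∀ d ∈ E, P2 t d) →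
    (E.card : ℝ) ≤ K * t ^ 2969 := by
  classical
  refine ⟨108 * 4000 ^ 2 * 9000000, by positivity, fun t ht E hE => ?_⟩
  have ht0 : 0 < t := by linarith
  have ht1 : 1 ≤ t := by linarith
  set Z : ℝ := 4000 * t ^ 1486 with hZ
  have hp1 : (1 : ℝ) ≤ t ^ 1486 := one_le_pow₀ ht1
  have hZ1 : 1 ≤ Z := by rw [hZ]; linarith
  set M : ℕ := ⌊t ^ 4⌋₊ with hM
  choose! F hF1 hF2 using hE
  let ψ : ℤ × ℕ → ℤ × ℤ × ℤ × ℤ := fun p => F p.1 p.2
  set P := (E ×ˢ range M).image ψ with hP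
  have hinj : Set.InjOn ψ (E ×ˢ range M : Finset (ℤ × ℕ)) := by
    rintro ⟨d, k⟩ hd ⟨d', k'⟩ hd' h
    simp only [Finset.coe_product, Finset.coe_range, Set.mem_prod, Finset.mem_coe, Set.mem_Iio] at hd hd'
    simp only [ψ] at h
    have e1 := (hF1 d hd.1 k hd.2).2
    have e2 := (hF1 d' hd'.1 k' hd'.2).2
    rw [← h, e1] at e2
    have hdd : d = d' := by linarith
    subst hdd
    have := hF2 d hd.1 k hd.2 k' hd'.2 h
    rw [this]
  have hcardP : P.card = E.card * M := by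
    rw [hP, Finset.card_image_of_injOn hinj, Finset.card_product, Finset.card_range]
  have hreg := region_count Z hZ1 P (by
    intro G hG
    rw [hP, Finset.mem_image] at hG
    obtain ⟨⟨d, k⟩, hdk, rfl⟩ := hG
    rw [Finset.mem_product, Finset.mem_range] at hdk
    exact (hF1 d hdk.1 k hdk.2).1)
  rw [hcardP] at hreg
  push_cast at hreg
  have hMr : t ^ 4 / 2 ≤ (M : ℝ) := by
    have h1 := Nat.lt_floor_add_one (t ^ 4)
    have h2 : (2 : ℝ) ^ 4 ≤ t ^ 4 := by gcongr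
    rw [← hM] at h1
    norm_num at h2
    linarith
  have hlog : 1 + Real.log Z ≤ 3000 * Real.sqrt t := by
    have hs1 : 1 ≤ Real.sqrt t := Real.one_le_sqrt.2 ht1
    have h1 : Real.log Z = Real.log 4000 + 1486 * Real.log t := by
      rw [hZ, Real.log_mul (by norm_num) (by positivity), Real.log_pow]
      push_cast; ring
    have h2 : Real.log 4000 ≤ 12 := by
      have h3 : (4000 : ℝ) ≤ 2 ^ 12 := by norm_num
      calc Real.log 4000 ≤ Real.log (2 ^ 12) := Real.log_le_log (by norm_num) h3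
        _ = 12 * Real.log 2 := by rw [Real.log_pow]; push_cast; ring
        _ ≤ 12 * 1 := by
            gcongr
            have := Real.log_two_lt_d9
            linarith
        _ = 12 := by norm_num
    have h4 : Real.log t ≤ 2 * Real.sqrt t := by
      have h5 : Real.log t = 2 * Real.log (Real.sqrt t) := by
        rw [Real.log_sqrt ht0.le]; ring
      rw [h5]
      have := Real.log_le_self (Real.sqrt_nonneg t)
      linarith
    rw [h1]
    nlinarith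
  have hlog0 : 0 ≤ 1 + Real.log Z := by
    have := Real.log_nonneg hZ1
    linarith
  have hlogsq : (1 + Real.log Z) ^ 2 ≤ 9000000 * t := by
    calc (1 + Real.log Z) ^ 2 ≤ (3000 * Real.sqrt t) ^ 2 := by gcongr
      _ = 9000000 * t := by rw [mul_pow, Real.sq_sqrt ht0.le]; norm_num
  have hfin : (E.card : ℝ) * (t ^ 4 / 2) ≤ 54 * Z ^ 2 * (9000000 * t) := by
    calc (E.card : ℝ) * (t ^ 4 / 2) ≤ E.card * M := by gcongr
      _ ≤ 54 * Z ^ 2 * (1 + Real.log Z) ^ 2 := hreg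
      _ ≤ _ := by gcongr
  have h5 : 54 * Z ^ 2 * (9000000 * t) = (108 * 4000 ^ 2 * 9000000 * t ^ 2969) * (t ^ 4 / 2) := by
    rw [hZ]; ring
  rw [h5] at hfin
  exact le_of_mul_le_mul_right hfin (by positivity)

end Pool.Helper30.Hall
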