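import Mathlib
import Pool.Agent.Helper30.Hall.Point
import Pool.Agent.Helper30.Hall.Count2

/-! Counting the remaining `d`: type `P0` and small `x`. -/

namespace Pool.Helper30.Hall

open Finset

theorem count0 (t : ℝ) (ht : 144 ≤ t) (E : Finset ℤ)
    (hE : ∀ d ∈ E, d ≠ 0 ∧ |(d : ℝ)| ≤ t ^ 2972 ∧ P0 t d) : (E.card : ℝ) ≤ 25 * t ^ 1488 := by
  classical
  have ht0 : 0 < t := by linarith
  have ht1 : 1 ≤ t := by linarith
  have key : ∀ d ∈ E, ∃ p : ℤ × ℤ, |(p.1 : ℝ)| ≤ 2 * t ^ 1486 ∧ |(p.2 : ℝ)| ≤ 2 * t ^ 2 ∧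
      4 * d = p.2 ^ 2 * (p.1 ^ 2 - 4 * (p.1 ^ 2 - p.2)) := by
    intro d hd
    obtain ⟨hd0, hdD, x, N, hx, h4d⟩ := hE d hd
    set m := N ^ 2 - x with hm
    have hm0 : m ≠ 0 := by
      intro h
      rw [h] at h4d
      apply hd0
      linarith
    have hk0 : N ^ 2 - 4 * x ≠ 0 := by
      intro h
      rw [h] at h4d
      apply hd0
      linarith
    have hm1 : (1 : ℝ) ≤ |(m : ℝ)| := by exact_mod_cast Int.one_le_abs hm0
    have hk1 : (1 : ℝ) ≤ |((N ^ 2 - 4 * x : ℤ) : ℝ)| := by exact_mod_cast Int.one_le_abs hk0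
    have hprod : |(m : ℝ)| ^ 2 * |((N ^ 2 - 4 * x : ℤ) : ℝ)| ≤ 4 * t ^ 2972 := by
      have h1 : (4 : ℝ) * d = (m : ℝ) ^ 2 * ((N ^ 2 - 4 * x : ℤ) : ℝ) := by exact_mod_cast h4d
      calc |(m : ℝ)| ^ 2 * |((N ^ 2 - 4 * x : ℤ) : ℝ)| = |(4 : ℝ) * d| := by
            rw [h1, abs_mul, abs_pow]
        _ = 4 * |(d : ℝ)| := by rw [abs_mul]; norm_num
        _ ≤ 4 * t ^ 2972 := by gcongr
    have hxpos : (0 : ℝ) < x := lt_of_lt_of_le (by positivity) hx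
    have hx1 : 1 ≤ (x : ℝ) := le_trans (one_le_pow₀ ht1) hx
    have hN2 : (N : ℝ) ^ 2 < 2 * x := by
      by_contra hcon
      push Not at hcon
      have h1 : (x : ℝ) ≤ |(m : ℝ)| := by
        have : (m : ℝ) = (N : ℝ) ^ 2 - x := by rw [hm]; push_cast; ring
        rw [this]
        refine le_trans ?_ (le_abs_self _)
        linarith
      have h2 : (x : ℝ) ^ 2 ≤ 4 * t ^ 2972 := by
        calc (x : ℝ) ^ 2 ≤ |(m : ℝ)| ^ 2 := by gcongr
          _ = |(m : ℝ)| ^ 2 * 1 := (mul_one _).symm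
          _ ≤ |(m : ℝ)| ^ 2 * |((N ^ 2 - 4 * x : ℤ) : ℝ)| := by gcongr
          _ ≤ _ := hprod
      have h3 : t ^ 5936 ≤ 4 * t ^ 2972 := by
        calc t ^ 5936 = (t ^ 2968) ^ 2 := by rw [← pow_mul]
          _ ≤ (x : ℝ) ^ 2 := by gcongr
          _ ≤ _ := h2
      have h4 : t ^ 5936 = t ^ 2964 * t ^ 2972 := by rw [← pow_add]
      have h5 : 4 < t ^ 2964 := by
        calc (4 : ℝ) < t := by linarith
          _ = t ^ 1 := (pow_one t).symm
          _ ≤ t ^ 2964 := pow_le_pow_right₀ ht1 (by norm_num)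
      rw [h4] at h3
      have h6 : 0 < t ^ 2972 := by positivity
      have := le_of_mul_le_mul_right h3 h6
      linarith
    have hbig : 2 * (x : ℝ) ≤ |((N ^ 2 - 4 * x : ℤ) : ℝ)| := by
      have e : ((N ^ 2 - 4 * x : ℤ) : ℝ) = -(4 * (x : ℝ) - (N : ℝ) ^ 2) := by push_cast; ring
      rw [e, abs_neg]
      refine le_trans ?_ (le_abs_self _)
      linarith
    have hD0 : (0 : ℝ) < t ^ 2972 := by positivity
    have hm2 : |(m : ℝ)| ^ 2 * (2 * x) ≤ 4 * t ^ 2972 := by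
      calc |(m : ℝ)| ^ 2 * (2 * x) ≤ |(m : ℝ)| ^ 2 * |((N ^ 2 - 4 * x : ℤ) : ℝ)| := by gcongr
        _ ≤ _ := hprod
    refine ⟨(N, m), ?_, ?_, ?_⟩
    · -- bound for N
      have h1 : (1 : ℝ) * (2 * x) ≤ 4 * t ^ 2972 := by
        calc (1 : ℝ) * (2 * x) ≤ |(m : ℝ)| ^ 2 * (2 * x) := by
              gcongr
              exact one_le_pow₀ hm1
          _ ≤ _ := hm2
      apply abs_le_of_sq_le_sq _ (by positivity)
      have h2 : (2 * t ^ 1486) ^ 2 = 4 * t ^ 2972 := by ring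
      rw [h2]
      linarith
    · apply abs_le_of_sq_le_sq _ (by positivity)
      have h1 : |(m : ℝ)| ^ 2 * (2 * t ^ 2968) ≤ (4 * t ^ 4 / 2) * (2 * t ^ 2968) := by
        calc |(m : ℝ)| ^ 2 * (2 * t ^ 2968) ≤ |(m : ℝ)| ^ 2 * (2 * x) := by gcongr
          _ ≤ 4 * t ^ 2972 := hm2
          _ = (4 * t ^ 4 / 2) * (2 * t ^ 2968) := by ring
      have h2 := le_of_mul_le_mul_right h1 (by positivity)
      rw [sq_abs] at h2
      have h3 : 0 ≤ t ^ 4 := by positivity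
      have h4 : (2 * t ^ 2) ^ 2 = 4 * t ^ 4 := by ring
      rw [h4]
      linarith
    · simp only
      have : N ^ 2 - m = x := by rw [hm]; ring
      rw [this]
      exact h4d
  choose! p hp1 hp2 hp3 using key
  have hinj : Set.InjOn p (E : Set ℤ) := by
    intro d hd d' hd' h
    have e1 := hp3 d hd
    have e2 := hp3 d' hd'
    rw [h] at e1
    linarith
  rw [← Finset.card_image_of_injOn hinj]
  have hsub : E.image p ⊆ Finset.Icc (-((⌊2 * t ^ 1486⌋₊ : ℕ) : ℤ)) (⌊2 * t ^ 1486⌋₊ : ℕ) ×ˢ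
      Finset.Icc (-((⌊2 * t ^ 2⌋₊ : ℕ) : ℤ)) (⌊2 * t ^ 2⌋₊ : ℕ) := by
    intro q hq
    rw [Finset.mem_image] at hq
    obtain ⟨d, hd, rfl⟩ := hq
    rw [Finset.mem_product]
    exact ⟨mem_Icc_of_abs_le (hp1 d hd), mem_Icc_of_abs_le (hp2 d hd)⟩
  have h1 := Finset.card_le_card hsub
  rw [Finset.card_product] at h1
  have h2 := card_Icc_floor (Z := 2 * t ^ 1486) (by positivity)
  have h3 := card_Icc_floor (Z := 2 * t ^ 2) (by positivity)
  have h4 : (1 : ℝ) ≤ t ^ 1486 := one_le_pow₀ ht1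
  have h5 : (1 : ℝ) ≤ t ^ 2 := one_le_pow₀ ht1
  calc ((E.image p).card : ℝ) ≤ ((Finset.Icc (-((⌊2 * t ^ 1486⌋₊ : ℕ) : ℤ)) (⌊2 * t ^ 1486⌋₊ : ℕ)).card : ℝ) *
        ((Finset.Icc (-((⌊2 * t ^ 2⌋₊ : ℕ) : ℤ)) (⌊2 * t ^ 2⌋₊ : ℕ)).card : ℝ) := by exact_mod_cast h1
    _ ≤ (2 * (2 * t ^ 1486) + 1) * (2 * (2 * t ^ 2) + 1) := by gcongr
    _ ≤ (5 * t ^ 1486) * (5 * t ^ 2) := by
        have a1 : 2 * (2 * t ^ 1486) + 1 ≤ 5 * t ^ 1486 := by linarith
        have a2 : 2 * (2 * t ^ 2) + 1 ≤ 5 * t ^ 2 := by linarith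
        gcongr
    _ = 25 * t ^ 1488 := by ring

/-- a set of integers of small diameter -/
theorem card_le_of_diam (Y : Finset ℤ) (W : ℝ) (hW : 0 ≤ W)
    (h : ∀ y ∈ Y, ∀ y' ∈ Y, |(y : ℝ) - y'| ≤ W) : (Y.card : ℝ) ≤ 2 * W + 1 := by
  rcases Y.eq_empty_or_nonempty with h0 | ⟨y0, hy0⟩
  · rw [h0]; simp only [Finset.card_empty, Nat.cast_zero]; linarith
  · have hinj : Set.InjOn (fun y : ℤ => y - y0) (Y : Set ℤ) := by
      intro a _ b _ hab
      simp only at hab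
      linarith
    rw [← Finset.card_image_of_injOn hinj]
    have hsub : Y.image (fun y : ℤ => y - y0) ⊆ Finset.Icc (-((⌊W⌋₊ : ℕ) : ℤ)) (⌊W⌋₊ : ℕ) := by
      intro q hq
      rw [Finset.mem_image] at hq
      obtain ⟨y, hy, rfl⟩ := hq
      apply mem_Icc_of_abs_le
      push_cast
      exact h y hy y0 hy0
    calc ((Y.image (fun y : ℤ => y - y0)).card : ℝ)
        ≤ ((Finset.Icc (-((⌊W⌋₊ : ℕ) : ℤ)) (⌊W⌋₊ : ℕ)).card : ℝ) := by
          exact_mod_cast Finset.card_le_card hsub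
      _ ≤ 2 * W + 1 := card_Icc_floor hW

/-- Counting `d` through `x` in an interval, given a bound for the spread of `y`. -/
theorem count_range (X W : ℝ) (hX : 1 ≤ X) (hW : 0 ≤ W) (E : Finset ℤ) (x y : ℤ → ℤ)
    (hx : ∀ d ∈ E, |(x d : ℝ)| ≤ X) (hxy : ∀ d ∈ E, (y d) ^ 2 = (x d) ^ 3 + d)
    (hsp : ∀ d ∈ E, ∀ d' ∈ E, x d = x d' → |(y d : ℝ) - y d'| ≤ W) :
    (E.card : ℝ) ≤ 3 * X * (2 * W + 1) := by
  classical
  set T := Finset.Icc (-((⌊X⌋₊ : ℕ) : ℤ)) (⌊X⌋₊ : ℕ) with hT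
  have hmaps : ∀ d ∈ E, x d ∈ T := fun d hd => mem_Icc_of_abs_le (hx d hd)
  have hfib : ∀ z ∈ T, ((E.filter (fun d => x d = z)).card : ℝ) ≤ 2 * W + 1 := by
    intro z _
    have hinj : Set.InjOn y (E.filter (fun d => x d = z) : Finset ℤ) := by
      intro d hd d' hd' h
      have hd1 := Finset.mem_filter.1 hd
      have hd2 := Finset.mem_filter.1 hd'
      have e1 := hxy d hd1.1
      have e2 := hxy d' hd2.1
      rw [hd1.2, h] at e1
      rw [hd2.2] at e2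
      linarith
    rw [← Finset.card_image_of_injOn hinj]
    apply card_le_of_diam _ _ hW
    intro a ha b hb
    rw [Finset.mem_image] at ha hb
    obtain ⟨d, hd, rfl⟩ := ha
    obtain ⟨d', hd', rfl⟩ := hb
    have hd1 := Finset.mem_filter.1 hd
    have hd2 := Finset.mem_filter.1 hd'
    exact hsp d hd1.1 d' hd2.1 (by rw [hd1.2, hd2.2])
  have hcard : E.card = ∑ z ∈ T, (E.filter (fun d => x d = z)).card :=
    Finset.card_eq_sum_card_fiberwise hmaps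
  calc (E.card : ℝ) = ∑ z ∈ T, ((E.filter (fun d => x d = z)).card : ℝ) := by
        rw [hcard]; push_cast; rfl
    _ ≤ ∑ z ∈ T, (2 * W + 1) := Finset.sum_le_sum hfib
    _ = T.card * (2 * W + 1) := by rw [Finset.sum_const, nsmul_eq_mul]
    _ ≤ (2 * X + 1) * (2 * W + 1) := by
        have := card_Icc_floor (Z := X) (by linarith)
        gcongr
    _ ≤ 3 * X * (2 * W + 1) := by
        gcongr
        linarith

/-- spread of `y` when `x` is large -/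
theorem spread_large (t : ℝ) (ht : 2 ≤ t) (h w : ℕ) (hh : 2973 ≤ 2 * h) (hw : 2972 ≤ h + w)
    (x y y' d d' : ℤ) (hx : t ^ (2 * h) ≤ (x : ℝ) ^ 3) (hd : |(d : ℝ)| ≤ t ^ 2972)
    (hd' : |(d' : ℝ)| ≤ t ^ 2972) (hy : 0 ≤ y) (hy' : 0 ≤ y') (h1 : y ^ 2 = x ^ 3 + d)
    (h2 : y' ^ 2 = x ^ 3 + d') : |(y : ℝ) - y'| ≤ 2 * t ^ w := by
  have ht0 : 0 < t := by linarith
  have ht1 : 1 ≤ t := by linarith
  have e1 : ((y : ℝ)) ^ 2 = (x : ℝ) ^ 3 + d := by exact_mod_cast h1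
  have e2 : ((y' : ℝ)) ^ 2 = (x : ℝ) ^ 3 + d' := by exact_mod_cast h2
  have hdb := abs_le.1 hd
  have hdb' := abs_le.1 hd'
  have hy0 : (0 : ℝ) ≤ y := by exact_mod_cast hy
  have hy0' : (0 : ℝ) ≤ y' := by exact_mod_cast hy'
  have hbig : t ^ 2972 * 2 ≤ t ^ (2 * h) := by
    calc t ^ 2972 * 2 ≤ t ^ 2972 * t := by gcongr
      _ = t ^ 2973 := by rw [← pow_succ]
      _ ≤ t ^ (2 * h) := pow_le_pow_right₀ ht1 hh
  have hth : t ^ (2 * h) = (t ^ h) ^ 2 := by rw [mul_comm, pow_mul]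
  have hlow : ∀ z : ℝ, 0 ≤ z → t ^ (2 * h) / 2 ≤ z ^ 2 → t ^ h / 2 ≤ z := by
    intro z hz hz2
    apply le_of_sq_le_sq _ hz
    rw [hth] at hz2
    have : 0 ≤ (t ^ h) ^ 2 := by positivity
    nlinarith
  have l1 : t ^ h / 2 ≤ (y : ℝ) := hlow _ hy0 (by linarith)
  have l2 : t ^ h / 2 ≤ (y' : ℝ) := hlow _ hy0' (by linarith)
  have hprod : |(y : ℝ) - y'| * ((y : ℝ) + y') ≤ 2 * t ^ 2972 := by
    have e3 : ((y : ℝ) - y') * ((y : ℝ) + y') = d - d' := by linear_combination e1 - e2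
    calc |(y : ℝ) - y'| * ((y : ℝ) + y') = |((y : ℝ) - y') * ((y : ℝ) + y')| := by
          rw [abs_mul, abs_of_nonneg (by linarith : (0 : ℝ) ≤ y + y')]
      _ = |(d : ℝ) - d'| := by rw [e3]
      _ ≤ |(d : ℝ)| + |(d' : ℝ)| := abs_sub _ _
      _ ≤ 2 * t ^ 2972 := by linarith
  have h3 : |(y : ℝ) - y'| * t ^ h ≤ (2 * t ^ w) * t ^ h := by
    calc |(y : ℝ) - y'| * t ^ h ≤ |(y : ℝ) - y'| * ((y : ℝ) + y') := by gcongr; linarith
      _ ≤ 2 * t ^ 2972 := hprod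
      _ ≤ 2 * t ^ (h + w) := by
          have := pow_le_pow_right₀ ht1 hw
          linarith
      _ = (2 * t ^ w) * t ^ h := by rw [pow_add]; ring
  exact le_of_mul_le_mul_right h3 (by positivity)

/-- spread of `y` in general -/
theorem spread_small (t : ℝ) (ht : 2 ≤ t)
    (x y y' d d' : ℤ) (hd : |(d : ℝ)| ≤ t ^ 2972)
    (hd' : |(d' : ℝ)| ≤ t ^ 2972) (hy : 0 ≤ y) (hy' : 0 ≤ y') (h1 : y ^ 2 = x ^ 3 + d)
    (h2 : y' ^ 2 = x ^ 3 + d') : |(y : ℝ) - y'| ≤ 2 * t ^ 1486 := by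
  have e1 : ((y : ℝ)) ^ 2 = (x : ℝ) ^ 3 + d := by exact_mod_cast h1
  have e2 : ((y' : ℝ)) ^ 2 = (x : ℝ) ^ 3 + d' := by exact_mod_cast h2
  have hdb := abs_le.1 hd
  have hdb' := abs_le.1 hd'
  have hy0 : (0 : ℝ) ≤ y := by exact_mod_cast hy
  have hy0' : (0 : ℝ) ≤ y' := by exact_mod_cast hy'
  apply abs_le_of_sq_le_sq _ (by positivity)
  have h3 : (2 * t ^ 1486) ^ 2 = 4 * t ^ 2972 := by ring
  rw [h3]
  have hD : 0 < t ^ 2972 := by positivity
  rcases le_total (y : ℝ) y' with hle | hle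
  · have : ((y : ℝ) - y') ^ 2 ≤ (y' : ℝ) ^ 2 - (y : ℝ) ^ 2 := by nlinarith
    linarith
  · have : ((y : ℝ) - y') ^ 2 ≤ (y : ℝ) ^ 2 - (y' : ℝ) ^ 2 := by nlinarith
    linarith

/-- small `x` -/
theorem count_small (t : ℝ) (ht : 144 ≤ t) (E : Finset ℤ)
    (hE : ∀ d ∈ E, |(d : ℝ)| ≤ t ^ 2972 ∧ ∃ x y : ℤ, y ^ 2 = x ^ 3 + d ∧ (x : ℝ) ≤ t ^ 2968) :
    (E.card : ℝ) ≤ 60 * t ^ 2968 := by
  classical
  have ht0 : 0 < t := by linarith
  have ht1 : 1 ≤ t := by linarith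
  have ht2 : 2 ≤ t := by linarith
  have hE' : ∀ d ∈ E, |(d : ℝ)| ≤ t ^ 2972 ∧ ∃ x y : ℤ, y ^ 2 = x ^ 3 + d ∧ (x : ℝ) ≤ t ^ 2968 ∧ 0 ≤ y := by
    intro d hd
    obtain ⟨h1, x, y, h2, h3⟩ := hE d hd
    exact ⟨h1, x, |y|, by rw [sq_abs]; exact h2, h3, abs_nonneg _⟩
  choose! hd x y hxy hx hy using hE'
  -- negative `x` is small
  have hneg : ∀ d ∈ E, -(t ^ 991) ≤ (x d : ℝ) := by
    intro d hdE
    by_contra hcon
    push Not at hcon
    have e1 : ((y d : ℝ)) ^ 2 = (x d : ℝ) ^ 3 + d := by exact_mod_cast hxy d hdE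
    have h1 : (0 : ℝ) ≤ (x d : ℝ) ^ 3 + d := by rw [← e1]; positivity
    have h2 := (abs_le.1 (hd d hdE)).2
    have h3 : (t ^ 991) ^ 3 < (-(x d : ℝ)) ^ 3 := by
      apply pow_lt_pow_left₀ _ (by positivity) (by norm_num)
      linarith
    have h4 : (t ^ 991) ^ 3 = t * t ^ 2972 := by ring
    have h5 : (-(x d : ℝ)) ^ 3 = -(x d : ℝ) ^ 3 := by ring
    rw [h4, h5] at h3
    have h6 : 0 < t ^ 2972 := by positivity
    nlinarith
  -- the four ranges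
  set E0 := E.filter (fun d => (x d : ℝ) ≤ t ^ 1200) with hE0
  set E1 := E.filter (fun d => t ^ 1200 ≤ (x d : ℝ) ∧ (x d : ℝ) ≤ t ^ 1480) with hE1
  set E2 := E.filter (fun d => t ^ 1480 ≤ (x d : ℝ) ∧ (x d : ℝ) ≤ t ^ 2000) with hE2
  set E3 := E.filter (fun d => t ^ 2000 ≤ (x d : ℝ) ∧ (x d : ℝ) ≤ t ^ 2968) with hE3
  have hcover : E ⊆ E0 ∪ (E1 ∪ (E2 ∪ E3)) := by
    intro d hdE
    simp only [hE0, hE1, hE2, hE3, Finset.mem_union, Finset.mem_filter]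
    rcases le_total (x d : ℝ) (t ^ 1200) with h | h
    · left; exact ⟨hdE, h⟩
    · right
      rcases le_total (x d : ℝ) (t ^ 1480) with h' | h'
      · left; exact ⟨hdE, h, h'⟩
      · right
        rcases le_total (x d : ℝ) (t ^ 2000) with h'' | h''
        · left; exact ⟨hdE, h', h''⟩
        · right; exact ⟨hdE, h'', hx d hdE⟩
  have hone : ∀ k : ℕ, (1 : ℝ) ≤ t ^ k := fun k => one_le_pow₀ ht1
  have c0 : (E0.card : ℝ) ≤ 15 * t ^ 2968 := by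
    have := count_range (t ^ 1200) (2 * t ^ 1486) (hone _) (by positivity) E0 x y (by
      intro d hd'
      rw [hE0, Finset.mem_filter] at hd'
      rw [abs_le]
      refine ⟨?_, hd'.2⟩
      have h1 := hneg d hd'.1
      have h2 : t ^ 991 ≤ t ^ 1200 := pow_le_pow_right₀ ht1 (by norm_num)
      linarith) (fun d hd' => hxy d (Finset.mem_filter.1 hd').1) (by
      intro d hd1 d' hd2 hxx
      have m1 := (Finset.mem_filter.1 hd1).1
      have m2 := (Finset.mem_filter.1 hd2).1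
      exact spread_small t ht2 (x d) (y d) (y d') d d' (hd d m1) (hd d' m2) (hy d m1) (hy d' m2)
        (hxy d m1) (by rw [hxx]; exact hxy d' m2))
    refine this.trans ?_
    have h1 := hone 1486
    calc 3 * t ^ 1200 * (2 * (2 * t ^ 1486) + 1) ≤ 3 * t ^ 1200 * (5 * t ^ 1486) := by
          gcongr; linarith
      _ = 15 * t ^ 2686 := by ring
      _ ≤ 15 * t ^ 2968 :=
          mul_le_mul_of_nonneg_left (pow_le_pow_right₀ ht1 (by norm_num)) (by norm_num)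
  have crange : ∀ (p q h w : ℕ) (F : Finset ℤ), 3 * p = 2 * h → 2973 ≤ 2 * h → 2972 ≤ h + w →
      q + w ≤ 2968 → F ⊆ E → (∀ d ∈ F, t ^ p ≤ (x d : ℝ) ∧ (x d : ℝ) ≤ t ^ q) →
      (F.card : ℝ) ≤ 15 * t ^ 2968 := by
    intro p q h w F hph hh hhw hqw hFE hF
    have := count_range (t ^ q) (2 * t ^ w) (hone _) (by positivity) F x y (by
      intro d hd'
      obtain ⟨f1, f2⟩ := hF d hd'
      rw [abs_of_nonneg (le_trans (by positivity) f1)]
      exact f2) (fun d hd' => hxy d (hFE hd')) (by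
      intro d hd1 d' hd2 hxx
      have m1 := hFE hd1
      have m2 := hFE hd2
      have f1 := (hF d hd1).1
      refine spread_large t ht2 h w hh hhw (x d) (y d) (y d') d d' ?_ (hd d m1) (hd d' m2) (hy d m1)
        (hy d' m2) (hxy d m1) (by rw [hxx]; exact hxy d' m2)
      calc t ^ (2 * h) = (t ^ p) ^ 3 := by rw [← pow_mul, ← hph, mul_comm]
        _ ≤ (x d : ℝ) ^ 3 := by gcongr)
    refine this.trans ?_
    have h1 := hone w
    calc 3 * t ^ q * (2 * (2 * t ^ w) + 1) ≤ 3 * t ^ q * (5 * t ^ w) := by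
          gcongr; linarith
      _ = 15 * t ^ (q + w) := by ring
      _ ≤ 15 * t ^ 2968 :=
          mul_le_mul_of_nonneg_left (pow_le_pow_right₀ ht1 hqw) (by norm_num)
  have c1 := crange 1200 1480 1800 1172 E1 (by norm_num) (by norm_num) (by norm_num) (by norm_num)
    (Finset.filter_subset _ _) (fun d hd' => (Finset.mem_filter.1 hd').2)
  have c2 := crange 1480 2000 2220 752 E2 (by norm_num) (by norm_num) (by norm_num) (by norm_num)
    (Finset.filter_subset _ _) (fun d hd' => (Finset.mem_filter.1 hd').2)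
  have c3 := crange 2000 2968 3000 0 E3 (by norm_num) (by norm_num) (by norm_num) (by norm_num)
    (Finset.filter_subset _ _) (fun d hd' => (Finset.mem_filter.1 hd').2)
  have hcard : (E.card : ℝ) ≤ E0.card + (E1.card + (E2.card + E3.card)) := by
    have h1 := Finset.card_le_card hcover
    have h2 := Finset.card_union_le E0 (E1 ∪ (E2 ∪ E3))
    have h3 := Finset.card_union_le E1 (E2 ∪ E3)
    have h4 := Finset.card_union_le E2 E3
    have h5 : E.card ≤ E0.card + (E1.card + (E2.card + E3.card)) := by omega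
    exact_mod_cast h5
  linarith

end Pool.Helper30.Hall
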