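import Mathlib
import Pool.Agent.Helper30.Hall.Core
import Pool.Agent.Helper30.Hall.Point

/-! Counting the discriminants of type `P1`. -/

namespace Pool.Helper30.Hall

open Finset

theorem count1 (n : ℕ) (hn : 1 ≤ n) : ∃ t0 : ℝ, 1 ≤ t0 ∧ ∀ t : ℝ, t0 ≤ t → ∀ E : Finset ℤ,
    (∀ d ∈ E, P1 t n d) → (E.card : ℝ) ≤ 81 * t ^ 2967 := by
  classical
  obtain ⟨t0, ht0, hcore⟩ := core n hn
  refine ⟨t0, ht0, fun t ht E hE => ?_⟩
  have ht1 : 1 ≤ t := by linarith
  choose! a b c e u v ha0 ha hb hc huv hv1 hv2 hval hdisc using hE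
  set M : ℕ := ⌊t ^ 750⌋₊ with hM
  have hMr : (M : ℝ) ≤ t ^ 750 := Nat.floor_le (by positivity)
  have hbox : ∀ z : ℤ, |(z : ℝ)| ≤ t ^ 750 → z ∈ Finset.Icc (-(M : ℤ)) M := by
    intro z hz
    rw [Finset.mem_Icc, ← abs_le]
    have h1 : (z.natAbs : ℝ) ≤ t ^ 750 := by
      rw [Nat.cast_natAbs]; exact_mod_cast hz
    have h2 : z.natAbs ≤ M := Nat.le_floor h1
    rw [Int.abs_eq_natAbs]
    exact_mod_cast h2
  set T : Finset (ℤ × ℤ × ℤ) := Finset.Icc (-(M : ℤ)) M ×ˢ Finset.Icc (-(M : ℤ)) M ×ˢ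
    Finset.Icc (-(M : ℤ)) M with hT
  have hTcard : (T.card : ℝ) ≤ (3 * t ^ 750) ^ 3 := by
    have h1 : T.card = (2 * M + 1) ^ 3 := by
      rw [hT, Finset.card_product, Finset.card_product, Int.card_Icc]
      have : ((M : ℤ) + 1 - -(M : ℤ)).toNat = 2 * M + 1 := by omega
      rw [this]; ring
    have hM1 : (1 : ℝ) ≤ t ^ 750 := one_le_pow₀ ht1
    rw [h1]
    push_cast
    gcongr
    linarith
  set f : ℤ → ℤ × ℤ × ℤ := fun d => (a d, b d, c d) with hf
  have hmaps : ∀ d ∈ E, f d ∈ T := by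
    intro d hd
    simp only [hT, hf, Finset.mem_product]
    exact ⟨hbox _ (ha d hd), hbox _ (hb d hd), hbox _ (hc d hd)⟩
  have hfib : ∀ p ∈ T, ((E.filter (fun d => f d = p)).card : ℝ) ≤ 3 * t ^ 717 := by
    intro p _
    rcases (E.filter (fun d => f d = p)).eq_empty_or_nonempty with h0 | ⟨d0, hd0⟩
    · rw [h0]; simp only [Finset.card_empty, Nat.cast_zero]; positivity
    · rw [Finset.mem_filter] at hd0
      obtain ⟨p1, p2, p3⟩ := p
      have hp : ∀ d ∈ E.filter (fun d => f d = (p1, p2, p3)), a d = p1 ∧ b d = p2 ∧ c d = p3 := by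
        intro d hd
        have := (Finset.mem_filter.1 hd).2
        simp only [hf, Prod.mk.injEq] at this
        exact this
      have hinj : Set.InjOn e (E.filter (fun d => f d = (p1, p2, p3)) : Finset ℤ) := by
        intro d hd d' hd' hee
        have h1 := hp d hd
        have h2 := hp d' hd'
        have e1 := hdisc d (Finset.mem_filter.1 hd).1
        have e2 := hdisc d' (Finset.mem_filter.1 hd').1
        rw [h1.1, h1.2.1, h1.2.2] at e1
        rw [h2.1, h2.2.1, h2.2.2, ← hee] at e2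
        linarith
      rw [← Finset.card_image_of_injOn hinj]
      obtain ⟨q1, q2, q3⟩ := hp d0 (Finset.mem_filter.2 hd0)
      apply hcore t ht p1 p2 p3
      · rw [← q1]; exact ha0 d0 hd0.1
      · rw [← q1]; exact ha d0 hd0.1
      · rw [← q2]; exact hb d0 hd0.1
      · rw [← q3]; exact hc d0 hd0.1
      · intro e' he'
        rw [Finset.mem_image] at he'
        obtain ⟨d, hd, rfl⟩ := he'
        obtain ⟨r1, r2, r3⟩ := hp d hd
        have hdE := (Finset.mem_filter.1 hd).1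
        refine ⟨u d, v d, huv d hdE, hv1 d hdE, hv2 d hdE, ?_⟩
        rw [← r1, ← r2, ← r3]
        exact hval d hdE
  have hcard : E.card = ∑ p ∈ T, (E.filter (fun d => f d = p)).card :=
    Finset.card_eq_sum_card_fiberwise hmaps
  calc (E.card : ℝ) = ∑ p ∈ T, ((E.filter (fun d => f d = p)).card : ℝ) := by
        rw [hcard]; push_cast; rfl
    _ ≤ ∑ p ∈ T, 3 * t ^ 717 := Finset.sum_le_sum hfib
    _ = T.card * (3 * t ^ 717) := by simp
    _ ≤ (3 * t ^ 750) ^ 3 * (3 * t ^ 717) := by gcongr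
    _ = 81 * t ^ 2967 := by ring

end Pool.Helper30.Hall
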