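import Mathlib
import Pool.Agent.Helper30.Hall.Point

/-! The cuspidal case and the combination. -/

namespace Pool.Helper30.Hall

theorem case2 (t : ℝ) (ht : 144 ≤ t) (x y d α β γ δ : ℤ) (hxy : y ^ 2 = x ^ 3 + d)
    (hx1 : t ^ 2968 ≤ (x : ℝ))
    (S η V q1 q2 : ℝ) (hS0 : 0 ≤ S) (hxS : (x : ℝ) = S ^ 2) (hyη : (y : ℝ) = S ^ 3 + η)
    (hSV : S = t ^ 743 * V) (hV1 : t ^ 741 ≤ V) (hηA : |η| * V ^ 3 ≤ t ^ 743)
    (hdet : α * δ - β * γ = 1) (hq1 : 0 < q1) (hq2 : 0 ≤ q2)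
    (hq12 : q1 * q2 ≤ 6 / 5)
    (hδ : |(δ : ℝ) + S * γ| ≤ q1 / V) (hγ : |(γ : ℝ)| ≤ V * q1)
    (hβ : |(β : ℝ) + S * α| ≤ q2 / V) (hα : |(α : ℝ)| ≤ V * q2)
    (hcase : q1 * t ^ 2 < 1) : P0 t d ∨ P2 t d := by
  have ht0 : (0 : ℝ) < t := by linarith
  have ht1 : (1 : ℝ) ≤ t := by linarith
  by_cases ha0 : cA x y γ δ = 0
  · left
    have hval := form_val x y α β γ δ hdet
    rw [ha0] at hval
    have h1 : γ ∣ 1 := ⟨cB x y α β γ δ * α ^ 2 + cC x y α β γ δ * α * γ + cE x y α β * γ ^ 2, by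
      linear_combination -hval⟩
    have hγ2 : γ ^ 2 = 1 := by
      have h2 := Int.natAbs_dvd_natAbs.2 h1
      rw [Int.natAbs_one, Nat.dvd_one] at h2
      rw [← Int.natAbs_sq, h2]; rfl
    refine ⟨x, δ, hx1, ?_⟩
    unfold cA at ha0
    have h3 : (δ ^ 3 - 3 * x * δ) = 2 * y * γ := by
      have e1 : 2 * y * γ ^ 3 = 2 * y * γ := by
        have : γ ^ 3 = γ := by rw [pow_succ, hγ2, one_mul]
        rw [this]
      have e2 : 3 * x * δ * γ ^ 2 = 3 * x * δ := by rw [hγ2, mul_one]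
      linarith
    have h4 : (δ ^ 3 - 3 * x * δ) ^ 2 = 4 * y ^ 2 := by
      rw [h3]
      have : (2 * y * γ) ^ 2 = 4 * y ^ 2 * γ ^ 2 := by ring
      rw [this, hγ2, mul_one]
    linear_combination -h4 - 4 * hxy
  · right
    set A : ℝ := t ^ 743 with hA
    have hA1 : 1 ≤ A := one_le_pow₀ ht1
    have hA0 : 0 < A := by linarith
    have hVone : 1 ≤ V := le_trans (one_le_pow₀ ht1) hV1
    have hV0 : 0 < V := by linarith
    have hq1one : q1 ≤ 1 := by
      have h2 : 1 ≤ t ^ 2 := one_le_pow₀ ht1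
      nlinarith
    have hA2 : t ^ 1486 = A ^ 2 := by rw [hA, ← pow_mul]
    refine ⟨fun k => (cA x y γ δ, cB x y (α - k * γ) (β - k * δ) γ δ,
      cC x y (α - k * γ) (β - k * δ) γ δ, cE x y (α - k * γ) (β - k * δ)), ?_, ?_⟩
    · intro k hk
      have hdetk : (α - k * γ) * δ - (β - k * δ) * γ = 1 := by linear_combination hdet
      have hkr : (k : ℝ) ≤ t ^ 4 := by
        have h1 : ((⌊t ^ 4⌋₊ : ℕ) : ℝ) ≤ t ^ 4 := Nat.floor_le (by positivity)
        have h2 : (k : ℝ) ≤ ((⌊t ^ 4⌋₊ : ℕ) : ℝ) := by exact_mod_cast hk.le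
        linarith
      have hk0 : (0 : ℝ) ≤ k := by positivity
      set r : ℝ := q2 + k * q1 with hr
      have hr0 : 0 ≤ r := by positivity
      have hq1r : q1 * r ≤ 11 / 5 := by
        have h1 : k * q1 ^ 2 ≤ 1 := by
          calc (k : ℝ) * q1 ^ 2 ≤ t ^ 4 * q1 ^ 2 := by gcongr
            _ = (q1 * t ^ 2) ^ 2 := by ring
            _ ≤ 1 := pow_le_one₀ (by positivity) hcase.le
        rw [hr]
        nlinarith
      have hβk : |((β - k * δ : ℤ) : ℝ) + S * ((α - k * γ : ℤ) : ℝ)| ≤ r / V := by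
        have e : ((β - k * δ : ℤ) : ℝ) + S * ((α - k * γ : ℤ) : ℝ) =
            ((β : ℝ) + S * α) - k * ((δ : ℝ) + S * γ) := by push_cast; ring
        rw [e]
        calc |((β : ℝ) + S * α) - k * ((δ : ℝ) + S * γ)|
            ≤ |(β : ℝ) + S * α| + |k * ((δ : ℝ) + S * γ)| := abs_sub _ _
          _ = |(β : ℝ) + S * α| + k * |(δ : ℝ) + S * γ| := by rw [abs_mul, abs_of_nonneg hk0]
          _ ≤ q2 / V + k * (q1 / V) := by gcongr
          _ = r / V := by rw [hr]; ring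
      have hαk : |((α - k * γ : ℤ) : ℝ)| ≤ V * r := by
        push_cast
        calc |(α : ℝ) - k * γ| ≤ |(α : ℝ)| + |(k : ℝ) * γ| := abs_sub _ _
          _ = |(α : ℝ)| + k * |(γ : ℝ)| := by rw [abs_mul, abs_of_nonneg hk0]
          _ ≤ V * q2 + k * (V * q1) := by gcongr
          _ = V * r := by rw [hr]; ring
      obtain ⟨ba, bb, bc, be⟩ := coeff_bounds x y (α - k * γ) (β - k * δ) γ δ S η A V q1 r hS0 hxS
        hyη hA1 hVone hSV hηA hq1.le hr0 hδ hγ hβk hαk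
      have hdisc := form_disc x y (α - k * γ) (β - k * δ) γ δ hdetk
      have hr3 : (q1 * r) ^ 3 ≤ (11 / 5) ^ 3 := pow_le_pow_left₀ (by positivity) hq1r 3
      have hr3' : (q1 * r) ^ 3 ≤ 11 := by norm_num at hr3; linarith
      have haone : (1 : ℝ) ≤ |(cA x y γ δ : ℝ)| := by
        have : 1 ≤ |cA x y γ δ| := Int.one_le_abs ha0
        exact_mod_cast this
      have hAA : A ≤ A ^ 2 := by nlinarith
      have hq13 : q1 ^ 3 ≤ q1 := by
        calc q1 ^ 3 = q1 * q1 ^ 2 := by ring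
          _ ≤ q1 * 1 := by gcongr; exact pow_le_one₀ hq1.le hq1one
          _ = q1 := mul_one _
      have h6Aq : 1 ≤ 6 * A * q1 := by
        calc (1 : ℝ) ≤ |(cA x y γ δ : ℝ)| := haone
          _ ≤ 6 * A * q1 ^ 3 := ba
          _ ≤ 6 * A * q1 := by gcongr
      have hrA : r ≤ 66 / 5 * A := by
        calc r = r * 1 := (mul_one _).symm
          _ ≤ r * (6 * A * q1) := by gcongr
          _ = 6 * A * (q1 * r) := by ring
          _ ≤ 6 * A * (11 / 5) := by gcongr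
          _ = 66 / 5 * A := by ring
      refine ⟨⟨ha0, ?_, ?_, ?_, ?_, ?_⟩, ?_⟩
      · simp only
        rw [hA2]
        calc |(cA x y γ δ : ℝ)| * |(cE x y (α - k * γ) (β - k * δ) : ℝ)|
            ≤ (6 * A * q1 ^ 3) * (6 * A * r ^ 3) := by gcongr
          _ = 36 * A ^ 2 * (q1 * r) ^ 3 := by ring
          _ ≤ 36 * A ^ 2 * 11 := by gcongr
          _ ≤ 4000 * A ^ 2 := by nlinarith
      · simp only
        rw [hA2]
        calc |(cB x y (α - k * γ) (β - k * δ) γ δ : ℝ)| * |(cC x y (α - k * γ) (β - k * δ) γ δ : ℝ)|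
            ≤ (18 * A * (q1 ^ 2 * r)) * (18 * A * (q1 * r ^ 2)) := by gcongr
          _ = 324 * A ^ 2 * (q1 * r) ^ 3 := by ring
          _ ≤ 324 * A ^ 2 * 11 := by gcongr
          _ ≤ 4000 * A ^ 2 := by nlinarith
      · simp only
        rw [hA2]
        calc |(cA x y γ δ : ℝ)| ≤ 6 * A * q1 ^ 3 := ba
          _ ≤ 6 * A * 1 := by gcongr; exact pow_le_one₀ hq1.le hq1one
          _ ≤ 4000 * A ^ 2 := by nlinarith
      · simp only
        rw [hA2]
        calc |(cB x y (α - k * γ) (β - k * δ) γ δ : ℝ)| ≤ 18 * A * (q1 ^ 2 * r) := bb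
          _ = 18 * A * (q1 * (q1 * r)) := by ring
          _ ≤ 18 * A * (1 * (11 / 5)) := by gcongr
          _ ≤ 4000 * A ^ 2 := by nlinarith
      · simp only
        rw [hA2]
        calc |(cC x y (α - k * γ) (β - k * δ) γ δ : ℝ)| ≤ 18 * A * (q1 * r ^ 2) := bc
          _ = 18 * A * ((q1 * r) * r) := by ring
          _ ≤ 18 * A * ((11 / 5) * (66 / 5 * A)) := by gcongr
          _ ≤ 4000 * A ^ 2 := by nlinarith
      · simp only
        rw [hdisc]; linear_combination (-108) * hxy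
    · intro k _ k' _ h
      have h1 := congrArg (fun F => F.2.1) h
      simp only at h1
      rw [cB_shift, cB_shift] at h1
      have h2 : cA x y γ δ * ((k : ℤ) - k') = 0 := by linarith
      rcases mul_eq_zero.1 h2 with h3 | h3
      · exact absurd h3 ha0
      · have : (k : ℤ) = k' := by linarith
        exact_mod_cast this

theorem point_cases (C : ℕ) (t : ℝ) (ht : 144 ≤ t) (x y d : ℤ)
    (hd : |(d : ℝ)| ≤ t ^ 2972) (hxy : y ^ 2 = x ^ 3 + d) (hy : 0 < y)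
    (hx1 : t ^ 2968 ≤ (x : ℝ)) (hx2 : (x : ℝ) ≤ (t ^ 2972) ^ C) :
    (∃ n, 1 ≤ n ∧ n ≤ 6 * C + 1 ∧ P1 t n d) ∨ P0 t d ∨ P2 t d := by
  have ht0 : (0 : ℝ) < t := by linarith
  have ht1 : (1 : ℝ) ≤ t := by linarith
  set A : ℝ := t ^ 743 with hA
  have hA1 : 1 ≤ A := one_le_pow₀ ht1
  have hA0 : 0 < A := by linarith
  have hx0 : (0 : ℝ) ≤ x := le_trans (by positivity) hx1
  set S : ℝ := Real.sqrt x with hS
  have hS0 : 0 ≤ S := Real.sqrt_nonneg _
  have hxS : (x : ℝ) = S ^ 2 := (Real.sq_sqrt hx0).symm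
  have hS1 : t ^ 1484 ≤ S := by
    apply Real.le_sqrt_of_sq_le
    rw [← pow_mul]
    exact hx1
  have hS2 : S ≤ t ^ (1486 * C) := by
    rw [hS, Real.sqrt_le_iff]
    refine ⟨by positivity, ?_⟩
    rw [← pow_mul] at hx2 ⊢
    have : 1486 * C * 2 = 2972 * C := by ring
    rw [this]
    exact hx2
  set V : ℝ := S / A with hV
  have hSV : S = A * V := by rw [hV]; field_simp
  have hV1 : t ^ 741 ≤ V := by
    rw [hV, le_div_iff₀ hA0, hA, ← pow_add]
    exact hS1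
  have hVone : 1 ≤ V := le_trans (one_le_pow₀ ht1) hV1
  have hV0 : 0 < V := by linarith
  have hSpos : 0 < S := by rw [hSV]; positivity
  set η : ℝ := y - S ^ 3 with hη
  have hyη : (y : ℝ) = S ^ 3 + η := by rw [hη]; ring
  have hηA : |η| * V ^ 3 ≤ A := by
    have h1 : η * (y + S ^ 3) = d := by
      have : ((y : ℝ)) ^ 2 = (x : ℝ) ^ 3 + d := by exact_mod_cast hxy
      rw [hxS] at this
      rw [hη]
      linear_combination this
    have hypos : (0 : ℝ) < y := by exact_mod_cast hy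
    have h2 : |η| * S ^ 3 ≤ t ^ 2972 := by
      calc |η| * S ^ 3 ≤ |η| * (y + S ^ 3) := by
            gcongr
            linarith
        _ = |η * (y + S ^ 3)| := by
            rw [abs_mul, abs_of_pos (by positivity : (0 : ℝ) < y + S ^ 3)]
        _ = |(d : ℝ)| := by rw [h1]
        _ ≤ t ^ 2972 := hd
    have h3 : |η| * V ^ 3 = |η| * S ^ 3 / A ^ 3 := by rw [hV]; field_simp
    rw [h3, div_le_iff₀ (by positivity)]
    calc |η| * S ^ 3 ≤ t ^ 2972 := h2
      _ = A * A ^ 3 := by rw [hA, ← pow_mul, ← pow_add]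
  obtain ⟨α, β, γ, δ, hdet, q1, q2, hq1, hq2, hq14, hqq, hδ, hγ, hβ, hα⟩ :=
    exists_reduced_basis S V hV0
  have hq1le : q1 ≤ 2 := by
    by_contra h
    push Not at h
    have : (2 : ℝ) ^ 4 < q1 ^ 4 := by gcongr
    linarith
  have hq12 : q1 * q2 ≤ 6 / 5 := by
    apply le_of_sq_le_sq _ (by norm_num)
    rw [mul_pow]
    linarith
  rcases le_or_gt 1 (q1 * t ^ 2) with hcase | hcase
  · left
    exact case1 C t ht x y d α β γ δ hxy S η V q1 q2 hS0 hxS hyη hSV hV1 hηA hS2 hdet hq1 hq2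
      hq1le hq12 hδ hγ hβ hα hcase
  · right
    exact case2 t ht x y d α β γ δ hxy hx1 S η V q1 q2 hS0 hxS hyη hSV hV1 hηA hdet hq1 hq2
      hq12 hδ hγ hβ hα hcase

end Pool.Helper30.Hall
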