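import Mathlib
import Pool.Agent.Helper30.Hall.Count0
import Pool.Agent.Helper30.Hall.Count1
import Pool.Agent.Helper30.Hall.Count2
import Pool.Agent.Helper30.Hall.Point2

/-! Assembly. -/

namespace Pool.Helper30.Hall

open Finset

theorem density_t (C : ℕ) : ∃ K t0 : ℝ, 0 ≤ K ∧ 1 ≤ t0 ∧ ∀ t : ℝ, t0 ≤ t → ∀ E : Finset ℤ,
    (∀ d ∈ E, d ≠ 0 ∧ |(d : ℝ)| ≤ t ^ 2972 ∧
      ∃ x y : ℤ, y ^ 2 = x ^ 3 + d ∧ (x : ℝ) ≤ (t ^ 2972) ^ C) →
    (E.card : ℝ) ≤ K * t ^ 2969 := by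
  classical
  obtain ⟨K2, hK2, hcount2⟩ := count2
  have h1 : ∀ n : ℕ, ∃ t0 : ℝ, 1 ≤ t0 ∧ ∀ t : ℝ, t0 ≤ t → ∀ E : Finset ℤ,
      (∀ d ∈ E, P1 t (n + 1) d) → (E.card : ℝ) ≤ 81 * t ^ 2967 := fun n =>
    count1 (n + 1) (by omega)
  choose T hT1 hT using h1
  refine ⟨60 + 25 + K2 + 81 * (6 * C + 1), 144 + ∑ n ∈ range (6 * C + 1), T n, by positivity, ?_, ?_⟩
  · have : 0 ≤ ∑ n ∈ range (6 * C + 1), T n :=
      Finset.sum_nonneg (fun n _ => by linarith [hT1 n])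
    linarith
  intro t ht E hE
  have hsum : 0 ≤ ∑ n ∈ range (6 * C + 1), T n :=
    Finset.sum_nonneg (fun n _ => by linarith [hT1 n])
  have ht144 : 144 ≤ t := by linarith
  have ht0 : 0 < t := by linarith
  have ht1 : 1 ≤ t := by linarith
  have htT : ∀ n ∈ range (6 * C + 1), T n ≤ t := by
    intro n hn
    have := Finset.single_le_sum (f := T) (fun n _ => by linarith [hT1 n]) hn
    linarith
  set Es := E.filter (fun d => ∃ x y : ℤ, y ^ 2 = x ^ 3 + d ∧ (x : ℝ) ≤ t ^ 2968) with hEs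
  set E0 := E.filter (fun d => P0 t d) with hE0
  set E2 := E.filter (fun d => P2 t d) with hE2
  set E1 := (range (6 * C + 1)).biUnion (fun n => E.filter (fun d => P1 t (n + 1) d)) with hE1
  have hcover : E ⊆ Es ∪ (E0 ∪ (E2 ∪ E1)) := by
    intro d hdE
    obtain ⟨hd0, hdD, x, y, hxy, hxC⟩ := hE d hdE
    simp only [Finset.mem_union]
    by_cases hx : (x : ℝ) ≤ t ^ 2968
    · left
      rw [hEs, Finset.mem_filter]
      exact ⟨hdE, x, y, hxy, hx⟩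
    · right
      push Not at hx
      have hy0 : y ≠ 0 := by
        intro h
        rw [h] at hxy
        have e1 : (0 : ℝ) = (x : ℝ) ^ 3 + d := by
          have : (0 : ℤ) = x ^ 3 + d := by rw [← hxy]; ring
          exact_mod_cast this
        have e2 := (abs_le.1 hdD).1
        have e3 : (t ^ 2968) ^ 3 < (x : ℝ) ^ 3 :=
          pow_lt_pow_left₀ hx (by positivity) (by norm_num)
        have e4 : t ^ 2972 ≤ (t ^ 2968) ^ 3 := by
          rw [← pow_mul]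
          exact pow_le_pow_right₀ ht1 (by norm_num)
        linarith
      have hcases := point_cases C t ht144 x |y| d hdD (by rw [sq_abs]; exact hxy)
        (abs_pos.2 hy0) hx.le hxC
      rcases hcases with ⟨n, hn1, hn2, hP⟩ | hP | hP
      · right; right
        rw [hE1, Finset.mem_biUnion]
        refine ⟨n - 1, Finset.mem_range.2 (by omega), ?_⟩
        rw [Finset.mem_filter]
        have : n - 1 + 1 = n := by omega
        rw [this]
        exact ⟨hdE, hP⟩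
      · left
        rw [hE0, Finset.mem_filter]
        exact ⟨hdE, hP⟩
      · right; left
        rw [hE2, Finset.mem_filter]
        exact ⟨hdE, hP⟩
  have cs : (Es.card : ℝ) ≤ 60 * t ^ 2968 := by
    apply count_small t ht144
    intro d hd
    rw [hEs, Finset.mem_filter] at hd
    exact ⟨(hE d hd.1).2.1, hd.2⟩
  have c0 : (E0.card : ℝ) ≤ 25 * t ^ 1488 := by
    apply count0 t ht144
    intro d hd
    rw [hE0, Finset.mem_filter] at hd
    exact ⟨(hE d hd.1).1, (hE d hd.1).2.1, hd.2⟩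
  have c2 : (E2.card : ℝ) ≤ K2 * t ^ 2969 := by
    apply hcount2 t (by linarith)
    intro d hd
    rw [hE2, Finset.mem_filter] at hd
    exact hd.2
  have c1 : (E1.card : ℝ) ≤ 81 * (6 * C + 1) * t ^ 2967 := by
    calc (E1.card : ℝ) ≤ ∑ n ∈ range (6 * C + 1), ((E.filter (fun d => P1 t (n + 1) d)).card : ℝ) := by
          exact_mod_cast Finset.card_biUnion_le
      _ ≤ ∑ n ∈ range (6 * C + 1), 81 * t ^ 2967 := by
          apply Finset.sum_le_sum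
          intro n hn
          exact hT n t (htT n hn) _ (fun d hd => (Finset.mem_filter.1 hd).2)
      _ = 81 * (6 * C + 1) * t ^ 2967 := by
          rw [Finset.sum_const, Finset.card_range, nsmul_eq_mul]
          push_cast
          ring
  have hcard : (E.card : ℝ) ≤ Es.card + (E0.card + (E2.card + E1.card)) := by
    have h1 := Finset.card_le_card hcover
    have h2 := Finset.card_union_le Es (E0 ∪ (E2 ∪ E1))
    have h3 := Finset.card_union_le E0 (E2 ∪ E1)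
    have h4 := Finset.card_union_le E2 E1
    have h5 : E.card ≤ Es.card + (E0.card + (E2.card + E1.card)) := by omega
    exact_mod_cast h5
  have p1 : t ^ 2968 ≤ t ^ 2969 := pow_le_pow_right₀ ht1 (by norm_num)
  have p2 : t ^ 1488 ≤ t ^ 2969 := pow_le_pow_right₀ ht1 (by norm_num)
  have p3 : t ^ 2967 ≤ t ^ 2969 := pow_le_pow_right₀ ht1 (by norm_num)
  have p4 : 81 * (6 * (C : ℝ) + 1) * t ^ 2967 ≤ 81 * (6 * (C : ℝ) + 1) * t ^ 2969 := by gcongr
  calc (E.card : ℝ) ≤ 60 * t ^ 2969 + (25 * t ^ 2969 + (K2 * t ^ 2969 + 81 * (6 * C + 1) * t ^ 2969)) := by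
        linarith
    _ = (60 + 25 + K2 + 81 * (6 * C + 1)) * t ^ 2969 := by ring

theorem density (C : ℕ) : ∃ K : ℝ, ∀ D : ℕ, 1 ≤ D →
    (({d : ℤ | d ≠ 0 ∧ |d| ≤ (D : ℤ) ∧ ∃ x y : ℤ, y ^ 2 = x ^ 3 + d ∧ |x| ≤ (D : ℤ) ^ C}.ncard : ℕ) : ℝ) ≤
      K * (D : ℝ) ^ (999 / 1000 : ℝ) := by
  classical
  obtain ⟨K, t0, hK, ht0, h⟩ := density_t C
  refine ⟨K + (2 * t0 ^ 2972 + 1), fun D hD => ?_⟩
  have hD1 : (1 : ℝ) ≤ D := by exact_mod_cast hD
  have hD0 : (0 : ℝ) < D := by linarith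
  set t : ℝ := (D : ℝ) ^ (1 / 2972 : ℝ) with ht
  have ht1 : 1 ≤ t := Real.one_le_rpow hD1 (by norm_num)
  have htD : t ^ 2972 = D := by
    rw [ht, ← Real.rpow_natCast, ← Real.rpow_mul hD0.le]
    norm_num
  have ht69 : t ^ 2969 ≤ (D : ℝ) ^ (999 / 1000 : ℝ) := by
    rw [ht, ← Real.rpow_natCast, ← Real.rpow_mul hD0.le]
    apply Real.rpow_le_rpow_of_exponent_le hD1
    norm_num
  have hDr : (1 : ℝ) ≤ (D : ℝ) ^ (999 / 1000 : ℝ) := Real.one_le_rpow hD1 (by norm_num)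
  set E : Finset ℤ := (Finset.Icc (-(D : ℤ)) D).filter
    (fun d => d ≠ 0 ∧ ∃ x y : ℤ, y ^ 2 = x ^ 3 + d ∧ |x| ≤ (D : ℤ) ^ C) with hE
  have hset : {d : ℤ | d ≠ 0 ∧ |d| ≤ (D : ℤ) ∧ ∃ x y : ℤ, y ^ 2 = x ^ 3 + d ∧ |x| ≤ (D : ℤ) ^ C} =
      (E : Set ℤ) := by
    ext d
    simp only [hE, Finset.coe_filter, Finset.mem_Icc, abs_le]
    constructor
    · rintro ⟨h1, h2, h3⟩
      exact ⟨h2, h1, h3⟩
    · rintro ⟨h2, h1, h3⟩
      exact ⟨h1, h2, h3⟩
  rw [hset, Set.ncard_coe_finset]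
  have hmem : ∀ d ∈ E, d ≠ 0 ∧ |(d : ℝ)| ≤ t ^ 2972 ∧
      ∃ x y : ℤ, y ^ 2 = x ^ 3 + d ∧ (x : ℝ) ≤ (t ^ 2972) ^ C := by
    intro d hd
    rw [hE, Finset.mem_filter, Finset.mem_Icc] at hd
    obtain ⟨h1, h2, x, y, hxy, hx⟩ := hd
    refine ⟨h2, ?_, x, y, hxy, ?_⟩
    · rw [htD]
      have : |d| ≤ (D : ℤ) := abs_le.2 h1
      exact_mod_cast this
    · rw [htD]
      have : x ≤ (D : ℤ) ^ C := (le_abs_self x).trans hx
      exact_mod_cast this
  have hB0 : (0 : ℝ) ≤ 2 * t0 ^ 2972 + 1 := by positivity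
  rcases le_or_gt t0 t with hle | hlt
  · calc (E.card : ℝ) ≤ K * t ^ 2969 := h t hle E hmem
      _ ≤ K * (D : ℝ) ^ (999 / 1000 : ℝ) := by gcongr
      _ ≤ (K + (2 * t0 ^ 2972 + 1)) * (D : ℝ) ^ (999 / 1000 : ℝ) := by
          gcongr
          linarith
  · have h1 : (E.card : ℝ) ≤ 2 * D + 1 := by
      have h2 : E.card ≤ (Finset.Icc (-(D : ℤ)) D).card := Finset.card_filter_le _ _
      rw [Int.card_Icc] at h2
      have h3 : ((D : ℤ) + 1 - -(D : ℤ)).toNat = 2 * D + 1 := by omega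
      rw [h3] at h2
      exact_mod_cast h2
    have h4 : (D : ℝ) ≤ t0 ^ 2972 := by
      rw [← htD]
      gcongr
    calc (E.card : ℝ) ≤ 2 * D + 1 := h1
      _ ≤ 2 * t0 ^ 2972 + 1 := by linarith
      _ = (2 * t0 ^ 2972 + 1) * 1 := (mul_one _).symm
      _ ≤ (2 * t0 ^ 2972 + 1) * (D : ℝ) ^ (999 / 1000 : ℝ) := by gcongr
      _ ≤ (K + (2 * t0 ^ 2972 + 1)) * (D : ℝ) ^ (999 / 1000 : ℝ) :=
          mul_le_mul_of_nonneg_right (by linarith) (by positivity)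

end Pool.Helper30.Hall
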